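import Mathlib

/-!
Binary forms as functions of two real variables.
-/

namespace Pool.Agent.Q192.HQ

open Set

/-- Binary forms of degree `n`. -/
def BF : ℕ → (ℝ → ℝ → ℝ) → Prop
  | 0, f => ∃ c : ℝ, f = fun _ _ => c
  | n + 1, f => ∃ g, BF n g ∧ ∃ h, BF n h ∧ f = fun y z => y * g y z + z * h y z

theorem BF.const (c : ℝ) : BF 0 (fun _ _ => c) := ⟨c, rfl⟩

theorem BF.of_eq {n : ℕ} {f g : ℝ → ℝ → ℝ} (hf : BF n f) (h : ∀ y z, g y z = f y z) :
    BF n g := by
  have : g = f := by funext y z; exact h y z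
  rwa [this]

theorem BF.add {n : ℕ} {f g : ℝ → ℝ → ℝ} (hf : BF n f) (hg : BF n g) :
    BF n (fun y z => f y z + g y z) := by
  induction n generalizing f g with
  | zero =>
    obtain ⟨c, rfl⟩ := hf
    obtain ⟨d, rfl⟩ := hg
    exact ⟨c + d, rfl⟩
  | succ n ih =>
    obtain ⟨g1, hg1, h1, hh1, rfl⟩ := hf
    obtain ⟨g2, hg2, h2, hh2, rfl⟩ := hg
    exact ⟨_, ih hg1 hg2, _, ih hh1 hh2, by funext y z; ring⟩

theorem BF.smul {n : ℕ} {f : ℝ → ℝ → ℝ} (t : ℝ) (hf : BF n f) :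
    BF n (fun y z => t * f y z) := by
  induction n generalizing f with
  | zero =>
    obtain ⟨c, rfl⟩ := hf
    exact ⟨t * c, rfl⟩
  | succ n ih =>
    obtain ⟨g1, hg1, h1, hh1, rfl⟩ := hf
    exact ⟨_, ih hg1, _, ih hh1, by funext y z; ring⟩

theorem BF.zero (n : ℕ) : BF n (fun _ _ => (0 : ℝ)) := by
  induction n with
  | zero => exact ⟨0, rfl⟩
  | succ n ih => exact ⟨_, ih, _, ih, by funext y z; ring⟩

theorem BF.ymul {n : ℕ} {f : ℝ → ℝ → ℝ} (h : BF n f) : BF (n + 1) (fun y z => y * f y z) :=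
  ⟨f, h, _, BF.zero n, by funext y z; ring⟩

theorem BF.zmul {n : ℕ} {f : ℝ → ℝ → ℝ} (h : BF n f) : BF (n + 1) (fun y z => z * f y z) :=
  ⟨_, BF.zero n, f, h, by funext y z; ring⟩

theorem BF.lin (a b : ℝ) : BF 1 (fun y z => a * y + b * z) :=
  ⟨_, BF.const a, _, BF.const b, by funext y z; ring⟩

theorem BF.linmul {n : ℕ} {f : ℝ → ℝ → ℝ} (a b : ℝ) (h : BF n f) :
    BF (n + 1) (fun y z => (a * y + b * z) * f y z) :=
  ((BF.smul a (BF.ymul h)).add (BF.smul b (BF.zmul h))).of_eq fun y z => by ring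

theorem BF.mul {m n : ℕ} {f g : ℝ → ℝ → ℝ} (hf : BF m f) (hg : BF n g) :
    BF (n + m) (fun y z => f y z * g y z) := by
  induction m generalizing f with
  | zero =>
    obtain ⟨c, rfl⟩ := hf
    exact BF.smul c hg
  | succ m ih =>
    obtain ⟨g1, hg1, h1, hh1, rfl⟩ := hf
    exact ((BF.ymul (ih hg1)).add (BF.zmul (ih hh1))).of_eq fun y z => by ring

/-- Linear substitutions. -/
theorem BF.comp {n : ℕ} {f : ℝ → ℝ → ℝ} (a b c d : ℝ) (hf : BF n f) :
    BF n (fun y z => f (a * y + b * z) (c * y + d * z)) := by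
  induction n generalizing f with
  | zero =>
    obtain ⟨k, rfl⟩ := hf
    exact ⟨k, rfl⟩
  | succ n ih =>
    obtain ⟨g1, hg1, h1, hh1, rfl⟩ := hf
    exact (BF.linmul a b (ih hg1)).add (BF.linmul c d (ih hh1))

theorem BF.hom {n : ℕ} {f : ℝ → ℝ → ℝ} (hf : BF n f) (t y z : ℝ) : f (t * y) (t * z) =
    t ^ n * f y z := by
  induction n generalizing f with
  | zero =>
    obtain ⟨k, rfl⟩ := hf
    simp
  | succ n ih =>
    obtain ⟨g1, hg1, h1, hh1, rfl⟩ := hf
    simp only [ih hg1, ih hh1]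
    ring

theorem BF.continuous {n : ℕ} {f : ℝ → ℝ → ℝ} (hf : BF n f) :
    Continuous fun p : ℝ × ℝ => f p.1 p.2 := by
  induction n generalizing f with
  | zero =>
    obtain ⟨k, rfl⟩ := hf
    exact continuous_const
  | succ n ih =>
    obtain ⟨g1, hg1, h1, hh1, rfl⟩ := hf
    exact (continuous_fst.mul (ih hg1)).add (continuous_snd.mul (ih hh1))

theorem BF.exists_one {f : ℝ → ℝ → ℝ} (h : BF 1 f) : ∃ a b, ∀ y z, f y z = a * y + b * z := by
  obtain ⟨_, ⟨a, rfl⟩, _, ⟨b, rfl⟩, rfl⟩ := h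
  exact ⟨a, b, fun y z => by ring⟩

theorem BF.exists_two {f : ℝ → ℝ → ℝ} (h : BF 2 f) :
    ∃ a b c, ∀ y z, f y z = a * y ^ 2 + b * (y * z) + c * z ^ 2 := by
  obtain ⟨g, hg, k, hk, rfl⟩ := h
  obtain ⟨a, b, h1⟩ := BF.exists_one hg
  obtain ⟨c, d, h2⟩ := BF.exists_one hk
  exact ⟨a, b + c, d, fun y z => by simp only [h1, h2]; ring⟩

/-- A form which vanishes at `(1, 0)` is divisible by `z`. -/
theorem BF.div_z {n : ℕ} {f : ℝ → ℝ → ℝ} (hf : BF (n + 1) f) (h0 : f 1 0 = 0) :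
    ∃ g, BF n g ∧ ∀ y z, f y z = z * g y z := by
  induction n generalizing f with
  | zero =>
    obtain ⟨_, ⟨a, rfl⟩, k, hk, rfl⟩ := hf
    refine ⟨k, hk, fun y z => ?_⟩
    simp only [one_mul, zero_mul, add_zero] at h0
    simp only [h0]; ring
  | succ n ih =>
    obtain ⟨g, hg, k, hk, rfl⟩ := hf
    have h1 : g 1 0 = 0 := by simpa using h0
    obtain ⟨g', hg', h2⟩ := ih hg h1
    exact ⟨_, (BF.ymul hg').add hk, fun y z => by simp only [h2]; ring⟩

/-- **Division.** A form which vanishes at `p ≠ 0` is divisible by `p₂ y - p₁ z`. -/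
theorem BF.div {n : ℕ} {f : ℝ → ℝ → ℝ} (hf : BF (n + 1) f) {p q : ℝ} (hp : p ^ 2 + q ^ 2 ≠ 0)
    (h0 : f p q = 0) : ∃ g, BF n g ∧ ∀ y z, f y z = (q * y - p * z) * g y z := by
  have h1 : BF (n + 1) (fun y z => f (p * y + -q * z) (q * y + p * z)) := hf.comp _ _ _ _
  obtain ⟨g, hg, h2⟩ := BF.div_z h1 (by simpa using h0)
  set r := p ^ 2 + q ^ 2 with hr
  refine ⟨fun y z => -(1 / r) * g (p / r * y + q / r * z) (-q / r * y + p / r * z),
    BF.smul _ (hg.comp _ _ _ _), fun y z => ?_⟩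
  have h3 := h2 (p / r * y + q / r * z) (-q / r * y + p / r * z)
  have e1 : p * (p / r * y + q / r * z) + -q * (-q / r * y + p / r * z) = y := by
    field_simp
    rw [hr]; ring
  have e2 : q * (p / r * y + q / r * z) + p * (-q / r * y + p / r * z) = z := by
    field_simp
    rw [hr]; ring
  rw [e1, e2] at h3
  rw [h3]
  field_simp
  ring

/-- If `l² * g ≤ 0`-type inequalities extend by continuity over the zero line of `l`. -/
theorem extend_nonneg {g : ℝ → ℝ → ℝ} (hg : Continuous fun p : ℝ × ℝ => g p.1 p.2) {p q : ℝ}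
    (hp : p ^ 2 + q ^ 2 ≠ 0) (h : ∀ y z, q * y - p * z ≠ 0 → 0 ≤ g y z) : ∀ y z, 0 ≤ g y z := by
  intro y z
  by_cases hl : q * y - p * z = 0
  · have hc : Continuous fun t : ℝ => g (y + t * q) (z - t * p) :=
      hg.comp (by fun_prop : Continuous fun t : ℝ => (y + t * q, z - t * p))
    have hd : ∀ t : ℝ, t ≠ 0 → 0 ≤ g (y + t * q) (z - t * p) := by
      intro t ht
      apply h
      have : q * (y + t * q) - p * (z - t * p) = t * (p ^ 2 + q ^ 2) := by
        linear_combination hl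
      rw [this]
      exact mul_ne_zero ht hp
    have hclosed : IsClosed {t : ℝ | 0 ≤ g (y + t * q) (z - t * p)} :=
      isClosed_le continuous_const hc
    have hdense : Dense ({0}ᶜ : Set ℝ) := dense_compl_singleton 0
    have hsub : ({0}ᶜ : Set ℝ) ⊆ {t : ℝ | 0 ≤ g (y + t * q) (z - t * p)} := fun t ht => hd t ht
    have : (0 : ℝ) ∈ {t : ℝ | 0 ≤ g (y + t * q) (z - t * p)} := by
      have h1 := hdense.closure_eq ▸ mem_univ (0 : ℝ)
      exact hclosed.closure_subset_iff.2 hsub h1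
    simpa using this
  · exact h y z hl

/-- A nonnegative form with a zero has a double factor. -/
theorem BF.div_sq {n : ℕ} {f : ℝ → ℝ → ℝ} (hf : BF (n + 2) f) (hn : ∀ y z, 0 ≤ f y z) {p q : ℝ}
    (hp : p ^ 2 + q ^ 2 ≠ 0) (h0 : f p q = 0) :
    ∃ g, BF n g ∧ (∀ y z, f y z = (q * y - p * z) ^ 2 * g y z) ∧ ∀ y z, 0 ≤ g y z := by
  obtain ⟨f1, hf1, h1⟩ := hf.div hp h0
  have h2 : f1 p q = 0 := by
    have hc : Continuous fun t : ℝ => t * f1 (p + t * q) (q - t * p) :=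
      continuous_id.mul (hf1.continuous.comp
        (by fun_prop : Continuous fun t : ℝ => (p + t * q, q - t * p)))
    have hc1 : Continuous fun t : ℝ => f1 (p + t * q) (q - t * p) :=
      hf1.continuous.comp (by fun_prop : Continuous fun t : ℝ => (p + t * q, q - t * p))
    have hr : 0 < p ^ 2 + q ^ 2 := lt_of_le_of_ne (by positivity) hp.symm
    have hsign : ∀ t : ℝ, 0 ≤ t * f1 (p + t * q) (q - t * p) := by
      intro t
      have h3 := hn (p + t * q) (q - t * p)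
      rw [h1] at h3
      have e : q * (p + t * q) - p * (q - t * p) = t * (p ^ 2 + q ^ 2) := by ring
      rw [e] at h3
      have h4 : 0 ≤ (p ^ 2 + q ^ 2) * (t * f1 (p + t * q) (q - t * p)) := by
        calc (0 : ℝ) ≤ _ := h3
          _ = _ := by ring
      exact nonneg_of_mul_nonneg_right h4 hr
    apply le_antisymm
    · -- from negative `t`
      have hcl : IsClosed {t : ℝ | f1 (p + t * q) (q - t * p) ≤ 0} :=
        isClosed_le hc1 continuous_const
      have hsub : Iio (0 : ℝ) ⊆ {t : ℝ | f1 (p + t * q) (q - t * p) ≤ 0} := by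
        intro t ht
        have := hsign t
        exact nonpos_of_mul_nonneg_right this ht
      have : (0 : ℝ) ∈ {t : ℝ | f1 (p + t * q) (q - t * p) ≤ 0} := by
        apply hcl.closure_subset_iff.2 hsub
        rw [closure_Iio]
        exact mem_Iic.2 le_rfl
      simpa using this
    · have hcl : IsClosed {t : ℝ | 0 ≤ f1 (p + t * q) (q - t * p)} :=
        isClosed_le continuous_const hc1
      have hsub : Ioi (0 : ℝ) ⊆ {t : ℝ | 0 ≤ f1 (p + t * q) (q - t * p)} := by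
        intro t ht
        have := hsign t
        exact nonneg_of_mul_nonneg_right this ht
      have : (0 : ℝ) ∈ {t : ℝ | 0 ≤ f1 (p + t * q) (q - t * p)} := by
        apply hcl.closure_subset_iff.2 hsub
        rw [closure_Ioi]
        exact mem_Ici.2 le_rfl
      simpa using this
  obtain ⟨g, hg, h3⟩ := hf1.div hp h2
  have h4 : ∀ y z, f y z = (q * y - p * z) ^ 2 * g y z := fun y z => by rw [h1, h3]; ring
  refine ⟨g, hg, h4, extend_nonneg hg.continuous hp fun y z hl => ?_⟩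
  have h5 := hn y z
  rw [h4] at h5
  exact nonneg_of_mul_nonneg_right h5 (by positivity)

/-- Lower bound for positive forms. -/
theorem BF.pos_lower {n : ℕ} {f : ℝ → ℝ → ℝ} (hf : BF (2 * n) f)
    (hpos : ∀ y z, y ^ 2 + z ^ 2 ≠ 0 → 0 < f y z) :
    ∃ δ > 0, ∀ y z, δ * (y ^ 2 + z ^ 2) ^ n ≤ f y z := by
  have hK : IsCompact {p : ℝ × ℝ | p.1 ^ 2 + p.2 ^ 2 = 1} := by
    apply Metric.isCompact_of_isClosed_isBounded
    · exact isClosed_eq (by fun_prop) continuous_const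
    · refine (Metric.isBounded_closedBall (x := (0 : ℝ × ℝ)) (r := 1)).subset ?_
      intro p hp
      have hp' : p.1 ^ 2 + p.2 ^ 2 = 1 := hp
      rw [mem_closedBall_zero_iff, Prod.norm_def, sup_le_iff, Real.norm_eq_abs, Real.norm_eq_abs]
      constructor
      · rw [← sq_le_one_iff_abs_le_one]; nlinarith [sq_nonneg p.2]
      · rw [← sq_le_one_iff_abs_le_one]; nlinarith [sq_nonneg p.1]
  have hne : {p : ℝ × ℝ | p.1 ^ 2 + p.2 ^ 2 = 1}.Nonempty := ⟨(1, 0), by norm_num⟩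
  obtain ⟨p, hp, hmin⟩ := hK.exists_isMinOn hne hf.continuous.continuousOn
  have hp' : p.1 ^ 2 + p.2 ^ 2 = 1 := hp
  refine ⟨f p.1 p.2, hpos _ _ (by rw [hp']; norm_num), fun y z => ?_⟩
  by_cases h0 : y ^ 2 + z ^ 2 = 0
  · have hy : y = 0 := by nlinarith [sq_nonneg y, sq_nonneg z]
    have hz : z = 0 := by nlinarith [sq_nonneg y, sq_nonneg z]
    subst hy hz
    rcases Nat.eq_zero_or_pos n with rfl | hn
    · obtain ⟨c, rfl⟩ := hf
      simp
    · have := hf.hom 0 0 0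
      simp only [mul_zero] at this
      rw [this]
      simp [hn.ne']
  · have hr : 0 < y ^ 2 + z ^ 2 := lt_of_le_of_ne (by positivity) (Ne.symm h0)
    set s := √(y ^ 2 + z ^ 2) with hs
    have hs0 : 0 < s := Real.sqrt_pos.2 hr
    have hs2 : s ^ 2 = y ^ 2 + z ^ 2 := Real.sq_sqrt hr.le
    have h1 : f y z = s ^ (2 * n) * f (y / s) (z / s) := by
      rw [← hf.hom s (y / s) (z / s)]
      congr 1 <;> field_simp
    have h2 : f p.1 p.2 ≤ f (y / s) (z / s) := by
      have hm : ((y / s, z / s) : ℝ × ℝ) ∈ {p : ℝ × ℝ | p.1 ^ 2 + p.2 ^ 2 = 1} := by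
        show (y / s) ^ 2 + (z / s) ^ 2 = 1
        rw [div_pow, div_pow, hs2, ← add_div, div_self h0]
      exact hmin hm
    rw [h1, pow_mul, hs2]
    have : 0 ≤ (y ^ 2 + z ^ 2) ^ n := by positivity
    nlinarith

/-- Upper bound. -/
theorem BF.upper {n : ℕ} {f : ℝ → ℝ → ℝ} (hf : BF (2 * n) f) :
    ∃ C > 0, ∀ y z, f y z ≤ C * (y ^ 2 + z ^ 2) ^ n := by
  have hK : IsCompact {p : ℝ × ℝ | p.1 ^ 2 + p.2 ^ 2 = 1} := by
    apply Metric.isCompact_of_isClosed_isBounded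
    · exact isClosed_eq (by fun_prop) continuous_const
    · refine (Metric.isBounded_closedBall (x := (0 : ℝ × ℝ)) (r := 1)).subset ?_
      intro p hp
      have hp' : p.1 ^ 2 + p.2 ^ 2 = 1 := hp
      rw [mem_closedBall_zero_iff, Prod.norm_def, sup_le_iff, Real.norm_eq_abs, Real.norm_eq_abs]
      constructor
      · rw [← sq_le_one_iff_abs_le_one]; nlinarith [sq_nonneg p.2]
      · rw [← sq_le_one_iff_abs_le_one]; nlinarith [sq_nonneg p.1]
  have hne : {p : ℝ × ℝ | p.1 ^ 2 + p.2 ^ 2 = 1}.Nonempty := ⟨(1, 0), by norm_num⟩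
  obtain ⟨p, hp, hmax⟩ := hK.exists_isMaxOn hne hf.continuous.continuousOn
  refine ⟨|f p.1 p.2| + 1, by positivity, fun y z => ?_⟩
  by_cases h0 : y ^ 2 + z ^ 2 = 0
  · have hy : y = 0 := by nlinarith [sq_nonneg y, sq_nonneg z]
    have hz : z = 0 := by nlinarith [sq_nonneg y, sq_nonneg z]
    subst hy hz
    rcases Nat.eq_zero_or_pos n with rfl | hn
    · obtain ⟨c, rfl⟩ := hf
      simp only [pow_zero, mul_one]
      have := le_abs_self c
      linarith
    · have := hf.hom 0 0 0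
      simp only [mul_zero] at this
      rw [this]
      simp [hn.ne']
  · have hr : 0 < y ^ 2 + z ^ 2 := lt_of_le_of_ne (by positivity) (Ne.symm h0)
    set s := √(y ^ 2 + z ^ 2) with hs
    have hs0 : 0 < s := Real.sqrt_pos.2 hr
    have hs2 : s ^ 2 = y ^ 2 + z ^ 2 := Real.sq_sqrt hr.le
    have h1 : f y z = s ^ (2 * n) * f (y / s) (z / s) := by
      rw [← hf.hom s (y / s) (z / s)]
      congr 1 <;> field_simp
    have h2 : f (y / s) (z / s) ≤ f p.1 p.2 := by
      have hm : ((y / s, z / s) : ℝ × ℝ) ∈ {p : ℝ × ℝ | p.1 ^ 2 + p.2 ^ 2 = 1} := by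
        show (y / s) ^ 2 + (z / s) ^ 2 = 1
        rw [div_pow, div_pow, hs2, ← add_div, div_self h0]
      exact hmax hm
    rw [h1, pow_mul, hs2]
    have h3 : 0 ≤ (y ^ 2 + z ^ 2) ^ n := by positivity
    have h4 := le_abs_self (f p.1 p.2)
    nlinarith

/-- **Structure of nonnegative binary forms.** -/
theorem BF.structure {n : ℕ} {f : ℝ → ℝ → ℝ} (hf : BF (2 * n) f) (hn : ∀ y z, 0 ≤ f y z)
    (hne : ∃ y z, f y z ≠ 0) : ∃ k m : ℕ, k + m = n ∧ ∃ G, BF k G ∧ ∃ P, BF (2 * m) P ∧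
      (∀ y z, f y z = G y z ^ 2 * P y z) ∧ (∀ y z, y ^ 2 + z ^ 2 ≠ 0 → 0 < P y z) ∧
      ∀ (j : ℕ) (c : ℝ → ℝ → ℝ), BF j c → (∃ C : ℝ, ∃ e e' : ℕ, ∀ y z,
        (y ^ 2 + z ^ 2) ^ e' * c y z ^ 2 ≤ C * (y ^ 2 + z ^ 2) ^ e * f y z) → c = (fun _ _ => 0) ∨
          ∃ i : ℕ, j = i + k ∧ ∃ w, BF i w ∧ ∀ y z, c y z = G y z * w y z := by
  induction n generalizing f with
  | zero =>
    obtain ⟨y0, z0, h0⟩ := hne
    obtain ⟨c, rfl⟩ := hf
    refine ⟨0, 0, rfl, fun _ _ => 1, ⟨1, rfl⟩, fun _ _ => c, ⟨c, rfl⟩, fun y z => by ring,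
      fun y z _ => lt_of_le_of_ne (hn 0 0) (Ne.symm h0), fun j c' hc' _ => ?_⟩
    exact Or.inr ⟨j, rfl, c', hc', fun y z => by ring⟩
  | succ n ih =>
    obtain ⟨y0, z0, h0⟩ := hne
    by_cases hz : ∃ p q : ℝ, p ^ 2 + q ^ 2 ≠ 0 ∧ f p q = 0
    · obtain ⟨p, q, hp, hpq⟩ := hz
      obtain ⟨g, hg, h1, h2⟩ := BF.div_sq (n := 2 * n) hf hn hp hpq
      have hne : ∃ y z, g y z ≠ 0 := ⟨y0, z0, fun e => h0 (by rw [h1, e, mul_zero])⟩
      obtain ⟨k, m, hkm, G, hG, P, hP, h3, h4, h5⟩ := ih hg h2 hne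
      refine ⟨k + 1, m, by omega, fun y z => (q * y + -p * z) * G y z, BF.linmul _ _ hG, P, hP,
        fun y z => by rw [h1, h3]; ring, h4, fun j c hc hC => ?_⟩
      obtain ⟨C, e, e', hC⟩ := hC
      by_cases hc0 : c = fun _ _ => 0
      · exact Or.inl hc0
      right
      -- `c` vanishes at `(p, q)`
      have hcp : c p q = 0 := by
        have := hC p q
        rw [hpq, mul_zero] at this
        have hr : 0 < (p ^ 2 + q ^ 2) ^ e' :=
          pow_pos (lt_of_le_of_ne (by positivity) hp.symm) _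
        have h7 : c p q ^ 2 ≤ 0 := by
          by_contra h8
          push Not at h8
          linarith [mul_pos hr h8]
        nlinarith [sq_nonneg (c p q)]
      have hj : j ≠ 0 := by
        rintro rfl
        obtain ⟨c0, rfl⟩ := hc
        apply hc0
        funext y z
        exact hcp
      obtain ⟨j, rfl⟩ : ∃ i, j = i + 1 := ⟨j - 1, by omega⟩
      obtain ⟨c', hc', h6⟩ := hc.div hp hcp
      have hC' : ∀ y z, 0 ≤ C * (y ^ 2 + z ^ 2) ^ e * g y z -
          (y ^ 2 + z ^ 2) ^ e' * c' y z ^ 2 := by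
        apply extend_nonneg _ hp
        · intro y z hl
          have h7 := hC y z
          rw [h6, h1] at h7
          have h8 : 0 ≤ (q * y - p * z) ^ 2 * (C * (y ^ 2 + z ^ 2) ^ e * g y z -
              (y ^ 2 + z ^ 2) ^ e' * c' y z ^ 2) := by
            nlinarith
          exact nonneg_of_mul_nonneg_right h8 (by positivity)
        · have c1 := hg.continuous
          have c2 := hc'.continuous
          fun_prop
      rcases h5 j c' hc' ⟨C, e, e', fun y z => by linarith [hC' y z]⟩ with h9 | ⟨i, hi, w, hw, h9⟩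
      · exfalso
        apply hc0
        funext y z
        rw [h6, h9, mul_zero]
      · exact ⟨i, by omega, w, hw, fun y z => by rw [h6, h9]; ring⟩
    · push Not at hz
      refine ⟨0, n + 1, by omega, fun _ _ => 1, ⟨1, rfl⟩, f, hf, fun y z => by ring,
        fun y z hyz => lt_of_le_of_ne (hn y z) (Ne.symm (hz y z hyz)), fun j c hc _ => ?_⟩
      exact Or.inr ⟨j, rfl, c, hc, fun y z => by ring⟩

theorem BF.sq_bound {n : ℕ} {f : ℝ → ℝ → ℝ} (hf : BF n f) :
    ∃ C ≥ 0, ∀ y z, f y z ^ 2 ≤ C * (y ^ 2 + z ^ 2) ^ n := by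
  induction n generalizing f with
  | zero =>
    obtain ⟨k, rfl⟩ := hf
    exact ⟨k ^ 2, by positivity, fun y z => by simp⟩
  | succ n ih =>
    obtain ⟨g1, hg1, h1, hh1, rfl⟩ := hf
    obtain ⟨A, hA, hA'⟩ := ih hg1
    obtain ⟨B, hB, hB'⟩ := ih hh1
    refine ⟨A + B, by positivity, fun y z => ?_⟩
    have h2 : (y * g1 y z + z * h1 y z) ^ 2 ≤ (y ^ 2 + z ^ 2) * (g1 y z ^ 2 + h1 y z ^ 2) := by
      nlinarith [sq_nonneg (y * h1 y z - z * g1 y z)]
    have h3 : (y ^ 2 + z ^ 2) * (g1 y z ^ 2 + h1 y z ^ 2) ≤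
        (y ^ 2 + z ^ 2) * (A * (y ^ 2 + z ^ 2) ^ n + B * (y ^ 2 + z ^ 2) ^ n) :=
      mul_le_mul_of_nonneg_left (by linarith [hA' y z, hB' y z]) (by positivity)
    calc _ ≤ _ := h2
      _ ≤ _ := h3
      _ = _ := by ring

/-- Cancellation of the factor `y`. -/
theorem BF.cancel_y {m n : ℕ} {f g : ℝ → ℝ → ℝ} (hf : BF m f) (hg : BF n g)
    (h : ∀ y z, y * f y z = y * g y z) : ∀ y z, f y z = g y z := by
  have key : ∀ y z, 0 ≤ -(f y z - g y z) ^ 2 := by
    apply extend_nonneg (p := 0) (q := 1) _ (by norm_num)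
    · intro y z hl
      have hy : y ≠ 0 := by simpa using hl
      rw [mul_left_cancel₀ hy (h y z)]
      simp
    · have c1 := hf.continuous
      have c2 := hg.continuous
      fun_prop
  intro y z
  have := key y z
  nlinarith [sq_nonneg (f y z - g y z)]

end Pool.Agent.Q192.HQ
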