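import Mathlib
import Pool.Agent.Q192.HQ.Bin

/-!
Ternary forms as functions on `Fin 3 → ℝ`.
-/

namespace Pool.Agent.Q192.HQ

open Set

abbrev E := Fin 3 → ℝ

/-- Ternary forms of degree `n`. -/
def TF : ℕ → (E → ℝ) → Prop
  | 0, f => ∃ c : ℝ, f = fun _ => c
  | n + 1, f => ∃ g, TF n g ∧ ∃ h, TF n h ∧ ∃ k, TF n k ∧
      f = fun v => v 0 * g v + v 1 * h v + v 2 * k v

theorem TF.const (c : ℝ) : TF 0 (fun _ => c) := ⟨c, rfl⟩

theorem TF.of_eq {n : ℕ} {f g : E → ℝ} (hf : TF n f) (h : ∀ v, g v = f v) : TF n g := by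
  have : g = f := by funext v; exact h v
  rwa [this]

theorem TF.add {n : ℕ} {f g : E → ℝ} (hf : TF n f) (hg : TF n g) :
    TF n (fun v => f v + g v) := by
  induction n generalizing f g with
  | zero =>
    obtain ⟨c, rfl⟩ := hf
    obtain ⟨d, rfl⟩ := hg
    exact ⟨c + d, rfl⟩
  | succ n ih =>
    obtain ⟨g1, hg1, h1, hh1, k1, hk1, rfl⟩ := hf
    obtain ⟨g2, hg2, h2, hh2, k2, hk2, rfl⟩ := hg
    exact ⟨_, ih hg1 hg2, _, ih hh1 hh2, _, ih hk1 hk2, by funext v; ring⟩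

theorem TF.smul {n : ℕ} {f : E → ℝ} (t : ℝ) (hf : TF n f) : TF n (fun v => t * f v) := by
  induction n generalizing f with
  | zero =>
    obtain ⟨c, rfl⟩ := hf
    exact ⟨t * c, rfl⟩
  | succ n ih =>
    obtain ⟨g1, hg1, h1, hh1, k1, hk1, rfl⟩ := hf
    exact ⟨_, ih hg1, _, ih hh1, _, ih hk1, by funext v; ring⟩

theorem TF.zero (n : ℕ) : TF n (fun _ => 0) := by
  induction n with
  | zero => exact ⟨0, rfl⟩
  | succ n ih => exact ⟨_, ih, _, ih, _, ih, by funext v; ring⟩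

theorem TF.sub {n : ℕ} {f g : E → ℝ} (hf : TF n f) (hg : TF n g) :
    TF n (fun v => f v - g v) := (hf.add (hg.smul (-1))).of_eq fun v => by ring

theorem TF.neg {n : ℕ} {f : E → ℝ} (hf : TF n f) : TF n (fun v => -f v) :=
  (hf.smul (-1)).of_eq fun v => by ring

theorem TF.sum {n : ℕ} {ι : Type} (s : Finset ι) {f : ι → E → ℝ} (hf : ∀ i ∈ s, TF n (f i)) :
    TF n (fun v => ∑ i ∈ s, f i v) := by
  classical
  induction s using Finset.induction_on with
  | empty => exact (TF.zero n).of_eq fun v => by simp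
  | insert a s ha ih =>
    refine ((hf a (by simp)).add (ih fun i hi => hf i (by simp [hi]))).of_eq fun v => ?_
    rw [Finset.sum_insert ha]

theorem TF.cmul {n : ℕ} {f : E → ℝ} (i : Fin 3) (h : TF n f) : TF (n + 1) (fun v => v i * f v) := by
  fin_cases i
  · exact ⟨f, h, _, TF.zero n, _, TF.zero n, by funext v; simp⟩
  · exact ⟨_, TF.zero n, f, h, _, TF.zero n, by funext v; simp⟩
  · exact ⟨_, TF.zero n, _, TF.zero n, f, h, by funext v; simp⟩

theorem TF.coord (i : Fin 3) : TF 1 (fun v => v i) :=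
  ((TF.const 1).cmul i).of_eq fun v => by ring

theorem TF.lin (a b c : ℝ) : TF 1 (fun v => a * v 0 + b * v 1 + c * v 2) :=
  ⟨_, TF.const a, _, TF.const b, _, TF.const c, by funext v; ring⟩

theorem TF.mul {m n : ℕ} {f g : E → ℝ} (hf : TF m f) (hg : TF n g) :
    TF (n + m) (fun v => f v * g v) := by
  induction m generalizing f with
  | zero =>
    obtain ⟨c, rfl⟩ := hf
    exact hg.smul c
  | succ m ih =>
    obtain ⟨g1, hg1, h1, hh1, k1, hk1, rfl⟩ := hf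
    exact ((((ih hg1).cmul 0).add ((ih hh1).cmul 1)).add ((ih hk1).cmul 2)).of_eq fun v => by ring

/-- Linear maps of `E`, by their coordinates. -/
def Lin (φ : E → E) : Prop := ∀ i, TF 1 (fun v => φ v i)

theorem TF.comp {n : ℕ} {f : E → ℝ} (hf : TF n f) {φ : E → E} (hφ : Lin φ) :
    TF n (fun v => f (φ v)) := by
  induction n generalizing f with
  | zero =>
    obtain ⟨k, rfl⟩ := hf
    exact ⟨k, rfl⟩
  | succ n ih =>
    obtain ⟨g1, hg1, h1, hh1, k1, hk1, rfl⟩ := hf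
    exact (((hφ 0).mul (ih hg1)).add ((hφ 1).mul (ih hh1))).add ((hφ 2).mul (ih hk1))

theorem TF.continuous {n : ℕ} {f : E → ℝ} (hf : TF n f) : Continuous f := by
  induction n generalizing f with
  | zero =>
    obtain ⟨k, rfl⟩ := hf
    exact continuous_const
  | succ n ih =>
    obtain ⟨g1, hg1, h1, hh1, k1, hk1, rfl⟩ := hf
    have a := ih hg1
    have b := ih hh1
    have c := ih hk1
    fun_prop

theorem TF.hom {n : ℕ} {f : E → ℝ} (hf : TF n f) (t : ℝ) (v : E) : f (t • v) = t ^ n * f v := by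
  induction n generalizing f with
  | zero =>
    obtain ⟨k, rfl⟩ := hf
    simp
  | succ n ih =>
    obtain ⟨g1, hg1, h1, hh1, k1, hk1, rfl⟩ := hf
    simp only [ih hg1, ih hh1, ih hk1, Pi.smul_apply, smul_eq_mul]
    ring

/-- Restriction to the line at infinity `x = 0`. -/
theorem TF.restr {n : ℕ} {f : E → ℝ} (hf : TF n f) : BF n (fun y z => f ![0, y, z]) := by
  induction n generalizing f with
  | zero =>
    obtain ⟨k, rfl⟩ := hf
    exact ⟨k, rfl⟩
  | succ n ih =>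
    obtain ⟨g1, hg1, h1, hh1, k1, hk1, rfl⟩ := hf
    exact ⟨_, ih hh1, _, ih hk1, by funext y z; simp⟩

theorem TF.split {n : ℕ} {f : E → ℝ} (hf : TF (n + 1) f) :
    ∃ g, TF n g ∧ ∀ v, f v = v 0 * g v + f ![0, v 1, v 2] := by
  induction n generalizing f with
  | zero =>
    obtain ⟨_, ⟨a, rfl⟩, _, ⟨b, rfl⟩, _, ⟨c, rfl⟩, rfl⟩ := hf
    exact ⟨fun _ => a, ⟨a, rfl⟩, fun v => by simp; ring⟩
  | succ n ih =>
    obtain ⟨g1, hg1, h1, hh1, k1, hk1, rfl⟩ := hf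
    obtain ⟨h2, hh2, e2⟩ := ih hh1
    obtain ⟨k2, hk2, e3⟩ := ih hk1
    refine ⟨_, (hg1.add (hh2.cmul 1)).add (hk2.cmul 2), fun v => ?_⟩
    have e4 := e2 v
    have e5 := e3 v
    simp only [Matrix.cons_val_zero, Matrix.cons_val_one, Matrix.cons_val, zero_mul, zero_add]
    rw [e4, e5]
    ring

theorem BF.toTF {n : ℕ} {g : ℝ → ℝ → ℝ} (hg : BF n g) : TF n (fun v => g (v 1) (v 2)) := by
  induction n generalizing g with
  | zero =>
    obtain ⟨k, rfl⟩ := hg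
    exact ⟨k, rfl⟩
  | succ n ih =>
    obtain ⟨g1, hg1, h1, hh1, rfl⟩ := hg
    exact ⟨_, TF.zero n, _, ih hg1, _, ih hh1, by funext v; ring⟩

theorem v_eta (v : E) : ![v 0, v 1, v 2] = v := by
  funext i; fin_cases i <;> rfl

/-- Linear forms. -/
theorem TF.exists_one {f : E → ℝ} (h : TF 1 f) :
    ∃ a b c, ∀ v, f v = a * v 0 + b * v 1 + c * v 2 := by
  obtain ⟨_, ⟨a, rfl⟩, _, ⟨b, rfl⟩, _, ⟨c, rfl⟩, rfl⟩ := h
  exact ⟨a, b, c, fun v => by ring⟩

/-- Quadratic forms. -/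
theorem TF.exists_two {f : E → ℝ} (h : TF 2 f) :
    ∃ (a : ℝ) (m : ℝ → ℝ → ℝ), BF 1 m ∧ ∃ n, BF 2 n ∧
      ∀ v, f v = a * v 0 ^ 2 + v 0 * m (v 1) (v 2) + n (v 1) (v 2) := by
  obtain ⟨g, hg, e⟩ := h.split
  obtain ⟨g1, ⟨a, rfl⟩, e1⟩ := hg.split
  exact ⟨a, _, hg.restr, _, h.restr, fun v => by rw [e v, e1 v]; ring⟩

/-- Cubic forms. -/
theorem TF.exists_three {f : E → ℝ} (h : TF 3 f) :
    ∃ (a : ℝ) (l : ℝ → ℝ → ℝ), BF 1 l ∧ ∃ m, BF 2 m ∧ ∃ n, BF 3 n ∧
      ∀ v, f v = a * v 0 ^ 3 + v 0 ^ 2 * l (v 1) (v 2) + v 0 * m (v 1) (v 2) + n (v 1) (v 2) := by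
  obtain ⟨g, hg, e⟩ := h.split
  obtain ⟨a, l, hl, m, hm, e1⟩ := hg.exists_two
  exact ⟨a, l, hl, m, hm, _, h.restr, fun v => by rw [e v, e1 v]; ring⟩

/-- Quartic forms. -/
theorem TF.exists_four {f : E → ℝ} (h : TF 4 f) :
    ∃ (a : ℝ) (k : ℝ → ℝ → ℝ), BF 1 k ∧ ∃ l, BF 2 l ∧ ∃ m, BF 3 m ∧ ∃ n, BF 4 n ∧
      ∀ v, f v = a * v 0 ^ 4 + v 0 ^ 3 * k (v 1) (v 2) + v 0 ^ 2 * l (v 1) (v 2) +
        v 0 * m (v 1) (v 2) + n (v 1) (v 2) := by
  obtain ⟨g, hg, e⟩ := h.split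
  obtain ⟨a, k, hk, l, hl, m, hm, e1⟩ := hg.exists_three
  exact ⟨a, k, hk, l, hl, m, hm, _, h.restr, fun v => by rw [e v, e1 v]; ring⟩

/-- The square of the Euclidean norm. -/
def N (v : E) : ℝ := v 0 ^ 2 + v 1 ^ 2 + v 2 ^ 2

theorem N_nonneg (v : E) : 0 ≤ N v := by unfold N; positivity

theorem N_eq_zero {v : E} (h : N v = 0) : v = 0 := by
  unfold N at h
  funext i
  have h0 := sq_nonneg (v 0)
  have h1 := sq_nonneg (v 1)
  have h2 := sq_nonneg (v 2)
  fin_cases i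
  · exact pow_eq_zero_iff (two_ne_zero) |>.1 (by nlinarith : (v 0) ^ 2 = 0)
  · exact pow_eq_zero_iff (two_ne_zero) |>.1 (by nlinarith : (v 1) ^ 2 = 0)
  · exact pow_eq_zero_iff (two_ne_zero) |>.1 (by nlinarith : (v 2) ^ 2 = 0)

theorem N_pos {v : E} (h : v ≠ 0) : 0 < N v :=
  lt_of_le_of_ne (N_nonneg v) fun e => h (N_eq_zero e.symm)

theorem N_smul (t : ℝ) (v : E) : N (t • v) = t ^ 2 * N v := by
  simp only [N, Pi.smul_apply, smul_eq_mul]; ring

theorem N_continuous : Continuous N := by unfold N; fun_prop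

/-- A bound for the square of a form. -/
theorem TF.sq_bound {n : ℕ} {f : E → ℝ} (hf : TF n f) :
    ∃ C ≥ 0, ∀ v, f v ^ 2 ≤ C * N v ^ n := by
  induction n generalizing f with
  | zero =>
    obtain ⟨k, rfl⟩ := hf
    exact ⟨k ^ 2, by positivity, fun v => by simp⟩
  | succ n ih =>
    obtain ⟨g1, hg1, h1, hh1, k1, hk1, rfl⟩ := hf
    obtain ⟨A, hA, hA'⟩ := ih hg1
    obtain ⟨B, hB, hB'⟩ := ih hh1
    obtain ⟨C, hC, hC'⟩ := ih hk1
    refine ⟨A + B + C, by positivity, fun v => ?_⟩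
    have h2 : (v 0 * g1 v + v 1 * h1 v + v 2 * k1 v) ^ 2 ≤
        N v * (g1 v ^ 2 + h1 v ^ 2 + k1 v ^ 2) := by
      unfold N
      nlinarith [sq_nonneg (v 0 * h1 v - v 1 * g1 v), sq_nonneg (v 0 * k1 v - v 2 * g1 v),
        sq_nonneg (v 1 * k1 v - v 2 * h1 v)]
    have h3 : N v * (g1 v ^ 2 + h1 v ^ 2 + k1 v ^ 2) ≤
        N v * (A * N v ^ n + B * N v ^ n + C * N v ^ n) :=
      mul_le_mul_of_nonneg_left (by linarith [hA' v, hB' v, hC' v]) (N_nonneg v)
    calc _ ≤ _ := h2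
      _ ≤ _ := h3
      _ = _ := by ring

theorem TF.bound {n : ℕ} {f : E → ℝ} (hf : TF (2 * n) f) :
    ∃ C > 0, ∀ v, |f v| ≤ C * N v ^ n := by
  obtain ⟨C, hC, h⟩ := hf.sq_bound
  refine ⟨√C + 1, by positivity, fun v => ?_⟩
  have h1 : |f v| ^ 2 ≤ (√C * N v ^ n) ^ 2 := by
    rw [sq_abs, mul_pow, Real.sq_sqrt hC]
    refine (h v).trans (le_of_eq ?_)
    ring
  have h2 : 0 ≤ N v ^ n := pow_nonneg (N_nonneg v) n
  have h3 := abs_le_of_sq_le_sq' h1 (by positivity)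
  nlinarith [h3.2]

theorem sphere_compact : IsCompact {v : E | N v = 1} := by
  apply Metric.isCompact_of_isClosed_isBounded
  · exact isClosed_eq N_continuous continuous_const
  · refine (Metric.isBounded_closedBall (x := (0 : E)) (r := 1)).subset ?_
    intro v hv
    have hv' : N v = 1 := hv
    unfold N at hv'
    rw [mem_closedBall_zero_iff, pi_norm_le_iff_of_nonneg zero_le_one]
    intro i
    rw [Real.norm_eq_abs, ← sq_le_one_iff_abs_le_one]
    fin_cases i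
    · show v 0 ^ 2 ≤ 1; nlinarith [sq_nonneg (v 1), sq_nonneg (v 2)]
    · show v 1 ^ 2 ≤ 1; nlinarith [sq_nonneg (v 0), sq_nonneg (v 2)]
    · show v 2 ^ 2 ≤ 1; nlinarith [sq_nonneg (v 1), sq_nonneg (v 0)]

theorem scale_to_sphere {v : E} (hv : v ≠ 0) : ∃ s > 0, ∃ w : E, N w = 1 ∧ v = s • w ∧
    s ^ 2 = N v := by
  have h0 := N_pos hv
  have hs := Real.sqrt_pos.2 h0
  refine ⟨√(N v), hs, (√(N v))⁻¹ • v, ?_, ?_, Real.sq_sqrt h0.le⟩
  · rw [N_smul, inv_pow, Real.sq_sqrt h0.le]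
    exact inv_mul_cancel₀ h0.ne'
  · rw [smul_smul, mul_inv_cancel₀ hs.ne', one_smul]

/-- Positive forms are bounded below. -/
theorem TF.pos_lower {n : ℕ} {f : E → ℝ} (hf : TF (2 * n) f) (hpos : ∀ v, v ≠ 0 → 0 < f v) :
    ∃ δ > 0, ∀ v, δ * N v ^ n ≤ f v := by
  have hne : {v : E | N v = 1}.Nonempty := ⟨![1, 0, 0], by simp [N]⟩
  obtain ⟨p, hp, hmin⟩ := sphere_compact.exists_isMinOn hne hf.continuous.continuousOn
  have hp' : N p = 1 := hp
  have hp0 : p ≠ 0 := by rintro rfl; simp [N] at hp'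
  refine ⟨f p, hpos p hp0, fun v => ?_⟩
  by_cases hv : v = 0
  · subst hv
    rcases Nat.eq_zero_or_pos n with rfl | hn
    · obtain ⟨c, rfl⟩ := hf
      simp
    · have := hf.hom 0 0
      rw [smul_zero] at this
      rw [this]
      simp [N, hn.ne']
  · obtain ⟨s, hs, w, hw, rfl, hs2⟩ := scale_to_sphere hv
    have h1 : f p ≤ f w := hmin (show w ∈ {v : E | N v = 1} from hw)
    rw [hf.hom, N_smul, hw, mul_one, ← pow_mul, mul_comm]
    exact mul_le_mul_of_nonneg_left h1 (by positivity)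

/-- Invertible linear substitutions. -/
structure Sub (φ ψ : E → E) : Prop where
  l : Lin φ
  r : Lin ψ
  lr : ∀ v, φ (ψ v) = v
  rl : ∀ v, ψ (φ v) = v

theorem Sub.symm {φ ψ : E → E} (h : Sub φ ψ) : Sub ψ φ := ⟨h.r, h.l, h.rl, h.lr⟩

/-- Substitutions respecting `e₁`. -/
theorem sub_explicit (α β p q r s : ℝ) (h : p * s - q * r = 1) :
    Sub (fun v => ![v 0 + α * v 1 + β * v 2, p * v 1 + q * v 2, r * v 1 + s * v 2])
      (fun v => ![v 0 - α * (s * v 1 - q * v 2) - β * (-r * v 1 + p * v 2), s * v 1 - q * v 2,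
        -r * v 1 + p * v 2]) := by
  refine ⟨fun i => ?_, fun i => ?_, fun v => ?_, fun v => ?_⟩
  · fin_cases i
    · exact (TF.lin 1 α β).of_eq fun v => by simp
    · exact (TF.lin 0 p q).of_eq fun v => by simp
    · exact (TF.lin 0 r s).of_eq fun v => by simp
  · fin_cases i
    · exact (TF.lin 1 (-α * s + β * r) (α * q - β * p)).of_eq fun v => by simp; ring
    · exact (TF.lin 0 s (-q)).of_eq fun v => by simp; ring
    · exact (TF.lin 0 (-r) p).of_eq fun v => by simp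
  · funext i
    fin_cases i
    · simp
      ring
    · simp only [Fin.mk_one, Matrix.cons_val_one, Matrix.cons_val]
      linear_combination (v 1) * h
    · simp only [Fin.reduceFinMk, Matrix.cons_val_one, Matrix.cons_val]
      linear_combination (v 2) * h
  · funext i
    fin_cases i
    · simp only [Fin.zero_eta, Matrix.cons_val_one, Matrix.cons_val, Matrix.cons_val_zero]
      linear_combination (-α * v 1 - β * v 2) * h
    · simp only [Fin.mk_one, Matrix.cons_val_one, Matrix.cons_val]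
      linear_combination (v 1) * h
    · simp only [Fin.reduceFinMk, Matrix.cons_val_one, Matrix.cons_val]
      linear_combination (v 2) * h

/-- Any nonzero vector can be moved to `e₁`. -/
theorem sub_to_e1 {p : E} (hp : p ≠ 0) : ∃ φ ψ, Sub φ ψ ∧ φ ![1, 0, 0] = p := by
  have h1 : (![1, 0, 0] : E) ≠ 0 := by
    intro h
    have := congrFun h 0
    simp at this
  obtain ⟨A, hA⟩ := SeparatingDual.exists_continuousLinearEquiv_apply_eq (R := ℝ) h1 hp
  have key : ∀ B : E →ₗ[ℝ] E, Lin (fun v => B v) := by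
    intro B i
    refine (TF.lin (B ![1, 0, 0] i) (B ![0, 1, 0] i) (B ![0, 0, 1] i)).of_eq fun v => ?_
    have hv : v = v 0 • ![1, 0, 0] + v 1 • ![0, 1, 0] + v 2 • ![0, 0, 1] := by
      funext j
      fin_cases j <;> simp
    conv_lhs => rw [hv]
    simp only [map_add, map_smul, Pi.add_apply, Pi.smul_apply, smul_eq_mul]
    ring
  exact ⟨fun v => A v, fun v => A.symm v, ⟨key (A : E →ₗ[ℝ] E), key (A.symm : E →ₗ[ℝ] E),
    fun v => A.apply_symm_apply v, fun v => A.symm_apply_apply v⟩, hA⟩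

theorem Lin.zero {φ : E → E} (h : Lin φ) : φ 0 = 0 := by
  funext i
  obtain ⟨a, b, c, e⟩ := (h i).exists_one
  simpa using e 0

theorem Lin.smul {φ : E → E} (h : Lin φ) (t : ℝ) (v : E) : φ (t • v) = t • φ v := by
  funext i
  obtain ⟨a, b, c, e⟩ := (h i).exists_one
  have h1 := e (t • v)
  have h2 := e v
  simp only [Pi.smul_apply, smul_eq_mul] at h1 ⊢
  rw [h1, h2]
  ring

theorem Lin.add {φ : E → E} (h : Lin φ) (u v : E) : φ (u + v) = φ u + φ v := by
  funext i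
  obtain ⟨a, b, c, e⟩ := (h i).exists_one
  have h1 := e (u + v)
  have h2 := e u
  have h3 := e v
  simp only [Pi.add_apply] at h1 ⊢
  rw [h1, h2, h3]
  ring

theorem Lin.N_le {φ : E → E} (h : Lin φ) : ∃ C > 0, ∀ v, N (φ v) ≤ C * N v := by
  obtain ⟨A, hA, hA'⟩ := (h 0).sq_bound
  obtain ⟨B, hB, hB'⟩ := (h 1).sq_bound
  obtain ⟨C, hC, hC'⟩ := (h 2).sq_bound
  refine ⟨A + B + C + 1, by positivity, fun v => ?_⟩
  have h1 := hA' v
  have h2 := hB' v
  have h3 := hC' v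
  have h4 := N_nonneg v
  have h5 : N (φ v) = φ v 0 ^ 2 + φ v 1 ^ 2 + φ v 2 ^ 2 := rfl
  rw [h5]
  nlinarith

end Pool.Agent.Q192.HQ
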