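import Mathlib
import Pool.Agent.Q192.HQ.Ter

/-!
The lemma of Choi and Lam: a nonzero nonnegative ternary quartic dominates the square of a
nonzero quadratic form.
-/

namespace Pool.Agent.Q192.HQ

open Set

theorem lim_nonneg {g : ℝ → ℝ} (hg : Continuous g) (h : ∀ s > 0, 0 ≤ g s) : 0 ≤ g 0 := by
  have hcl : IsClosed {t : ℝ | 0 ≤ g t} := isClosed_le continuous_const hg
  have hsub : Ioi (0 : ℝ) ⊆ {t : ℝ | 0 ≤ g t} := fun t ht => h t ht
  have : (0 : ℝ) ∈ {t : ℝ | 0 ≤ g t} := by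
    apply hcl.closure_subset_iff.2 hsub
    rw [closure_Ioi]
    exact mem_Ici.2 le_rfl
  exact this

theorem cubic_zero {k l m n : ℝ} (h : ∀ x : ℝ, 0 ≤ x ^ 3 * k + x ^ 2 * l + x * m + n) : k = 0 := by
  have h1 : ∀ s : ℝ, s ≠ 0 → 0 ≤ s * (k + s * l + s ^ 2 * m + s ^ 3 * n) := by
    intro s hs
    have h2 := h (1 / s)
    have h3 : s * (k + s * l + s ^ 2 * m + s ^ 3 * n) =
        s ^ 4 * ((1 / s) ^ 3 * k + (1 / s) ^ 2 * l + (1 / s) * m + n) := by
      field_simp
    rw [h3]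
    exact mul_nonneg (by positivity) h2
  apply le_antisymm
  · have h4 := lim_nonneg (g := fun s : ℝ => -(k + (-s) * l + (-s) ^ 2 * m + (-s) ^ 3 * n))
      (by fun_prop) (fun s hs => by
        have h5 := h1 (-s) (by linarith)
        have h6 : 0 ≤ s * -(k + (-s) * l + (-s) ^ 2 * m + (-s) ^ 3 * n) := by linarith
        exact nonneg_of_mul_nonneg_right h6 hs)
    simpa using h4
  · have h4 := lim_nonneg (g := fun s : ℝ => (k + s * l + s ^ 2 * m + s ^ 3 * n))
      (by fun_prop) (fun s hs => nonneg_of_mul_nonneg_right (h1 s hs.ne') hs)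
    simpa using h4

theorem disc {A B H : ℝ} (h : ∀ x : ℝ, 0 ≤ x ^ 2 * A + 2 * x * B + H) :
    0 ≤ A ∧ 0 ≤ H ∧ B ^ 2 ≤ A * H := by
  refine ⟨?_, by simpa using h 0, ?_⟩
  · have h4 := lim_nonneg (g := fun s : ℝ => A + 2 * s * B + s ^ 2 * H)
      (by fun_prop) (fun s hs => by
        have h2 := h (1 / s)
        have h3 : A + 2 * s * B + s ^ 2 * H = s ^ 2 * ((1 / s) ^ 2 * A + 2 * (1 / s) * B + H) := by
          field_simp
        simp only [h3]
        exact mul_nonneg (by positivity) h2)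
    simpa using h4
  · have h2 := discrim_le_zero (a := A) (b := 2 * B) (c := H) (fun x => by
      have := h x
      nlinarith)
    unfold discrim at h2
    nlinarith

/-- `F` dominates the square of a nonzero quadratic form. -/
def HasSq (F : E → ℝ) : Prop := ∃ q, TF 2 q ∧ (∃ v, q v ≠ 0) ∧ ∀ v, q v ^ 2 ≤ F v

theorem HasSq.of_sub {F : E → ℝ} {φ ψ : E → E} (h : Sub φ ψ) (hF : HasSq (fun v => F (φ v))) :
    HasSq F := by
  obtain ⟨q, hq, ⟨v0, h0⟩, hle⟩ := hF
  refine ⟨fun v => q (ψ v), hq.comp h.r, ⟨φ v0, by simpa [h.rl] using h0⟩, fun v => ?_⟩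
  have := hle (ψ v)
  simpa only [h.lr] using this

theorem quad_tf {b : ℝ → ℝ → ℝ} (hb : BF 2 b) (t : ℝ) : TF 2 (fun v => t * b (v 1) (v 2)) :=
  hb.toTF.smul t

theorem sq_shape {a b h : ℝ → ℝ → ℝ} {C δ : ℝ} (hC : 0 < C) (hδ : 0 < δ)
    {F : E → ℝ} (hn : ∀ v, 0 ≤ F v)
    (hF : ∀ v, F v = v 0 ^ 2 * a (v 1) (v 2) + 2 * v 0 * b (v 1) (v 2) + h (v 1) (v 2))
    (m : ℝ → ℝ → ℝ) (hm : BF 1 m) (hm0 : ∃ y z, m y z ≠ 0)
    (ha : ∀ y z, a y z ≤ C * (y ^ 2 + z ^ 2))
    (hm1 : ∀ y z, δ * (y ^ 2 + z ^ 2) * m y z ^ 4 ≤ a y z * h y z - b y z ^ 2) : HasSq F := by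
  refine ⟨_, ((hm.mul hm).toTF).smul √(δ / C), ?_, fun v => ?_⟩
  · obtain ⟨y, z, h0⟩ := hm0
    refine ⟨![0, y, z], ?_⟩
    exact (mul_ne_zero (Real.sqrt_pos.2 (by positivity)).ne' (mul_ne_zero h0 h0) :
      √(δ / C) * (m y z * m y z) ≠ 0)
  · show (√(δ / C) * (m (v 1) (v 2) * m (v 1) (v 2))) ^ 2 ≤ F v
    rw [mul_pow, Real.sq_sqrt (by positivity)]
    set y := v 1
    set z := v 2
    by_cases h0 : y ^ 2 + z ^ 2 = 0
    · have hy : y = 0 := by nlinarith [sq_nonneg y, sq_nonneg z]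
      have hz : z = 0 := by nlinarith [sq_nonneg y, sq_nonneg z]
      have h1 : m y z = 0 := by
        rw [hy, hz]
        simpa using hm.hom 0 0 0
      rw [h1]
      simpa using hn v
    · have hr : 0 < y ^ 2 + z ^ 2 := lt_of_le_of_ne (by positivity) (Ne.symm h0)
      have h2 : a y z * h y z - b y z ^ 2 ≤ a y z * F v := by
        rw [hF]
        nlinarith [sq_nonneg (a y z * v 0 + b y z)]
      have h3 : a y z * F v ≤ C * (y ^ 2 + z ^ 2) * F v :=
        mul_le_mul_of_nonneg_right (ha y z) (hn v)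
      have h4 : (y ^ 2 + z ^ 2) * (δ * m y z ^ 4) ≤ (y ^ 2 + z ^ 2) * (C * F v) := by
        have := hm1 y z
        nlinarith
      have h5 := le_of_mul_le_mul_left h4 hr
      rw [div_mul_eq_mul_div, div_le_iff₀ hC]
      nlinarith

theorem linform_ne {p q : ℝ} (hp : p ^ 2 + q ^ 2 ≠ 0) : ∃ y z : ℝ, q * y - p * z ≠ 0 :=
  ⟨q, -p, by convert hp using 1; ring⟩

theorem BF.linf (p q : ℝ) : BF 1 (fun y z => q * y - p * z) :=
  (BF.lin q (-p)).of_eq fun y z => by ring

theorem BF.sub {n : ℕ} {f g : ℝ → ℝ → ℝ} (hf : BF n f) (hg : BF n g) :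
    BF n (fun y z => f y z - g y z) := (hf.add (hg.smul (-1))).of_eq fun y z => by ring

theorem linf_le (p q y z : ℝ) : (q * y - p * z) ^ 2 ≤ (p ^ 2 + q ^ 2) * (y ^ 2 + z ^ 2) := by
  nlinarith [sq_nonneg (p * y + q * z)]

/-- Binary quartics. -/
theorem hasSq_binary {F : E → ℝ} {h : ℝ → ℝ → ℝ} (hh : BF 4 h) (hF : ∀ v, F v = h (v 1) (v 2))
    (hn : ∀ v, 0 ≤ F v) (hne : ∃ v, F v ≠ 0) : HasSq F := by
  have hn' : ∀ y z, 0 ≤ h y z := fun y z => by simpa [hF] using hn ![0, y, z]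
  by_cases h0 : ∃ p q : ℝ, p ^ 2 + q ^ 2 ≠ 0 ∧ h p q = 0
  · obtain ⟨p, q, hp, hpq⟩ := h0
    obtain ⟨g, hg, e1, hg0⟩ := BF.div_sq hh hn' hp hpq
    by_cases h1 : ∃ p' q' : ℝ, p' ^ 2 + q' ^ 2 ≠ 0 ∧ g p' q' = 0
    · obtain ⟨p', q', hp', hpq'⟩ := h1
      obtain ⟨_, ⟨k, rfl⟩, e2, hk⟩ := BF.div_sq hg hg0 hp' hpq'
      have hk0 : 0 ≤ k := hk 0 0
      have hk1 : k ≠ 0 := by
        rintro rfl
        obtain ⟨v, hv⟩ := hne
        apply hv
        rw [hF, e1, e2]
        simp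
      refine ⟨_, ((BF.linf p q).mul (BF.linf p' q')).toTF.smul √k, ?_, fun v => ?_⟩
      · obtain ⟨v, hv⟩ := hne
        refine ⟨v, ?_⟩
        rw [hF, e1, e2] at hv
        intro h5
        apply hv
        have h6 : √k ≠ 0 := (Real.sqrt_pos.2 (lt_of_le_of_ne hk0 (Ne.symm hk1))).ne'
        simp only [mul_eq_zero, h6, false_or] at h5
        rcases h5 with h5 | h5 <;> rw [h5] <;> ring
      · rw [hF, e1, e2, mul_pow, Real.sq_sqrt hk0]
        apply le_of_eq
        ring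
    · push Not at h1
      obtain ⟨δ, hδ, hlow⟩ := BF.pos_lower (n := 1) hg fun y z hyz =>
        lt_of_le_of_ne (hg0 y z) (Ne.symm (h1 y z hyz))
      set r := p ^ 2 + q ^ 2 with hr
      have hr0 : 0 < r := lt_of_le_of_ne (by positivity) hp.symm
      refine ⟨_, ((BF.linf p q).mul (BF.linf p q)).toTF.smul √(δ / r), ?_, fun v => ?_⟩
      · obtain ⟨y, z, h0⟩ := linform_ne hp
        refine ⟨![0, y, z], ?_⟩
        exact (mul_ne_zero (Real.sqrt_pos.2 (by positivity)).ne' (mul_ne_zero h0 h0) :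
          √(δ / r) * ((q * y - p * z) * (q * y - p * z)) ≠ 0)
      · rw [mul_pow, Real.sq_sqrt (by positivity), hF, e1]
        set y := v 1
        set z := v 2
        have h2 := hlow y z
        have h3 := linf_le p q y z
        rw [pow_one] at h2
        rw [← hr] at h3
        set l := q * y - p * z
        have h4 : δ / r * l ^ 2 ≤ g y z := by
          rw [div_mul_eq_mul_div, div_le_iff₀ hr0]
          nlinarith
        have h5 : 0 ≤ l ^ 2 := sq_nonneg l
        nlinarith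
  · push Not at h0
    obtain ⟨δ, hδ, hlow⟩ := BF.pos_lower (n := 2) hh fun y z hyz =>
      lt_of_le_of_ne (hn' y z) (Ne.symm (h0 y z hyz))
    refine ⟨fun v => √δ * (v 1 ^ 2 + v 2 ^ 2), ?_, ⟨![0, 1, 0], ?_⟩, fun v => ?_⟩
    · exact ((((TF.coord 1).cmul 1).add ((TF.coord 2).cmul 2)).smul √δ).of_eq fun v => by ring
    · simpa using (Real.sqrt_pos.2 hδ).ne'
    · simp only
      rw [mul_pow, Real.sq_sqrt hδ.le, hF]
      exact hlow _ _

/-- The case where the leading coefficient has a zero. -/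
theorem hasSq_case1 {F : E → ℝ} {a b h : ℝ → ℝ → ℝ} (ha : BF 2 a) (hb : BF 3 b) (hh : BF 4 h)
    (hF : ∀ v, F v = v 0 ^ 2 * a (v 1) (v 2) + 2 * v 0 * b (v 1) (v 2) + h (v 1) (v 2))
    (hn : ∀ v, 0 ≤ F v) (hne : ∃ v, F v ≠ 0) {p q : ℝ} (hp : p ^ 2 + q ^ 2 ≠ 0)
    (h0 : a p q = 0) : HasSq F := by
  have hd : ∀ y z, 0 ≤ a y z ∧ 0 ≤ h y z ∧ b y z ^ 2 ≤ a y z * h y z := by
    intro y z
    apply disc
    intro x
    simpa [hF] using hn ![x, y, z]
  obtain ⟨_, ⟨k, rfl⟩, e1, hk⟩ := BF.div_sq ha (fun y z => (hd y z).1) hp h0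
  have hk0 : 0 ≤ k := hk 0 0
  rcases hk0.eq_or_lt with rfl | hkpos
  · have hb0 : ∀ y z, b y z = 0 := by
      intro y z
      have h1 := (hd y z).2.2
      rw [e1] at h1
      have : b y z ^ 2 ≤ 0 := by simpa using h1
      nlinarith [sq_nonneg (b y z)]
    exact hasSq_binary hh (fun v => by rw [hF, e1, hb0]; ring) hn hne
  · have hbp : b p q = 0 := by
      have h1 := (hd p q).2.2
      rw [h0] at h1
      nlinarith [sq_nonneg (b p q)]
    obtain ⟨b1, hb1, e2⟩ := hb.div hp hbp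
    have hext : ∀ y z, 0 ≤ k * h y z - b1 y z ^ 2 := by
      apply extend_nonneg _ hp
      · intro y z hl
        have h1 := (hd y z).2.2
        rw [e1, e2] at h1
        have h2 : 0 ≤ (q * y - p * z) ^ 2 * (k * h y z - b1 y z ^ 2) := by nlinarith
        exact nonneg_of_mul_nonneg_right h2 (by positivity)
      · have c1 := hh.continuous
        have c2 := hb1.continuous
        fun_prop
    have hs : 0 < √k := Real.sqrt_pos.2 hkpos
    have hs2 : √k ^ 2 = k := Real.sq_sqrt hk0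
    refine ⟨fun v => √k * (v 0 * (q * v 1 - p * v 2)) + (1 / √k) * b1 (v 1) (v 2), ?_, ?_,
      fun v => ?_⟩
    · exact (((BF.linf p q).toTF.cmul 0).smul √k).add (hb1.toTF.smul (1 / √k))
    · by_contra hcon
      push Not at hcon
      have h1 := hcon ![1, q, -p]
      have h2 := hcon ![0, q, -p]
      simp only [Matrix.cons_val_one, Matrix.cons_val, Matrix.cons_val_zero] at h1 h2
      have h3 : √k * (p ^ 2 + q ^ 2) = 0 := by linear_combination h1 - h2
      exact mul_ne_zero hs.ne' hp h3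
    · simp only
      rw [hF, e1, e2]
      have h5 := hext (v 1) (v 2)
      set l := q * v 1 - p * v 2
      set B := b1 (v 1) (v 2)
      set H := h (v 1) (v 2)
      have h6 : (√k * (v 0 * l) + 1 / √k * B) ^ 2 =
          k * (v 0 * l) ^ 2 + 2 * v 0 * l * B + B ^ 2 / k := by
        have : (1 / √k) ^ 2 = 1 / k := by rw [div_pow, hs2, one_pow]
        have h7 : √k * (1 / √k) = 1 := by field_simp
        calc (√k * (v 0 * l) + 1 / √k * B) ^ 2 = √k ^ 2 * (v 0 * l) ^ 2 +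
              2 * (√k * (1 / √k)) * (v 0 * l) * B + (1 / √k) ^ 2 * B ^ 2 := by ring
          _ = _ := by rw [hs2, h7, this]; ring
      rw [h6]
      have h8 : B ^ 2 / k ≤ H := by
        rw [div_le_iff₀ hkpos]
        linarith
      nlinarith

/-- The case of two zeros. -/
theorem hasSq_case2 {F : E → ℝ} {a b h : ℝ → ℝ → ℝ} (ha : BF 2 a) (hb : BF 2 b) (hh : BF 2 h)
    {p q : ℝ} (hp : p ^ 2 + q ^ 2 ≠ 0)
    (hF : ∀ v, F v = v 0 ^ 2 * a (v 1) (v 2) + 2 * v 0 * ((q * v 1 - p * v 2) * b (v 1) (v 2)) +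
      (q * v 1 - p * v 2) ^ 2 * h (v 1) (v 2))
    (hn : ∀ v, 0 ≤ F v) (hpos : ∀ y z, y ^ 2 + z ^ 2 ≠ 0 → 0 < a y z) : HasSq F := by
  obtain ⟨C, hC, haC⟩ := BF.upper (n := 1) ha
  simp only [pow_one] at haC
  have hd : ∀ y z, 0 ≤ a y z * h y z - b y z ^ 2 := by
    apply extend_nonneg _ hp
    · intro y z hl
      have h1 := (disc (A := a y z) (B := (q * y - p * z) * b y z)
        (H := (q * y - p * z) ^ 2 * h y z) (fun x => by simpa [hF] using hn ![x, y, z])).2.2
      have h2 : 0 ≤ (q * y - p * z) ^ 2 * (a y z * h y z - b y z ^ 2) := by nlinarith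
      exact nonneg_of_mul_nonneg_right h2 (by positivity)
    · have c1 := hh.continuous
      have c2 := hb.continuous
      have c3 := ha.continuous
      fun_prop
  have hr0 : 0 < p ^ 2 + q ^ 2 := lt_of_le_of_ne (by positivity) hp.symm
  have hD : BF 4 (fun y z => a y z * h y z - b y z ^ 2) :=
    ((ha.mul hh).sub (hb.mul hb)).of_eq fun y z => by ring
  by_cases h0 : ∃ p' q' : ℝ, p' ^ 2 + q' ^ 2 ≠ 0 ∧ a p' q' * h p' q' - b p' q' ^ 2 = 0
  · obtain ⟨p', q', hp', hz⟩ := h0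
    have hapos := hpos p' q' hp'
    set α := b p' q' / a p' q' with hα
    -- shear
    apply HasSq.of_sub (sub_explicit (-α * q) (α * p) 1 0 0 1 (by ring))
    set b2 : ℝ → ℝ → ℝ := fun y z => b y z - α * a y z with hb2
    set h2 : ℝ → ℝ → ℝ := fun y z => h y z - 2 * α * b y z + α ^ 2 * a y z with hh2
    have hb2' : BF 2 b2 := hb.sub (ha.smul α)
    have hh2' : BF 2 h2 := (((hh.sub (hb.smul (2 * α))).add (ha.smul (α ^ 2)))).of_eq
      fun y z => by simp only [hh2]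
    have eF : ∀ v : E, F ![v 0 + (-α * q) * v 1 + (α * p) * v 2, 1 * v 1 + 0 * v 2,
        0 * v 1 + 1 * v 2] = v 0 ^ 2 * a (v 1) (v 2) +
        2 * v 0 * ((q * v 1 - p * v 2) * b2 (v 1) (v 2)) +
          (q * v 1 - p * v 2) ^ 2 * h2 (v 1) (v 2) := by
      intro v
      rw [hF]
      simp only [Matrix.cons_val_one, Matrix.cons_val, Matrix.cons_val_zero, one_mul, zero_mul,
        add_zero, zero_add, hb2, hh2]
      ring
    have hn2 : ∀ v : E, 0 ≤ v 0 ^ 2 * a (v 1) (v 2) +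
        2 * v 0 * ((q * v 1 - p * v 2) * b2 (v 1) (v 2)) +
          (q * v 1 - p * v 2) ^ 2 * h2 (v 1) (v 2) := by
      intro v
      rw [← eF]
      exact hn _
    have hb20 : b2 p' q' = 0 := by
      simp only [hb2, hα]
      field_simp
      ring
    have hh20 : h2 p' q' = 0 := by
      simp only [hh2, hα]
      field_simp
      linear_combination hz
    have hd2 : ∀ y z, b2 y z ^ 2 ≤ a y z * h2 y z := by
      intro y z
      have := hd y z
      simp only [hb2, hh2]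
      nlinarith
    have hh2n : ∀ y z, 0 ≤ h2 y z := by
      apply extend_nonneg hh2'.continuous hp
      intro y z hl
      have h1 := hn2 ![0, y, z]
      simp only [Matrix.cons_val_one, Matrix.cons_val, Matrix.cons_val_zero] at h1
      have h3 : 0 ≤ (q * y - p * z) ^ 2 * h2 y z := by linarith
      exact nonneg_of_mul_nonneg_right h3 (by positivity)
    obtain ⟨b1, hb1, e1⟩ := hb2'.div hp' hb20
    obtain ⟨_, ⟨k, rfl⟩, e2, hk⟩ := BF.div_sq hh2' hh2n hp' hh20
    have hk0 : 0 ≤ k := hk 0 0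
    rcases hk0.eq_or_lt with rfl | hkpos
    · have hb0 : ∀ y z, b2 y z = 0 := by
        intro y z
        have h1 := hd2 y z
        rw [e2] at h1
        have : b2 y z ^ 2 ≤ 0 := by simpa using h1
        nlinarith [sq_nonneg (b2 y z)]
      obtain ⟨δ, hδ, hlow⟩ := BF.pos_lower (n := 1) ha hpos
      refine ⟨fun v => √δ * (v 0 * v 1), ((TF.coord 1).cmul 0).smul √δ, ⟨![1, 1, 0], ?_⟩,
        fun v => ?_⟩
      · simpa using (Real.sqrt_pos.2 hδ).ne'
      · simp only
        rw [eF, hb0, e2, mul_pow, Real.sq_sqrt hδ.le]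
        have := hlow (v 1) (v 2)
        rw [pow_one] at this
        have h3 : 0 ≤ v 0 ^ 2 := sq_nonneg _
        have h4 : δ * v 1 ^ 2 ≤ a (v 1) (v 2) := by nlinarith [sq_nonneg (v 2)]
        nlinarith
    · have hext : ∀ y z, 0 ≤ a y z * k - b1 y z ^ 2 := by
        apply extend_nonneg _ hp'
        · intro y z hl
          have h1 := hd2 y z
          rw [e1, e2] at h1
          have h2 : 0 ≤ (q' * y - p' * z) ^ 2 * (a y z * k - b1 y z ^ 2) := by nlinarith
          exact nonneg_of_mul_nonneg_right h2 (by positivity)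
        · have c1 := ha.continuous
          have c2 := hb1.continuous
          fun_prop
      have hs : 0 < √k := Real.sqrt_pos.2 hkpos
      have hs2 : √k ^ 2 = k := Real.sq_sqrt hk0
      refine ⟨fun v => √k * ((q * v 1 - p * v 2) * (q' * v 1 - p' * v 2)) +
        (1 / √k) * (v 0 * b1 (v 1) (v 2)), ?_, ?_, fun v => ?_⟩
      · exact (((BF.linf p q).mul (BF.linf p' q')).toTF.smul √k).add ((hb1.toTF.cmul 0).smul _)
      · by_contra hcon
        push Not at hcon
        have h1 := hcon ![0, q, -p]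
        have h2 := hcon ![0, q + q', -p - p']
        simp only [Matrix.cons_val_one, Matrix.cons_val, Matrix.cons_val_zero, zero_mul, mul_zero,
          add_zero] at h1 h2
        have h3 : q' * q - p' * -p = 0 := by
          rcases mul_eq_zero.1 h1 with h | h
          · exact absurd h hs.ne'
          · rcases mul_eq_zero.1 h with h | h
            · exact absurd (by linear_combination h : p ^ 2 + q ^ 2 = 0) hp
            · exact h
        rcases mul_eq_zero.1 h2 with h | h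
        · exact absurd h hs.ne'
        · rcases mul_eq_zero.1 h with h | h
          · exact absurd (by linear_combination h - h3 : p ^ 2 + q ^ 2 = 0) hp
          · exact absurd (by linear_combination h - h3 : p' ^ 2 + q' ^ 2 = 0) hp'
      · simp only
        rw [eF, e1, e2]
        have h5 := hext (v 1) (v 2)
        set l := q * v 1 - p * v 2
        set l' := q' * v 1 - p' * v 2
        set B := b1 (v 1) (v 2)
        set A := a (v 1) (v 2)
        have h6 : (√k * (l * l') + 1 / √k * (v 0 * B)) ^ 2 =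
            k * (l * l') ^ 2 + 2 * v 0 * l * l' * B + v 0 ^ 2 * (B ^ 2 / k) := by
          have : (1 / √k) ^ 2 = 1 / k := by rw [div_pow, hs2, one_pow]
          have h7 : √k * (1 / √k) = 1 := by field_simp
          calc (√k * (l * l') + 1 / √k * (v 0 * B)) ^ 2 = √k ^ 2 * (l * l') ^ 2 +
                2 * (√k * (1 / √k)) * (l * l') * (v 0 * B) + (1 / √k) ^ 2 * (v 0 * B) ^ 2 := by ring
            _ = _ := by rw [hs2, h7, this]; ring
        rw [h6]
        have h8 : B ^ 2 / k ≤ A := by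
          rw [div_le_iff₀ hkpos]
          linarith
        have h9 : 0 ≤ v 0 ^ 2 := sq_nonneg _
        nlinarith
  · push Not at h0
    obtain ⟨δ, hδ, hlow⟩ := BF.pos_lower (n := 2) hD fun y z hyz =>
      lt_of_le_of_ne (hd y z) (Ne.symm (h0 y z hyz))
    refine sq_shape (b := fun y z => (q * y - p * z) * b y z)
      (h := fun y z => (q * y - p * z) ^ 2 * h y z) hC (div_pos hδ hr0) hn hF
      (fun y z => q * y - p * z) (BF.linf p q) (linform_ne hp) haC fun y z => ?_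
    have h2 := hlow y z
    have h3 := linf_le p q y z
    set l := q * y - p * z
    set r := p ^ 2 + q ^ 2
    set R := y ^ 2 + z ^ 2
    have hR : 0 ≤ R := by positivity
    have h4 : 0 ≤ l ^ 2 := sq_nonneg l
    have h5 : δ / r * l ^ 2 ≤ δ * R := by
      rw [div_mul_eq_mul_div, div_le_iff₀ hr0]
      nlinarith
    have h6 : δ / r * R * l ^ 4 ≤ l ^ 2 * (δ * R ^ 2) := by
      calc δ / r * R * l ^ 4 = (l ^ 2 * R) * (δ / r * l ^ 2) := by ring
        _ ≤ (l ^ 2 * R) * (δ * R) := mul_le_mul_of_nonneg_left h5 (by positivity)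
        _ = _ := by ring
    nlinarith

theorem BF.at_zero {n : ℕ} {f : ℝ → ℝ → ℝ} (h : BF (n + 1) f) : f 0 0 = 0 := by
  have := h.hom 0 0 0
  simpa using this

/-- Shape of a nonnegative quartic with a zero at `e₁`. -/
theorem shape_e1 {G : E → ℝ} (hG : TF 4 G) (hn : ∀ v, 0 ≤ G v) (h0 : G ![1, 0, 0] = 0) :
    ∃ a, BF 2 a ∧ ∃ b, BF 3 b ∧ ∃ h, BF 4 h ∧
      ∀ v, G v = v 0 ^ 2 * a (v 1) (v 2) + 2 * v 0 * b (v 1) (v 2) + h (v 1) (v 2) := by
  obtain ⟨c, k, hk, l, hl, m, hm, n, hn', e⟩ := hG.exists_four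
  have hc : c = 0 := by
    have h1 := e ![1, 0, 0]
    rw [h0] at h1
    simp only [Matrix.cons_val_one, Matrix.cons_val, Matrix.cons_val_zero, hk.at_zero, hl.at_zero,
      hm.at_zero, hn'.at_zero] at h1
    linarith
  have hk0 : ∀ y z, k y z = 0 := by
    intro y z
    apply cubic_zero (l := l y z) (m := m y z) (n := n y z)
    intro x
    have h1 := hn ![x, y, z]
    rw [e, hc] at h1
    simpa using h1
  refine ⟨l, hl, _, hm.smul (1 / 2), n, hn', fun v => ?_⟩
  rw [e, hc, hk0]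
  ring

theorem hasSq_e1 {G : E → ℝ} (hG : TF 4 G) (hn : ∀ v, 0 ≤ G v) (hne : ∃ v, G v ≠ 0)
    (h0 : G ![1, 0, 0] = 0) : HasSq G := by
  obtain ⟨a, ha, b, hb, h, hh, e⟩ := shape_e1 hG hn h0
  by_cases h1 : ∃ p q : ℝ, p ^ 2 + q ^ 2 ≠ 0 ∧ a p q = 0
  · obtain ⟨p, q, hp, hpq⟩ := h1
    exact hasSq_case1 ha hb hh e hn hne hp hpq
  push Not at h1
  have hd : ∀ y z, 0 ≤ a y z ∧ 0 ≤ h y z ∧ b y z ^ 2 ≤ a y z * h y z := by
    intro y z
    apply disc
    intro x
    simpa [e] using hn ![x, y, z]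
  have hpos : ∀ y z, y ^ 2 + z ^ 2 ≠ 0 → 0 < a y z := fun y z hyz =>
    lt_of_le_of_ne (hd y z).1 (Ne.symm (h1 y z hyz))
  have hD : BF 6 (fun y z => a y z * h y z - b y z ^ 2) :=
    ((ha.mul hh).sub (hb.mul hb)).of_eq fun y z => by ring
  by_cases h2 : ∃ p q : ℝ, p ^ 2 + q ^ 2 ≠ 0 ∧ a p q * h p q - b p q ^ 2 = 0
  · obtain ⟨p, q, hp, hz⟩ := h2
    set r := p ^ 2 + q ^ 2 with hr
    have hap := hpos p q hp
    set α := -(b p q / a p q) with hα
    apply HasSq.of_sub (sub_explicit (α * p / r) (α * q / r) 1 0 0 1 (by ring))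
    have hL : BF 1 (fun y z => α * p / r * y + α * q / r * z) := BF.lin _ _
    set L : ℝ → ℝ → ℝ := fun y z => α * p / r * y + α * q / r * z with hLdef
    have hLp : L p q = α := by
      simp only [hLdef]
      field_simp
      rw [hr]
    have hb2 : BF 3 (fun y z => b y z + L y z * a y z) := hb.add (hL.mul ha)
    have hh2 : BF 4 (fun y z => h y z + 2 * (L y z * b y z) + L y z * (L y z * a y z)) :=
      (hh.add ((hL.mul hb).smul 2)).add (hL.mul (hL.mul ha))
    have eF : ∀ v : E, G ![v 0 + (α * p / r) * v 1 + (α * q / r) * v 2, 1 * v 1 + 0 * v 2,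
        0 * v 1 + 1 * v 2] = v 0 ^ 2 * a (v 1) (v 2) +
        2 * v 0 * (b (v 1) (v 2) + L (v 1) (v 2) * a (v 1) (v 2)) +
          (h (v 1) (v 2) + 2 * (L (v 1) (v 2) * b (v 1) (v 2)) +
            L (v 1) (v 2) * (L (v 1) (v 2) * a (v 1) (v 2))) := by
      intro v
      rw [e]
      simp only [Matrix.cons_val_one, Matrix.cons_val, Matrix.cons_val_zero, one_mul, zero_mul,
        add_zero, zero_add, hLdef]
      ring
    have hhn : ∀ y z, 0 ≤ h y z + 2 * (L y z * b y z) + L y z * (L y z * a y z) := by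
      intro y z
      have h3 := eF ![0, y, z]
      simp only [Matrix.cons_val_one, Matrix.cons_val, Matrix.cons_val_zero] at h3
      have h4 := hn ![0 + (α * p / r) * y + (α * q / r) * z, 1 * y + 0 * z, 0 * y + 1 * z]
      rw [h3] at h4
      linarith
    have hb0 : b p q + L p q * a p q = 0 := by
      rw [hLp, hα]
      field_simp
      ring
    have hh0 : h p q + 2 * (L p q * b p q) + L p q * (L p q * a p q) = 0 := by
      rw [hLp, hα]
      field_simp
      linear_combination hz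
    obtain ⟨b', hb', e1⟩ := BF.div hb2 hp hb0
    obtain ⟨h', hh', e2, -⟩ := BF.div_sq hh2 hhn hp hh0
    refine hasSq_case2 ha hb' hh' hp (fun v => ?_) (fun v => hn _) hpos
    rw [eF, e1, e2]
  · push Not at h2
    obtain ⟨δ, hδ, hlow⟩ := BF.pos_lower (n := 3) hD fun y z hyz =>
      lt_of_le_of_ne (by linarith [(hd y z).2.2]) (Ne.symm (h2 y z hyz))
    obtain ⟨C, hC, haC⟩ := BF.upper (n := 1) ha
    simp only [pow_one] at haC
    refine sq_shape hC hδ hn e (fun y z => 1 * y + 0 * z) (BF.lin 1 0) ⟨1, 0, by norm_num⟩ haC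
      fun y z => ?_
    refine le_trans ?_ (hlow y z)
    have h3 : (1 * y + 0 * z) ^ 4 ≤ (y ^ 2 + z ^ 2) ^ 2 := by
      nlinarith [sq_nonneg y, sq_nonneg z, mul_nonneg (sq_nonneg y) (sq_nonneg z),
        sq_nonneg (z ^ 2)]
    have h4 : 0 ≤ δ * (y ^ 2 + z ^ 2) := by positivity
    calc δ * (y ^ 2 + z ^ 2) * (1 * y + 0 * z) ^ 4 ≤ δ * (y ^ 2 + z ^ 2) * (y ^ 2 + z ^ 2) ^ 2 :=
          mul_le_mul_of_nonneg_left h3 h4
      _ = _ := by ring

/-- **Choi–Lam.** -/
theorem hasSq {F : E → ℝ} (hF : TF 4 F) (hn : ∀ v, 0 ≤ F v) (hne : ∃ v, F v ≠ 0) : HasSq F := by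
  by_cases hz : ∃ v, v ≠ 0 ∧ F v = 0
  · obtain ⟨w, hw, hw0⟩ := hz
    obtain ⟨φ, ψ, hs, h1⟩ := sub_to_e1 hw
    apply HasSq.of_sub hs
    refine hasSq_e1 (hF.comp hs.l) (fun v => hn _) ?_ (by simp only [h1, hw0])
    obtain ⟨v, hv⟩ := hne
    exact ⟨ψ v, by simpa only [hs.lr] using hv⟩
  · push Not at hz
    obtain ⟨δ, hδ, hlow⟩ := TF.pos_lower (n := 2) hF fun v hv =>
      lt_of_le_of_ne (hn v) (Ne.symm (hz v hv))
    refine ⟨fun v => √δ * N v, ?_, ⟨![1, 0, 0], ?_⟩, fun v => ?_⟩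
    · exact (((((TF.coord 0).cmul 0).add ((TF.coord 1).cmul 1)).add
        ((TF.coord 2).cmul 2)).smul √δ).of_eq fun v => by unfold N; ring
    · simpa [N] using (Real.sqrt_pos.2 hδ).ne'
    · simp only
      rw [mul_pow, Real.sq_sqrt hδ.le]
      exact hlow v

end Pool.Agent.Q192.HQ
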