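import Mathlib
import Pool.Agent.Q192.HQ.CL

/-!
Hilbert's theorem on ternary quartics, by induction on the dimension of the space of quadratic
forms whose square is dominated by a multiple of the quartic.
-/

namespace Pool.Agent.Q192.HQ

open Set

/-- Quadratic forms with square dominated by a multiple of `F`. -/
def V (F : E → ℝ) : Submodule ℝ (E → ℝ) where
  carrier := {q | TF 2 q ∧ ∃ C ≥ 0, ∀ v, q v ^ 2 ≤ C * F v}
  add_mem' := by
    rintro a b ⟨ha, A, hA0, hA⟩ ⟨hb, B, hB0, hB⟩
    refine ⟨ha.add hb, 2 * A + 2 * B, by positivity, fun v => ?_⟩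
    have h1 := hA v
    have h2 := hB v
    simp only [Pi.add_apply]
    nlinarith [sq_nonneg (a v - b v)]
  zero_mem' := ⟨TF.zero 2, 0, le_rfl, fun v => by simp⟩
  smul_mem' := by
    rintro c a ⟨ha, A, hA0, hA⟩
    refine ⟨ha.smul c, c ^ 2 * A, by positivity, fun v => ?_⟩
    have h1 := hA v
    simp only [Pi.smul_apply, smul_eq_mul]
    nlinarith [sq_nonneg c]

theorem mem_V {F q : E → ℝ} : q ∈ V F ↔ TF 2 q ∧ ∃ C ≥ 0, ∀ v, q v ^ 2 ≤ C * F v := Iff.rfl

theorem V_mono {F G : E → ℝ} (h : ∀ v, F v ≤ G v) : V F ≤ V G := by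
  rintro q ⟨hq, C, hC0, hC⟩
  exact ⟨hq, C, hC0, fun v => (hC v).trans (mul_le_mul_of_nonneg_left (h v) hC0)⟩

theorem TF.mem_span {f : E → ℝ} (h : TF 2 f) :
    f ∈ Submodule.span ℝ (range fun p : Fin 3 × Fin 3 => fun v : E => v p.1 * v p.2) := by
  obtain ⟨g, hg, k, hk, l, hl, rfl⟩ := h
  have key : ∀ (i : Fin 3) (g : E → ℝ), TF 1 g → (fun v : E => v i * g v) ∈
      Submodule.span ℝ (range fun p : Fin 3 × Fin 3 => fun v : E => v p.1 * v p.2) := by
    intro i g hg
    obtain ⟨a, b, c, e⟩ := hg.exists_one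
    have : (fun v : E => v i * g v) = a • (fun v : E => v i * v 0) + b • (fun v : E => v i * v 1) +
        c • (fun v : E => v i * v 2) := by
      funext v
      simp only [e, Pi.add_apply, Pi.smul_apply, smul_eq_mul]
      ring
    rw [this]
    refine Submodule.add_mem _ (Submodule.add_mem _ ?_ ?_) ?_
    · exact Submodule.smul_mem _ _ (Submodule.subset_span ⟨(i, 0), rfl⟩)
    · exact Submodule.smul_mem _ _ (Submodule.subset_span ⟨(i, 1), rfl⟩)
    · exact Submodule.smul_mem _ _ (Submodule.subset_span ⟨(i, 2), rfl⟩)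
  have e : (fun v : E => v 0 * g v + v 1 * k v + v 2 * l v) =
      (fun v : E => v 0 * g v) + (fun v : E => v 1 * k v) + (fun v : E => v 2 * l v) := rfl
  rw [e]
  exact Submodule.add_mem _ (Submodule.add_mem _ (key 0 g hg) (key 1 k hk)) (key 2 l hl)

instance V_fin (F : E → ℝ) : FiniteDimensional ℝ (V F) := by
  have h1 : V F ≤ Submodule.span ℝ (range fun p : Fin 3 × Fin 3 => fun v : E => v p.1 * v p.2) :=
    fun q hq => TF.mem_span hq.1
  have h2 : FiniteDimensional ℝ
      (Submodule.span ℝ (range fun p : Fin 3 × Fin 3 => fun v : E => v p.1 * v p.2)) :=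
    FiniteDimensional.span_of_finite ℝ (finite_range _)
  exact Submodule.finiteDimensional_of_le h1

/-- Sums of squares of quadratic forms. -/
def SQ (F : E → ℝ) : Prop :=
  ∃ (r : ℕ) (q : Fin r → E → ℝ), (∀ j, TF 2 (q j)) ∧ ∀ v, F v = ∑ j, q j v ^ 2

/-- **Hilbert 1888.** -/
theorem hilbert {F : E → ℝ} (hF : TF 4 F) (hn : ∀ v, 0 ≤ F v) : SQ F := by
  induction hd : Module.finrank ℝ (V F) using Nat.strong_induction_on generalizing F with
  | _ d ih =>
  by_cases h0 : ∃ v, F v ≠ 0
  · obtain ⟨q, hq, ⟨v0, hv0⟩, hle⟩ := hasSq hF hn h0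
    -- the maximal multiple
    set S : Set ℝ := {t | ∀ v, t * q v ^ 2 ≤ F v} with hS
    have hq0 : 0 < q v0 ^ 2 := by positivity
    have hbdd : BddAbove S := ⟨F v0 / q v0 ^ 2, fun t ht => by
      rw [le_div_iff₀ hq0]
      exact ht v0⟩
    have h1S : (1 : ℝ) ∈ S := fun v => by rw [one_mul]; exact hle v
    have hcl : IsClosed S := by
      have : S = ⋂ v, {t : ℝ | t * q v ^ 2 ≤ F v} := by
        ext t
        simp [hS]
      rw [this]
      exact isClosed_iInter fun v => isClosed_le (by fun_prop) continuous_const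
    set ε := sSup S with hε
    have hεS : ε ∈ S := hcl.csSup_mem ⟨1, h1S⟩ hbdd
    have hε1 : 1 ≤ ε := le_csSup hbdd h1S
    set G : E → ℝ := fun v => F v - ε * q v ^ 2 with hG
    have hGF : TF 4 G := (hF.sub ((hq.mul hq).smul ε)).of_eq fun v => by
      simp only [hG]
      ring
    have hGn : ∀ v, 0 ≤ G v := fun v => sub_nonneg.2 (hεS v)
    have hVle : V G ≤ V F := V_mono fun v => by
      simp only [hG]
      have : 0 ≤ ε * q v ^ 2 := by positivity
      linarith
    have hqF : q ∈ V F := ⟨hq, 1, zero_le_one, fun v => by rw [one_mul]; exact hle v⟩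
    have hqG : q ∉ V G := by
      rintro ⟨-, C, hC0, hC⟩
      have hC1 : 0 < C + 1 := by linarith
      have h2 : ε + 1 / (C + 1) ∈ S := by
        intro v
        have h3 := hC v
        have h4 : q v ^ 2 ≤ (C + 1) * G v := by nlinarith [hGn v]
        have h5 : 1 / (C + 1) * q v ^ 2 ≤ G v := by
          rw [div_mul_eq_mul_div, one_mul, div_le_iff₀ hC1]
          linarith
        simp only [hG] at h5
        linarith
      have h6 := le_csSup hbdd h2
      have : 0 < 1 / (C + 1) := by positivity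
      linarith
    have hlt : V G < V F := lt_of_le_of_ne hVle fun e => hqG (e ▸ hqF)
    obtain ⟨r, p, hp, hsum⟩ := ih _ (hd ▸ Submodule.finrank_lt_finrank_of_lt hlt) hGF hGn rfl
    refine ⟨r + 1, Fin.cons (fun v => √ε * q v) p, fun j => ?_, fun v => ?_⟩
    · refine Fin.cases ?_ (fun i => ?_) j
      · simpa using hq.smul √ε
      · simpa using hp i
    · rw [Fin.sum_univ_succ]
      simp only [Fin.cons_zero, Fin.cons_succ]
      rw [← hsum v, mul_pow, Real.sq_sqrt (by linarith)]
      simp only [hG]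
      ring
  · push Not at h0
    exact ⟨0, Fin.elim0, fun j => j.elim0, fun v => by simp [h0]⟩

/-- The summands belong to `V F`. -/
theorem hilbert_V {F : E → ℝ} (hF : TF 4 F) (hn : ∀ v, 0 ≤ F v) :
    ∃ (r : ℕ) (q : Fin r → E → ℝ), (∀ j, q j ∈ V F) ∧ ∀ v, F v = ∑ j, q j v ^ 2 := by
  obtain ⟨r, q, hq, hs⟩ := hilbert hF hn
  refine ⟨r, q, fun j => ⟨hq j, 1, zero_le_one, fun v => ?_⟩, hs⟩
  rw [one_mul, hs]
  exact Finset.single_le_sum (f := fun i => q i v ^ 2) (fun i _ => sq_nonneg _)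
    (Finset.mem_univ j)

end Pool.Agent.Q192.HQ
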