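import Mathlib
import Pool.Agent.Q192.HQ.Hil

/-!
Cubic forms `c` with `c² ≤ C |x|² F` belong to `V F · R₁` when `F` depends on all variables.
-/

namespace Pool.Agent.Q192.HQ

open Set

/-- Cubic forms with `c² ≤ C |x|² F`. -/
def T (F : E → ℝ) (c : E → ℝ) : Prop := TF 3 c ∧ ∃ C ≥ 0, ∀ v, c v ^ 2 ≤ C * (N v * F v)

/-- Sums of products of an element of `V F` and a linear form. -/
def VR (F : E → ℝ) : Submodule ℝ (E → ℝ) :=
  Submodule.span ℝ {g | ∃ q ∈ V F, ∃ l, TF 1 l ∧ g = fun v => q v * l v}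

theorem VR.mk {F q l : E → ℝ} (hq : q ∈ V F) (hl : TF 1 l) : (fun v => q v * l v) ∈ VR F :=
  Submodule.subset_span ⟨q, hq, l, hl, rfl⟩

theorem VR.add {F f g : E → ℝ} (hf : f ∈ VR F) (hg : g ∈ VR F) : (fun v => f v + g v) ∈ VR F :=
  (VR F).add_mem hf hg

theorem VR.of_eq {F f g : E → ℝ} (hf : f ∈ VR F) (h : ∀ v, g v = f v) : g ∈ VR F := by
  have : g = f := by funext v; exact h v
  rwa [this]

theorem VR.zero {F f : E → ℝ} (h : ∀ v, f v = 0) : f ∈ VR F := by
  have : f = 0 := by funext v; exact h v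
  rw [this]
  exact (VR F).zero_mem

theorem T.sub {F c d : E → ℝ} (hc : T F c) (hd : T F d) :
    T F (fun v => c v - d v) := by
  obtain ⟨hc, A, hA0, hA⟩ := hc
  obtain ⟨hd, B, hB0, hB⟩ := hd
  refine ⟨hc.sub hd, 2 * A + 2 * B, by positivity, fun v => ?_⟩
  have h1 := hA v
  have h2 := hB v
  nlinarith [sq_nonneg (c v + d v)]

theorem T.of_eq {F c d : E → ℝ} (hc : T F c) (h : ∀ v, d v = c v) : T F d := by
  have : d = c := by funext v; exact h v
  rwa [this]

theorem T.of_mul {F q l : E → ℝ} (hF : ∀ v, 0 ≤ F v) (hq : q ∈ V F) (hl : TF 1 l) :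
    T F (fun v => q v * l v) := by
  obtain ⟨hq, C, hC0, hC⟩ := hq
  obtain ⟨D, hD0, hD⟩ := hl.sq_bound
  refine ⟨(hl.mul hq).of_eq fun v => by ring, C * D, by positivity, fun v => ?_⟩
  have h1 := hC v
  have h2 := hD v
  rw [pow_one] at h2
  have h3 : 0 ≤ C * F v := mul_nonneg hC0 (hF v)
  calc (q v * l v) ^ 2 = q v ^ 2 * l v ^ 2 := by ring
    _ ≤ (C * F v) * (D * N v) := mul_le_mul h1 h2 (sq_nonneg _) h3
    _ = _ := by ring

/-- `F` does not depend on all variables. -/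
def Deg (F : E → ℝ) : Prop := ∃ b : E, b ≠ 0 ∧ ∀ (v : E) (t : ℝ), F (v + t • b) = F v

def Claim (F : E → ℝ) : Prop := ∀ c, T F c → c ∈ VR F

theorem V_comp {F q : E → ℝ} {φ ψ : E → E} (h : Sub φ ψ) (hq : q ∈ V (fun v => F (φ v))) :
    (fun v => q (ψ v)) ∈ V F := by
  obtain ⟨hq, C, hC0, hC⟩ := hq
  refine ⟨hq.comp h.r, C, hC0, fun v => ?_⟩
  have := hC (ψ v)
  simpa only [h.lr] using this

theorem V_comp' {F q : E → ℝ} {φ ψ : E → E} (h : Sub φ ψ) (hq : q ∈ V F) :
    (fun v => q (φ v)) ∈ V (fun v => F (φ v)) := by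
  obtain ⟨hq, C, hC0, hC⟩ := hq
  exact ⟨hq.comp h.l, C, hC0, fun v => hC (φ v)⟩

theorem Claim.of_sub {F : E → ℝ} (hF : ∀ v, 0 ≤ F v) {φ ψ : E → E} (h : Sub φ ψ)
    (hc : Claim (fun v => F (φ v))) : Claim F := by
  rintro c ⟨h3, C, hC0, hC⟩
  obtain ⟨D, hD0, hD⟩ := h.l.N_le
  have h1 : T (fun v => F (φ v)) (fun v => c (φ v)) := by
    refine ⟨h3.comp h.l, C * D, by positivity, fun v => (hC _).trans ?_⟩
    rw [mul_assoc]
    apply mul_le_mul_of_nonneg_left _ hC0
    calc N (φ v) * F (φ v) ≤ (D * N v) * F (φ v) := mul_le_mul_of_nonneg_right (hD v) (hF _)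
      _ = _ := by ring
  have h2 := hc _ h1
  have key : ∀ g ∈ VR (fun v => F (φ v)), (fun v => g (ψ v)) ∈ VR F := by
    intro g hg
    refine Submodule.span_induction (p := fun g _ => (fun v => g (ψ v)) ∈ VR F) ?_ ?_ ?_ ?_ hg
    · rintro _ ⟨q, hq, l, hl, rfl⟩
      exact VR.mk (V_comp h hq) (hl.comp h.r)
    · exact VR.zero fun v => rfl
    · intro x y _ _ hx hy
      exact VR.add hx hy
    · intro a x _ hx
      exact (VR F).smul_mem a hx
  exact VR.of_eq (key _ h2) fun v => by simp only [h.lr]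

theorem Deg.of_sub {F : E → ℝ} {φ ψ : E → E} (h : Sub φ ψ) (hd : Deg (fun v => F (φ v))) :
    Deg F := by
  obtain ⟨b, hb, hb'⟩ := hd
  refine ⟨φ b, fun e => hb ?_, fun v t => ?_⟩
  · rw [← h.rl b, e, h.r.zero]
  · have := hb' (ψ v) t
    simpa only [h.l.add, h.l.smul, h.lr] using this

theorem claim_pos {F : E → ℝ} (hF : TF 4 F) (hpos : ∀ v, v ≠ 0 → 0 < F v) : Claim F := by
  obtain ⟨δ, hδ, hlow⟩ := TF.pos_lower (n := 2) hF hpos
  have key : ∀ q, TF 2 q → q ∈ V F := by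
    intro q hq
    obtain ⟨C, hC0, hC⟩ := hq.sq_bound
    refine ⟨hq, C / δ, by positivity, fun v => (hC v).trans ?_⟩
    have h1 := hlow v
    rw [div_mul_eq_mul_div, le_div_iff₀ hδ]
    nlinarith
  rintro _ ⟨⟨g, hg, h, hh, k, hk, rfl⟩, -⟩
  exact VR.of_eq (VR.add (VR.add (VR.mk (key g hg) (TF.coord 0)) (VR.mk (key h hh) (TF.coord 1)))
    (VR.mk (key k hk) (TF.coord 2))) fun v => by ring

theorem T.shape {F c : E → ℝ} (h0 : F ![1, 0, 0] = 0) (hc : T F c) :
    ∃ l, BF 1 l ∧ ∃ m, BF 2 m ∧ ∃ n, BF 3 n ∧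
      ∀ v, c v = v 0 ^ 2 * l (v 1) (v 2) + v 0 * m (v 1) (v 2) + n (v 1) (v 2) := by
  obtain ⟨hc, C, hC0, hC⟩ := hc
  obtain ⟨a, l, hl, m, hm, n, hn, e⟩ := hc.exists_three
  have h1 := hC ![1, 0, 0]
  rw [h0, mul_zero, mul_zero] at h1
  have h2 : c ![1, 0, 0] = 0 := by nlinarith [sq_nonneg (c ![1, 0, 0])]
  have h3 := e ![1, 0, 0]
  rw [h2] at h3
  simp only [Matrix.cons_val_one, Matrix.cons_val, Matrix.cons_val_zero, hl.at_zero, hm.at_zero,
    hn.at_zero] at h3
  have ha : a = 0 := by linarith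
  exact ⟨l, hl, m, hm, n, hn, fun v => by rw [e, ha]; ring⟩

theorem V_shape {F q : E → ℝ} (h0 : F ![1, 0, 0] = 0) (hq : q ∈ V F) :
    ∃ α β n, BF 2 n ∧ ∀ v, q v = v 0 * (α * v 1 + β * v 2) + n (v 1) (v 2) := by
  obtain ⟨hc, C, hC0, hC⟩ := hq
  obtain ⟨a, m, hm, n, hn, e⟩ := hc.exists_two
  obtain ⟨α, β, em⟩ := hm.exists_one
  have h1 := hC ![1, 0, 0]
  rw [h0, mul_zero] at h1
  have h2 : q ![1, 0, 0] = 0 := by nlinarith [sq_nonneg (q ![1, 0, 0])]
  have h3 := e ![1, 0, 0]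
  rw [h2] at h3
  simp only [Matrix.cons_val_one, Matrix.cons_val, Matrix.cons_val_zero, hm.at_zero,
    hn.at_zero] at h3
  have ha : a = 0 := by linarith
  exact ⟨α, β, n, hn, fun v => by rw [e, ha, em]; ring⟩

theorem lead {A B H m n C : ℝ} (h : ∀ x : ℝ, (x * m + n) ^ 2 ≤ C * (x ^ 2 * A + 2 * x * B + H)) :
    m ^ 2 ≤ C * A := by
  have := (disc (A := C * A - m ^ 2) (B := C * B - m * n) (H := C * H - n ^ 2) (fun x => by
    have := h x
    nlinarith)).1
  linarith

theorem claim_dim2 {F : E → ℝ} (hF : TF 4 F) (hn : ∀ v, 0 ≤ F v) (h0 : F ![1, 0, 0] = 0)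
    {n1 n2 : ℝ → ℝ → ℝ} (hn1 : BF 2 n1) (hn2 : BF 2 n2)
    (hu1 : (fun v : E => v 0 * v 1 + n1 (v 1) (v 2)) ∈ V F)
    (hu2 : (fun v : E => v 0 * v 2 + n2 (v 1) (v 2)) ∈ V F) : Claim F := by
  obtain ⟨a, ha, b, hb, h, hh, e⟩ := shape_e1 hF hn h0
  have hd : ∀ y z, 0 ≤ a y z ∧ 0 ≤ h y z ∧ b y z ^ 2 ≤ a y z * h y z := by
    intro y z
    apply disc
    intro x
    simpa [e] using hn ![x, y, z]
  set D : ℝ → ℝ → ℝ := fun y z => a y z * h y z - b y z ^ 2 with hDdef
  have hD : BF 6 D := ((ha.mul hh).sub (hb.mul hb)).of_eq fun y z => by simp only [hDdef]; ring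
  have hDn : ∀ y z, 0 ≤ D y z := fun y z => by
    have := (hd y z).2.2
    simp only [hDdef]
    linarith
  have hDa : ∀ v : E, D (v 1) (v 2) ≤ a (v 1) (v 2) * F v := by
    intro v
    rw [e]
    simp only [hDdef]
    nlinarith [sq_nonneg (a (v 1) (v 2) * v 0 + b (v 1) (v 2))]
  -- bounds for `a`
  obtain ⟨C1, hC10, hC1⟩ := hu1.2
  obtain ⟨C2, hC20, hC2⟩ := hu2.2
  have hay : ∀ y z, y ^ 2 + z ^ 2 ≤ (C1 + C2) * a y z := by
    intro y z
    have h1 : y ^ 2 ≤ C1 * a y z := by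
      apply lead (B := b y z) (H := h y z) (n := n1 y z)
      intro x
      have := hC1 ![x, y, z]
      rw [e] at this
      simpa using this
    have h2 : z ^ 2 ≤ C2 * a y z := by
      apply lead (B := b y z) (H := h y z) (n := n2 y z)
      intro x
      have := hC2 ![x, y, z]
      rw [e] at this
      simpa using this
    linarith
  set K := C1 + C2 with hK
  have hK0 : 0 ≤ K := by positivity
  obtain ⟨Ca, hCa, haC⟩ := BF.upper (n := 1) ha
  simp only [pow_one] at haC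
  obtain ⟨Cb, hCb0, hbC⟩ := hb.sq_bound
  -- the value of `F` at the minimising `x`
  have hmin : ∀ y z, 0 < a y z → F ![-(b y z / a y z), y, z] = D y z / a y z := by
    intro y z hpos
    rw [e]
    simp only [Matrix.cons_val_one, Matrix.cons_val, Matrix.cons_val_zero, hDdef]
    field_simp
    ring
  have hapos : ∀ y z, y ^ 2 + z ^ 2 ≠ 0 → 0 < a y z := by
    intro y z hyz
    have h1 := hay y z
    have h2 : 0 < y ^ 2 + z ^ 2 := lt_of_le_of_ne (by positivity) (Ne.symm hyz)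
    rcases ((hd y z).1).eq_or_lt with h3 | h3
    · rw [← h3] at h1
      linarith
    · exact h3
  have hzero : ∀ y z : ℝ, y ^ 2 + z ^ 2 = 0 → y = 0 ∧ z = 0 := fun y z h => by
    constructor <;> nlinarith [sq_nonneg y, sq_nonneg z]
  -- binary cubics in `T F`
  have hT3 : ∀ c3, BF 3 c3 → T F (fun v => c3 (v 1) (v 2)) → ∃ C : ℝ, ∀ y z,
      c3 y z ^ 2 ≤ C * D y z := by
    rintro c3 hc3 ⟨-, C, hC0, hC⟩
    refine ⟨K ^ 3 * (C * (Cb + Ca ^ 2)), fun y z => ?_⟩
    by_cases hyz : y ^ 2 + z ^ 2 = 0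
    · obtain ⟨rfl, rfl⟩ := hzero y z hyz
      rw [hc3.at_zero]
      have := hDn 0 0
      simp only [ne_eq, OfNat.ofNat_ne_zero, not_false_eq_true, zero_pow]
      positivity
    · have hR : 0 < y ^ 2 + z ^ 2 := lt_of_le_of_ne (by positivity) (Ne.symm hyz)
      have hA := hapos y z hyz
      have h1 := hC ![-(b y z / a y z), y, z]
      rw [hmin y z hA] at h1
      simp only [N, Matrix.cons_val_one, Matrix.cons_val, Matrix.cons_val_zero] at h1
      set R := y ^ 2 + z ^ 2 with hRdef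
      set A := a y z
      set B := b y z
      have h2 : c3 y z ^ 2 * A ^ 3 ≤ C * ((B ^ 2 + A ^ 2 * R) * D y z) := by
        have h3 : C * (((-(B / A)) ^ 2 + y ^ 2 + z ^ 2) * (D y z / A)) =
            C * ((B ^ 2 + A ^ 2 * R) * D y z) / A ^ 3 := by
          rw [hRdef]
          field_simp
          ring
        rw [h3, le_div_iff₀ (by positivity)] at h1
        exact h1
      have h4 : R ≤ K * A := hay y z
      have h5 : R ^ 3 ≤ K ^ 3 * A ^ 3 := by
        rw [← mul_pow]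
        exact pow_le_pow_left₀ hR.le h4 3
      have h6 : B ^ 2 ≤ Cb * R ^ 3 := hbC y z
      have h7 : A ^ 2 * R ≤ Ca ^ 2 * R ^ 3 := by
        have := pow_le_pow_left₀ hA.le (haC y z) 2
        calc A ^ 2 * R ≤ (Ca * R) ^ 2 * R := mul_le_mul_of_nonneg_right this hR.le
          _ = _ := by ring
      have h8 : c3 y z ^ 2 * R ^ 3 ≤ (K ^ 3 * (C * (Cb + Ca ^ 2)) * D y z) * R ^ 3 := by
        have hc : 0 ≤ c3 y z ^ 2 := sq_nonneg _
        have hDD := hDn y z
        calc c3 y z ^ 2 * R ^ 3 ≤ c3 y z ^ 2 * (K ^ 3 * A ^ 3) :=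
              mul_le_mul_of_nonneg_left h5 hc
          _ = K ^ 3 * (c3 y z ^ 2 * A ^ 3) := by ring
          _ ≤ K ^ 3 * (C * ((B ^ 2 + A ^ 2 * R) * D y z)) :=
              mul_le_mul_of_nonneg_left h2 (by positivity)
          _ ≤ K ^ 3 * (C * ((Cb * R ^ 3 + Ca ^ 2 * R ^ 3) * D y z)) := by
              apply mul_le_mul_of_nonneg_left _ (by positivity)
              apply mul_le_mul_of_nonneg_left _ hC0
              exact mul_le_mul_of_nonneg_right (by linarith) hDD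
          _ = _ := by ring
      exact le_of_mul_le_mul_right h8 (by positivity)
  -- binary quadratics in `V F`
  have hV2 : ∀ n, BF 2 n → (∃ C ≥ 0, ∀ y z, (y ^ 2 + z ^ 2) * n y z ^ 2 ≤ C * D y z) →
      (fun v : E => n (v 1) (v 2)) ∈ V F := by
    rintro n hn' ⟨C, hC0, hC⟩
    refine ⟨hn'.toTF, C * Ca, by positivity, fun v => ?_⟩
    set y := v 1 with hy
    set z := v 2 with hz
    by_cases hyz : y ^ 2 + z ^ 2 = 0
    · obtain ⟨h1, h2⟩ := hzero y z hyz
      have h3 : n y z = 0 := by rw [h1, h2]; exact hn'.at_zero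
      show n y z ^ 2 ≤ C * Ca * F v
      rw [h3]
      have h4 := hn v
      have h5 : 0 ≤ C * Ca * F v := by positivity
      linarith
    · have hR : 0 < y ^ 2 + z ^ 2 := lt_of_le_of_ne (by positivity) (Ne.symm hyz)
      have h4 : (y ^ 2 + z ^ 2) * n y z ^ 2 ≤ (y ^ 2 + z ^ 2) * (C * Ca * F v) := by
        calc (y ^ 2 + z ^ 2) * n y z ^ 2 ≤ C * D y z := hC y z
          _ ≤ C * (a y z * F v) := mul_le_mul_of_nonneg_left (hDa v) hC0
          _ ≤ C * ((Ca * (y ^ 2 + z ^ 2)) * F v) := by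
            apply mul_le_mul_of_nonneg_left _ hC0
            exact mul_le_mul_of_nonneg_right (haC y z) (hn v)
          _ = _ := by ring
      exact le_of_mul_le_mul_left h4 hR
  have hV2' : ∀ n, BF 2 n → (fun v : E => n (v 1) (v 2)) ∈ V F → ∃ C : ℝ, ∀ y z,
      (y ^ 2 + z ^ 2) ^ 1 * n y z ^ 2 ≤ C * (y ^ 2 + z ^ 2) ^ 0 * D y z := by
    rintro n hn' ⟨-, C, hC0, hC⟩
    refine ⟨K * C, fun y z => ?_⟩
    rw [pow_one, pow_zero, mul_one]
    by_cases hyz : y ^ 2 + z ^ 2 = 0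
    · rw [hyz, zero_mul]
      have := hDn y z
      positivity
    · have hA := hapos y z hyz
      have h1 := hC ![-(b y z / a y z), y, z]
      rw [hmin y z hA] at h1
      simp only [Matrix.cons_val_one, Matrix.cons_val] at h1
      have h2 : n y z ^ 2 * a y z ≤ C * D y z := by
        rw [← mul_div_assoc, le_div_iff₀ hA] at h1
        exact h1
      calc (y ^ 2 + z ^ 2) * n y z ^ 2 ≤ (K * a y z) * n y z ^ 2 :=
            mul_le_mul_of_nonneg_right (hay y z) (sq_nonneg _)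
        _ = K * (n y z ^ 2 * a y z) := by ring
        _ ≤ K * (C * D y z) := mul_le_mul_of_nonneg_left h2 hK0
        _ = _ := by ring
  -- reduction to binary cubics
  suffices hbin : ∀ c3, BF 3 c3 → T F (fun v => c3 (v 1) (v 2)) →
      (fun v : E => c3 (v 1) (v 2)) ∈ VR F by
    intro c hc
    obtain ⟨l, hl, m, hm, n, hn3, ec⟩ := hc.shape h0
    obtain ⟨l1, l2, el⟩ := hl.exists_one
    have hm' : BF 2 (fun y z => m y z - l1 * n1 y z - l2 * n2 y z) :=
      (hm.sub (hn1.smul l1)).sub (hn2.smul l2)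
    obtain ⟨m1, hm1, m2, hm2, em⟩ := hm'
    have em' : ∀ y z, m y z = y * m1 y z + z * m2 y z + l1 * n1 y z + l2 * n2 y z := by
      intro y z
      have := congrFun (congrFun em y) z
      linarith
    set L1 : E → ℝ := fun v => l1 * v 0 + m1 (v 1) (v 2) with hL1
    set L2 : E → ℝ := fun v => l2 * v 0 + m2 (v 1) (v 2) with hL2
    have hL1' : TF 1 L1 := ((TF.coord 0).smul l1).add hm1.toTF
    have hL2' : TF 1 L2 := ((TF.coord 0).smul l2).add hm2.toTF
    have hc3 : BF 3 (fun y z => n y z - m1 y z * n1 y z - m2 y z * n2 y z) :=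
      ((hn3.sub (hm1.mul hn1)).sub (hm2.mul hn2))
    have e1 : ∀ v, c v = (v 0 * v 1 + n1 (v 1) (v 2)) * L1 v +
        (v 0 * v 2 + n2 (v 1) (v 2)) * L2 v +
        (n (v 1) (v 2) - m1 (v 1) (v 2) * n1 (v 1) (v 2) - m2 (v 1) (v 2) * n2 (v 1) (v 2)) := by
      intro v
      rw [ec, el, em']
      simp only [hL1, hL2]
      ring
    have hT : T F (fun v => (fun y z => n y z - m1 y z * n1 y z - m2 y z * n2 y z)
        (v 1) (v 2)) :=
      ((hc.sub (T.of_mul hn hu1 hL1')).sub (T.of_mul hn hu2 hL2')).of_eq fun v => by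
        rw [e1 v]
        ring
    exact VR.of_eq (VR.add (VR.add (VR.mk hu1 hL1') (VR.mk hu2 hL2')) (hbin _ hc3 hT)) fun v => by
      rw [e1 v]
  intro c3 hc3 hT
  obtain ⟨C, hC⟩ := hT3 c3 hc3 hT
  by_cases hD0 : ∃ y z, D y z ≠ 0
  swap
  · push Not at hD0
    apply VR.zero
    intro v
    have := hC (v 1) (v 2)
    rw [hD0, mul_zero] at this
    nlinarith [sq_nonneg (c3 (v 1) (v 2))]
  obtain ⟨k, m, hkm, G, hG, P, hP, eD, hPpos, hdiv⟩ := BF.structure (n := 3) hD hDn hD0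
  rcases hdiv 3 c3 hc3 ⟨C, 0, 0, fun y z => by simpa using hC y z⟩ with h1 | ⟨i, hi, w, hw, ew⟩
  · apply VR.zero
    intro v
    rw [h1]
  obtain ⟨δ, hδ, hlow⟩ := BF.pos_lower hP hPpos
  rcases Nat.eq_zero_or_pos i with rfl | hipos
  · -- `k = 3`
    obtain rfl : k = 3 := by omega
    obtain ⟨c0, rfl⟩ := hw
    have hκ : BF 3 (fun y z => y * n2 y z - z * n1 y z) := hn2.ymul.sub hn1.zmul
    have hκT : T F (fun v => (fun y z => y * n2 y z - z * n1 y z) (v 1) (v 2)) :=
      ((T.of_mul hn hu2 (TF.coord 1)).sub (T.of_mul hn hu1 (TF.coord 2))).of_eq fun v => by ring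
    obtain ⟨C', hC'⟩ := hT3 _ hκ hκT
    have hκ2 : (∀ y z, y * n2 y z - z * n1 y z = 0) ∨
        ∃ c1 : ℝ, c1 ≠ 0 ∧ ∀ y z, y * n2 y z - z * n1 y z = G y z * c1 := by
      rcases hdiv 3 _ hκ ⟨C', 0, 0, fun y z => by simpa using hC' y z⟩ with h1 | ⟨j, hj, w', hw', ew'⟩
      · left
        intro y z
        exact congrFun (congrFun h1 y) z
      · obtain rfl : j = 0 := by omega
        obtain ⟨c1, rfl⟩ := hw'
        by_cases hc1 : c1 = 0
        · left
          intro y z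
          rw [ew', hc1, mul_zero]
        · right
          exact ⟨c1, hc1, ew'⟩
    rcases hκ2 with hκ0 | ⟨c1, hc1, hκ1⟩
    · -- contradiction-like case : `c3 = 0`
      have hall : ∀ q ∈ V F, ∃ α β : ℝ, ∀ v : E, q v =
          α * (v 0 * v 1 + n1 (v 1) (v 2)) + β * (v 0 * v 2 + n2 (v 1) (v 2)) := by
        intro q hq
        obtain ⟨α, β, n, hn', eq⟩ := V_shape h0 hq
        refine ⟨α, β, ?_⟩
        have hbf : BF 2 (fun y z => n y z - α * n1 y z - β * n2 y z) :=
          (hn'.sub (hn1.smul α)).sub (hn2.smul β)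
        have hmem : (fun v : E => (fun y z => n y z - α * n1 y z - β * n2 y z) (v 1) (v 2)) ∈
            V F := by
          have h5 := (V F).sub_mem ((V F).sub_mem hq ((V F).smul_mem α hu1))
            ((V F).smul_mem β hu2)
          have h6 : (fun v : E => (fun y z => n y z - α * n1 y z - β * n2 y z) (v 1) (v 2)) =
              q - α • (fun v : E => v 0 * v 1 + n1 (v 1) (v 2)) -
                β • (fun v : E => v 0 * v 2 + n2 (v 1) (v 2)) := by
            funext v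
            simp only [Pi.sub_apply, Pi.smul_apply, smul_eq_mul]
            rw [eq]
            ring
          rw [h6]
          exact h5
        obtain ⟨C'', hC''⟩ := hV2' _ hbf hmem
        rcases hdiv 2 _ hbf ⟨C'', 0, 1, hC''⟩ with h1 | ⟨j, hj, -⟩
        · intro v
          have := congrFun (congrFun h1 (v 1)) (v 2)
          rw [eq]
          linarith
        · omega
      obtain ⟨r, qs, hqs, es⟩ := hilbert_V hF hn
      have hDy : ∀ y z, y ≠ 0 → D y z = 0 := by
        intro y z hy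
        have h5 := hDa ![-(n1 y z / y), y, z]
        have h6 : F ![-(n1 y z / y), y, z] = 0 := by
          rw [es]
          apply Finset.sum_eq_zero
          intro j _
          obtain ⟨α, β, hq⟩ := hall _ (hqs j)
          rw [hq]
          simp only [Matrix.cons_val_one, Matrix.cons_val, Matrix.cons_val_zero]
          have h7 := hκ0 y z
          have h8 : -(n1 y z / y) * y + n1 y z = 0 := by field_simp; ring
          have h9 : -(n1 y z / y) * z + n2 y z = 0 := by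
            field_simp
            linarith
          rw [h8, h9]
          ring
        rw [h6, mul_zero] at h5
        exact le_antisymm h5 (hDn y z)
      have hcy : ∀ y z, c3 y z = 0 := by
        apply BF.cancel_y hc3 (BF.zero 3)
        intro y z
        by_cases hy : y = 0
        · rw [hy]; ring
        · have h5 := hC y z
          rw [hDy y z hy, mul_zero] at h5
          have : c3 y z = 0 := by nlinarith [sq_nonneg (c3 y z)]
          rw [this]
      exact VR.zero fun v => hcy _ _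
    · refine VR.of_eq (VR.add (VR.mk hu2 ((TF.coord 1).smul (c0 / c1)))
        (VR.mk hu1 ((TF.coord 2).smul (-(c0 / c1))))) fun v => ?_
      rw [ew]
      have h5 := hκ1 (v 1) (v 2)
      have h6 : G (v 1) (v 2) * c0 = (c0 / c1) * (G (v 1) (v 2) * c1) := by field_simp
      rw [h6, ← h5]
      ring
  · obtain ⟨i, rfl⟩ : ∃ j, i = j + 1 := ⟨i - 1, by omega⟩
    obtain rfl : m = i + 1 := by omega
    obtain ⟨w1, hw1, w2, hw2, rfl⟩ := hw
    have key : ∀ w1, BF i w1 → (fun v : E => (fun y z => G y z * w1 y z) (v 1) (v 2)) ∈ V F := by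
      intro w1 hw1
      refine hV2 (fun y z => G y z * w1 y z) ?_ ?_
      · have := hG.mul hw1
        rwa [show i + k = 2 by omega] at this
      · obtain ⟨C3, hC30, hC3⟩ := hw1.sq_bound
        refine ⟨C3 / δ, by positivity, fun y z => ?_⟩
        rw [eD, div_mul_eq_mul_div, le_div_iff₀ hδ]
        have h5 := hC3 y z
        have h6 := hlow y z
        have h7 : 0 ≤ G y z ^ 2 := sq_nonneg _
        have h8 : 0 ≤ y ^ 2 + z ^ 2 := by positivity
        calc (y ^ 2 + z ^ 2) * (G y z * w1 y z) ^ 2 * δ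
            = G y z ^ 2 * (y ^ 2 + z ^ 2) * δ * w1 y z ^ 2 := by ring
          _ ≤ G y z ^ 2 * (y ^ 2 + z ^ 2) * δ * (C3 * (y ^ 2 + z ^ 2) ^ i) :=
            mul_le_mul_of_nonneg_left h5 (by positivity)
          _ = C3 * G y z ^ 2 * (δ * (y ^ 2 + z ^ 2) ^ (i + 1)) := by ring
          _ ≤ C3 * G y z ^ 2 * P y z := mul_le_mul_of_nonneg_left h6 (by positivity)
          _ = _ := by ring
    refine VR.of_eq (VR.add (VR.mk (key w1 hw1) (TF.coord 1)) (VR.mk (key w2 hw2) (TF.coord 2)))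
      fun v => ?_
    rw [ew]
    ring

end Pool.Agent.Q192.HQ
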