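import Mathlib
import Pool.Agent.Q192.HQ.Clm

/-!
The case of a zero where the leading coefficient has rank one, and the conclusion.
-/

namespace Pool.Agent.Q192.HQ

open Set

theorem V0_mem {F : E → ℝ} {h1 G P w : ℝ → ℝ → ℝ} {k m : ℕ} (hle : ∀ v, h1 (v 1) (v 2) ≤ F v)
    (hkm : k + m = 2) (hG : BF k G) (hP : BF (2 * m) P) (eh : ∀ y z, h1 y z = G y z ^ 2 * P y z)
    (hPpos : ∀ y z, y ^ 2 + z ^ 2 ≠ 0 → 0 < P y z) (hw : BF m w) :
    (fun v : E => G (v 1) (v 2) * w (v 1) (v 2)) ∈ V F := by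
  obtain ⟨δ, hδ, hlow⟩ := BF.pos_lower hP hPpos
  obtain ⟨C, hC0, hC⟩ := hw.sq_bound
  have h2 := (hG.mul hw).toTF
  rw [show m + k = 2 by omega] at h2
  refine ⟨h2, C / δ, by positivity, fun v => ?_⟩
  show (G (v 1) (v 2) * w (v 1) (v 2)) ^ 2 ≤ C / δ * F v
  have h3 := hC (v 1) (v 2)
  have h4 := hlow (v 1) (v 2)
  have h5 := hle v
  rw [eh] at h5
  rw [div_mul_eq_mul_div, le_div_iff₀ hδ]
  have h6 : 0 ≤ G (v 1) (v 2) ^ 2 := sq_nonneg _
  calc (G (v 1) (v 2) * w (v 1) (v 2)) ^ 2 * δ = G (v 1) (v 2) ^ 2 * δ * w (v 1) (v 2) ^ 2 := by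
        ring
    _ ≤ G (v 1) (v 2) ^ 2 * δ * (C * (v 1 ^ 2 + v 2 ^ 2) ^ m) :=
        mul_le_mul_of_nonneg_left h3 (by positivity)
    _ = C * G (v 1) (v 2) ^ 2 * (δ * (v 1 ^ 2 + v 2 ^ 2) ^ m) := by ring
    _ ≤ C * G (v 1) (v 2) ^ 2 * P (v 1) (v 2) := mul_le_mul_of_nonneg_left h4 (by positivity)
    _ = C * (G (v 1) (v 2) ^ 2 * P (v 1) (v 2)) := by ring
    _ ≤ C * F v := mul_le_mul_of_nonneg_left h5 hC0

theorem u_mem {F : E → ℝ} {k β : ℝ} (hk : 0 < k) {h1 : ℝ → ℝ → ℝ} (hn1 : ∀ y z, 0 ≤ h1 y z)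
    (hF : ∀ v, F v = k * (v 0 * v 1 + β * v 2 ^ 2) ^ 2 + h1 (v 1) (v 2)) :
    (fun v : E => v 0 * v 1 + β * v 2 ^ 2) ∈ V F := by
  refine ⟨?_, 1 / k, by positivity, fun v => ?_⟩
  · exact (((TF.coord 1).cmul 0).add (((TF.coord 2).cmul 2).smul β)).of_eq fun v => by ring
  · have := hn1 (v 1) (v 2)
    show (v 0 * v 1 + β * v 2 ^ 2) ^ 2 ≤ 1 / k * F v
    rw [hF, div_mul_eq_mul_div, le_div_iff₀ hk]
    nlinarith

theorem reduce1 {F : E → ℝ} {k β : ℝ} (hk : 0 < k) {h1 : ℝ → ℝ → ℝ} (hh1 : BF 4 h1)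
    (hn1 : ∀ y z, 0 ≤ h1 y z)
    (hF : ∀ v, F v = k * (v 0 * v 1 + β * v 2 ^ 2) ^ 2 + h1 (v 1) (v 2))
    (H : ∀ (γ : ℝ) (c3 : ℝ → ℝ → ℝ), BF 3 c3 →
      T F (fun v => γ * (v 0 * v 2 ^ 2) + c3 (v 1) (v 2)) →
      (fun v : E => γ * (v 0 * v 2 ^ 2) + c3 (v 1) (v 2)) ∈ VR F) : Claim F := by
  have hn : ∀ v, 0 ≤ F v := fun v => by
    rw [hF]
    have := hn1 (v 1) (v 2)
    positivity
  have hu := u_mem hk hn1 hF
  have h0 : F ![1, 0, 0] = 0 := by
    rw [hF]
    simp [hh1.at_zero]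
  intro c hc
  obtain ⟨l, hl, m, hm, n, hn3, ec⟩ := hc.shape h0
  obtain ⟨l1, l2, el⟩ := hl.exists_one
  obtain ⟨a, b, d, em⟩ := hm.exists_two
  -- `l2 = 0`
  have hl2 : l2 = 0 := by
    obtain ⟨-, C, hC0, hC⟩ := hc
    have h2 := lim_nonneg (g := fun s : ℝ => C * ((1 + s ^ 2) * s ^ 2 * (k * β ^ 2 + h1 0 1)) -
      (l2 + s * m 0 1 + s ^ 2 * n 0 1) ^ 2) (by fun_prop) (fun s hs => by
        have h3 := hC ![1 / s, 0, 1]
        rw [ec, hF, el] at h3
        simp only [N, Matrix.cons_val_one, Matrix.cons_val, Matrix.cons_val_zero] at h3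
        have h4 : C * ((1 + s ^ 2) * s ^ 2 * (k * β ^ 2 + h1 0 1)) -
            (l2 + s * m 0 1 + s ^ 2 * n 0 1) ^ 2 = s ^ 4 * (C * (((1 / s) ^ 2 + 0 ^ 2 + 1 ^ 2) *
            (k * (1 / s * 0 + β * 1 ^ 2) ^ 2 + h1 0 1)) -
            ((1 / s) ^ 2 * (l1 * 0 + l2 * 1) + 1 / s * m 0 1 + n 0 1) ^ 2) := by
          field_simp
          ring
        rw [h4]
        exact mul_nonneg (by positivity) (by linarith))
    simp only [ne_eq, OfNat.ofNat_ne_zero, not_false_eq_true, zero_pow, add_zero, mul_zero,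
      zero_mul, zero_sub] at h2
    nlinarith [sq_nonneg l2]
  set L : E → ℝ := fun v => l1 * v 0 + a * v 1 + b * v 2 with hLdef
  have hL : TF 1 L := TF.lin l1 a b
  have hc3 : BF 3 (fun y z => n y z - (a * β) * (y * (z * (z * 1))) - (b * β) *
      (z * (z * (z * 1)))) :=
    ((hn3.sub ((((BF.const 1).zmul.zmul).ymul).smul (a * β))).sub
      ((((BF.const 1).zmul.zmul).zmul).smul (b * β)))
  have e1 : ∀ v, c v = (v 0 * v 1 + β * v 2 ^ 2) * L v + ((d - l1 * β) * (v 0 * v 2 ^ 2) +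
      (n (v 1) (v 2) - (a * β) * (v 1 * (v 2 * (v 2 * 1))) -
        (b * β) * (v 2 * (v 2 * (v 2 * 1))))) := by
    intro v
    rw [ec, el, em, hl2]
    simp only [hLdef]
    ring
  have hT := H (d - l1 * β) _ hc3 (T.of_eq (T.sub hc (T.of_mul hn hu hL)) fun v => by
    rw [e1 v]
    ring)
  exact VR.of_eq (VR.add (VR.mk hu hL) hT) fun v => e1 v

/-- The conic case. -/
theorem claim_conic {F : E → ℝ} {k β : ℝ} (hk : 0 < k) (hβ : β ≠ 0) {h1 : ℝ → ℝ → ℝ}
    (hh1 : BF 4 h1) (hn1 : ∀ y z, 0 ≤ h1 y z)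
    (hF : ∀ v, F v = k * (v 0 * v 1 + β * v 2 ^ 2) ^ 2 + h1 (v 1) (v 2)) : Claim F := by
  have hu := u_mem hk hn1 hF
  refine reduce1 hk hh1 hn1 hF fun γ c3 hc3 hT => ?_
  obtain ⟨-, C, hC0, hC⟩ := hT
  -- the restriction to the conic
  set e4 : ℝ → ℝ → ℝ := fun y z => -(γ * β) * (z * (z * (z * (z * 1)))) + y * c3 y z with he4
  have he4' : BF 4 e4 := ((BF.const 1).zmul.zmul.zmul.zmul.smul (-(γ * β))).add hc3.ymul
  have hb1 : ∀ y z, 0 ≤ C * ((β ^ 2 * z ^ 4 + y ^ 4 + y ^ 2 * z ^ 2) * h1 y z) - e4 y z ^ 2 := by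
    apply extend_nonneg (p := 0) (q := 1) _ (by norm_num)
    · intro y z hl
      have hy : y ≠ 0 := by simpa using hl
      have h2 := hC ![-(β * z ^ 2), y ^ 2, y * z]
      rw [hF] at h2
      simp only [N, Matrix.cons_val_one, Matrix.cons_val, Matrix.cons_val_zero] at h2
      have h3 : h1 (y ^ 2) (y * z) = y ^ 4 * h1 y z := by
        have := hh1.hom y y z
        rw [← this]
        ring_nf
      have h4 : c3 (y ^ 2) (y * z) = y ^ 3 * c3 y z := by
        have := hc3.hom y y z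
        rw [← this]
        ring_nf
      rw [h3, h4] at h2
      have h5 : 0 ≤ y ^ 4 * (C * ((β ^ 2 * z ^ 4 + y ^ 4 + y ^ 2 * z ^ 2) * h1 y z) -
          e4 y z ^ 2) := by
        simp only [he4]
        nlinarith
      exact nonneg_of_mul_nonneg_right h5 (by positivity)
    · have c1 := hh1.continuous
      have c2 := he4'.continuous
      fun_prop
  by_cases h0 : ∃ y z, h1 y z ≠ 0
  swap
  · push Not at h0
    have he0 : ∀ y z, e4 y z = 0 := by
      intro y z
      have := hb1 y z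
      rw [h0, mul_zero, mul_zero] at this
      nlinarith [sq_nonneg (e4 y z)]
    have hγ : γ = 0 := by
      have := he0 0 1
      simp only [he4] at this
      have h2 : γ * β = 0 := by linarith
      rcases mul_eq_zero.1 h2 with h | h
      · exact h
      · exact absurd h hβ
    have hc0 : ∀ y z, c3 y z = 0 := by
      apply BF.cancel_y hc3 (BF.zero 3)
      intro y z
      have := he0 y z
      simp only [he4, hγ] at this
      linarith
    exact VR.zero fun v => by rw [hγ, hc0]; ring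
  obtain ⟨k', m, hkm, G, hG, P, hP, eh, hPpos, hdiv⟩ := BF.structure (n := 2) hh1 hn1 h0
  have hb2 : ∀ y z, (y ^ 2 + z ^ 2) ^ 0 * e4 y z ^ 2 ≤
      (C * (β ^ 2 + 1)) * (y ^ 2 + z ^ 2) ^ 2 * h1 y z := by
    intro y z
    have h2 := hb1 y z
    have h3 : β ^ 2 * z ^ 4 + y ^ 4 + y ^ 2 * z ^ 2 ≤ (β ^ 2 + 1) * (y ^ 2 + z ^ 2) ^ 2 := by
      have h5 : 0 ≤ y ^ 2 := sq_nonneg _
      have h6 : 0 ≤ z ^ 2 := sq_nonneg _
      nlinarith [mul_nonneg h5 h6, sq_nonneg (z ^ 2), sq_nonneg (y ^ 2), sq_nonneg (β * y ^ 2),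
        mul_nonneg (sq_nonneg β) (mul_nonneg h5 h6)]
    have h4 : C * ((β ^ 2 * z ^ 4 + y ^ 4 + y ^ 2 * z ^ 2) * h1 y z) ≤
        C * (((β ^ 2 + 1) * (y ^ 2 + z ^ 2) ^ 2) * h1 y z) :=
      mul_le_mul_of_nonneg_left (mul_le_mul_of_nonneg_right h3 (hn1 y z)) hC0
    rw [pow_zero, one_mul]
    nlinarith
  have hw : ∃ w, BF (m + 2) w ∧ ∀ y z, e4 y z = G y z * w y z := by
    rcases hdiv 4 e4 he4' ⟨C * (β ^ 2 + 1), 2, 0, hb2⟩ with h | ⟨i, hi, w, hw, ew⟩
    · exact ⟨_, BF.zero _, fun y z => by rw [h]; ring⟩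
    · obtain rfl : i = m + 2 := by omega
      exact ⟨w, hw, ew⟩
  obtain ⟨w, ⟨_, ⟨g, hg, h, hh, rfl⟩, _, ⟨g', hg', h', hh', rfl⟩, rfl⟩, ew⟩ := hw
  have hle : ∀ v, h1 (v 1) (v 2) ≤ F v := fun v => by
    rw [hF]
    nlinarith [sq_nonneg (v 0 * v 1 + β * v 2 ^ 2)]
  have q1 := V0_mem hle hkm hG hP eh hPpos hg
  have q2 := V0_mem hle hkm hG hP eh hPpos (hh.add hg')
  have q3 := V0_mem hle hkm hG hP eh hPpos hh'
  have b1 : BF 2 (fun y z => G y z * g y z) := by
    have := hG.mul hg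
    rwa [show m + k' = 2 by omega] at this
  have b2 : BF 2 (fun y z => G y z * (h y z + g' y z)) := by
    have := hG.mul (hh.add hg')
    rwa [show m + k' = 2 by omega] at this
  have b3 : BF 2 (fun y z => G y z * h' y z) := by
    have := hG.mul hh'
    rwa [show m + k' = 2 by omega] at this
  have hM2 : BF 2 (fun y z => γ * (z * (z * 1)) + (1 / β) * (G y z * h' y z)) :=
    ((BF.const 1).zmul.zmul.smul γ).add (b3.smul (1 / β))
  have hM3 : BF 3 (fun y z => c3 y z - y * (G y z * g y z) - z * (G y z * (h y z + g' y z))) :=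
    (hc3.sub b1.ymul).sub b2.zmul
  have hrel : ∀ y z, y * (c3 y z - y * (G y z * g y z) - z * (G y z * (h y z + g' y z))) =
      β * z ^ 2 * (γ * (z * (z * 1)) + (1 / β) * (G y z * h' y z)) := by
    intro y z
    have h2 := ew y z
    simp only [he4] at h2
    have h3 : β * z ^ 2 * (γ * (z * (z * 1)) + (1 / β) * (G y z * h' y z)) =
        β * γ * z ^ 4 + z ^ 2 * (G y z * h' y z) := by
      field_simp
    rw [h3]
    linear_combination h2
  have hz0 : γ * ((1 : ℝ) * ((1 : ℝ) * 1)) + (1 / β) * (G 0 1 * h' 0 1) = 0 := by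
    have h2 := hrel 0 1
    rw [zero_mul] at h2
    have h3 : β * (1 : ℝ) ^ 2 ≠ 0 := by simpa using hβ
    rcases mul_eq_zero.1 h2.symm with h4 | h4
    · exact absurd h4 h3
    · exact h4
  obtain ⟨L, hL, eL⟩ := BF.div hM2 (p := 0) (q := 1) (by norm_num) hz0
  have hM3' : ∀ y z, c3 y z - y * (G y z * g y z) - z * (G y z * (h y z + g' y z)) =
      β * (z * (z * L y z)) := by
    refine BF.cancel_y hM3 (hL.zmul.zmul.smul β) fun y z => ?_
    rw [hrel, eL]
    ring
  refine VR.of_eq (VR.add (VR.add (VR.add (VR.mk q1 (TF.coord 1)) (VR.mk q2 (TF.coord 2)))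
    (VR.mk q3 ((TF.coord 0).smul (-(1 / β))))) (VR.mk hu hL.toTF)) fun v => ?_
  have e2 := hM3' (v 1) (v 2)
  have e3 := eL (v 1) (v 2)
  linear_combination e2 + (v 0) * e3

/-- The crossing case. -/
theorem claim_cross {F : E → ℝ} {k : ℝ} (hk : 0 < k) {h1 : ℝ → ℝ → ℝ}
    (hh1 : BF 4 h1) (hn1 : ∀ y z, 0 ≤ h1 y z)
    (hF : ∀ v, F v = k * (v 0 * v 1 + 0 * v 2 ^ 2) ^ 2 + h1 (v 1) (v 2)) (hnd : ¬Deg F) :
    Claim F := by
  have hn : ∀ v, 0 ≤ F v := fun v => by
    rw [hF]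
    have := hn1 (v 1) (v 2)
    positivity
  have hu := u_mem hk hn1 hF
  refine reduce1 hk hh1 hn1 hF fun γ c3 hc3 hT => ?_
  obtain ⟨-, C, hC0, hC⟩ := hT
  have hle : ∀ v, h1 (v 1) (v 2) ≤ F v := fun v => by
    rw [hF]
    nlinarith [sq_nonneg (v 0 * v 1 + 0 * v 2 ^ 2)]
  by_cases h01 : h1 0 1 = 0
  · -- a double line
    obtain ⟨g, hg, eg, hgn⟩ := BF.div_sq (n := 2) hh1 hn1 (p := 0) (q := 1) (by norm_num) h01
    have hx0 : ∀ x z : ℝ, γ * (x * z ^ 2) + c3 0 z = 0 := by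
      intro x z
      have h2 := hC ![x, 0, z]
      rw [hF] at h2
      simp only [N, Matrix.cons_val_one, Matrix.cons_val, Matrix.cons_val_zero] at h2
      rw [eg] at h2
      have h3 : (γ * (x * z ^ 2) + c3 0 z) ^ 2 ≤ 0 := by
        refine h2.trans (le_of_eq ?_)
        ring
      nlinarith [sq_nonneg (γ * (x * z ^ 2) + c3 0 z)]
    have hγ : γ = 0 := by
      have h2 := hx0 1 1
      have h3 := hx0 0 1
      linarith
    have hc01 : c3 0 1 = 0 := by
      have h2 := hx0 0 1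
      linarith
    obtain ⟨c2, hc2, ec⟩ := hc3.div (p := 0) (q := 1) (by norm_num) hc01
    have hbd : ∀ y z, 0 ≤ C * ((y ^ 2 + z ^ 2) * g y z) - c2 y z ^ 2 := by
      apply extend_nonneg (p := 0) (q := 1) _ (by norm_num)
      · intro y z hl
        have hy : y ≠ 0 := by simpa using hl
        have h2 := hC ![0, y, z]
        rw [hF] at h2
        simp only [N, Matrix.cons_val_one, Matrix.cons_val, Matrix.cons_val_zero] at h2
        rw [eg, ec] at h2
        have h3 : 0 ≤ y ^ 2 * (C * ((y ^ 2 + z ^ 2) * g y z) - c2 y z ^ 2) := by nlinarith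
        exact nonneg_of_mul_nonneg_right h3 (by positivity)
      · have c1 := hg.continuous
        have c4 := hc2.continuous
        fun_prop
    have hFle : ∀ v, v 1 ^ 2 * g (v 1) (v 2) ≤ F v := fun v => by
      have h2 := hle v
      rw [eg] at h2
      calc v 1 ^ 2 * g (v 1) (v 2) = (1 * v 1 - 0 * v 2) ^ 2 * g (v 1) (v 2) := by ring
        _ ≤ F v := h2
    by_cases hg0 : ∃ p q : ℝ, p ^ 2 + q ^ 2 ≠ 0 ∧ g p q = 0
    · obtain ⟨p, q, hp, hpq⟩ := hg0
      obtain ⟨_, ⟨k', rfl⟩, e2, hk'⟩ := BF.div_sq (n := 0) hg hgn hp hpq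
      have hk0 : 0 ≤ k' := hk' 0 0
      rcases hk0.eq_or_lt with rfl | hkpos
      · exfalso
        apply hnd
        refine ⟨![0, 0, 1], fun e => by simpa using congrFun e 2, fun v t => ?_⟩
        rw [hF, hF, eg, eg, e2, e2]
        simp
      · have hc2p : c2 p q = 0 := by
          have h2 := hbd p q
          rw [hpq] at h2
          nlinarith [sq_nonneg (c2 p q)]
        obtain ⟨l2, hl2, e3⟩ := hc2.div hp hc2p
        have hmem : (fun v : E => v 1 * (q * v 1 - p * v 2)) ∈ V F := by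
          refine ⟨(BF.linf p q).ymul.toTF, 1 / k', by positivity, fun v => ?_⟩
          have h2 := hFle v
          rw [e2] at h2
          show (v 1 * (q * v 1 - p * v 2)) ^ 2 ≤ 1 / k' * F v
          rw [div_mul_eq_mul_div, le_div_iff₀ hkpos, one_mul]
          refine le_trans (le_of_eq ?_) h2
          ring
        refine VR.of_eq (VR.mk hmem hl2.toTF) fun v => ?_
        rw [hγ, ec, e3]
        ring
    · push Not at hg0
      obtain ⟨δ, hδ, hlow⟩ := BF.pos_lower (n := 1) hg fun y z hyz =>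
        lt_of_le_of_ne (hgn y z) (Ne.symm (hg0 y z hyz))
      simp only [pow_one] at hlow
      have key : ∀ i : Fin 3, i ≠ 0 → (fun v : E => v 1 * v i) ∈ V F := by
        intro i hi
        refine ⟨(TF.coord i).cmul 1, 1 / δ, by positivity, fun v => ?_⟩
        show (v 1 * v i) ^ 2 ≤ 1 / δ * F v
        rw [div_mul_eq_mul_div, le_div_iff₀ hδ, one_mul]
        have h2 := hFle v
        have h3 := hlow (v 1) (v 2)
        have h4 : v i ^ 2 ≤ v 1 ^ 2 + v 2 ^ 2 := by
          fin_cases i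
          · exact absurd rfl hi
          · show v 1 ^ 2 ≤ _
            nlinarith [sq_nonneg (v 2)]
          · show v 2 ^ 2 ≤ _
            nlinarith [sq_nonneg (v 1)]
        have h5 : 0 ≤ v 1 ^ 2 := sq_nonneg _
        calc (v 1 * v i) ^ 2 * δ = v 1 ^ 2 * (δ * v i ^ 2) := by ring
          _ ≤ v 1 ^ 2 * (δ * (v 1 ^ 2 + v 2 ^ 2)) :=
            mul_le_mul_of_nonneg_left (mul_le_mul_of_nonneg_left h4 hδ.le) h5
          _ ≤ v 1 ^ 2 * g (v 1) (v 2) := mul_le_mul_of_nonneg_left h3 h5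
          _ ≤ F v := h2
      obtain ⟨m1, hm1, m2, hm2, rfl⟩ := hc2
      refine VR.of_eq (VR.add (VR.mk (key 1 (by decide)) hm1.toTF)
        (VR.mk (key 2 (by decide)) hm2.toTF)) fun v => ?_
      rw [hγ, ec]
      ring
  · -- `h1 (0, 1) > 0`
    obtain ⟨k', m, hkm, G, hG, P, hP, eh, hPpos, hdiv⟩ :=
      BF.structure (n := 2) hh1 hn1 ⟨0, 1, h01⟩
    have hG01 : G 0 1 ≠ 0 := by
      intro e
      apply h01
      rw [eh, e]
      ring
    have hbd : ∀ y z, c3 y z ^ 2 ≤ C * ((y ^ 2 + z ^ 2) * h1 y z) := by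
      intro y z
      have h2 := hC ![0, y, z]
      rw [hF] at h2
      simp only [N, Matrix.cons_val_one, Matrix.cons_val, Matrix.cons_val_zero] at h2
      refine le_trans (le_of_eq ?_) (h2.trans (le_of_eq ?_))
      · ring
      · ring
    have hc3V : (fun v : E => c3 (v 1) (v 2)) ∈ VR F := by
      rcases hdiv 3 c3 hc3 ⟨C, 1, 0, fun y z => by
        rw [pow_zero, one_mul, pow_one]
        exact (hbd y z).trans (le_of_eq (by ring))⟩ with h | ⟨i, hi, w, hw, ew⟩
      · exact VR.zero fun v => by rw [h]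
      · obtain rfl : i = m + 1 := by omega
        obtain ⟨w1, hw1, w2, hw2, rfl⟩ := hw
        exact VR.of_eq (VR.add (VR.mk (V0_mem hle hkm hG hP eh hPpos hw1) (TF.coord 1))
          (VR.mk (V0_mem hle hkm hG hP eh hPpos hw2) (TF.coord 2))) fun v => by rw [ew]; ring
    -- a form of degree `m` not vanishing at `(0, 1)`
    have hzm : ∀ m : ℕ, BF m (fun _ z => z ^ m) := by
      intro m
      induction m with
      | zero => exact ⟨1, by funext y z; simp⟩
      | succ m ih => exact ih.zmul.of_eq fun y z => by rw [pow_succ]; ring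
    have hq := V0_mem hle hkm hG hP eh hPpos (hzm m)
    have b1 : BF 2 (fun y z => G y z * z ^ m) := by
      have := hG.mul (hzm m)
      rwa [show m + k' = 2 by omega] at this
    obtain ⟨a, b, d, e1⟩ := b1.exists_two
    have hd : d ≠ 0 := by
      intro e
      have := e1 0 1
      rw [e] at this
      apply hG01
      simpa using this
    refine VR.of_eq (VR.add (VR.add (VR.mk hq ((TF.coord 0).smul (γ / d)))
      (VR.mk hu ((TF.lin 0 (-(γ / d) * a) (-(γ / d) * b))))) hc3V) fun v => ?_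
    have e2 := e1 (v 1) (v 2)
    rw [e2]
    field_simp
    ring

/-- The claim for forms with one-dimensional space of leading coefficients. -/
theorem claim_dim1 {F : E → ℝ} (hF : TF 4 F) (hn : ∀ v, 0 ≤ F v) (hnd : ¬Deg F)
    (hV : ∀ q ∈ V F, ∃ α n, BF 2 n ∧ ∀ v, q v = α * (v 0 * v 1) + n (v 1) (v 2)) : Claim F := by
  obtain ⟨r, q, hq, es⟩ := hilbert_V hF hn
  choose α n hn2 en using fun j => hV (q j) (hq j)
  set k := ∑ j, α j ^ 2 with hk
  have hk0 : 0 ≤ k := Finset.sum_nonneg fun j _ => sq_nonneg _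
  have hsumBF : ∀ {d : ℕ} (s : Finset (Fin r)) (f : Fin r → ℝ → ℝ → ℝ), (∀ j, BF d (f j)) →
      BF d (fun y z => ∑ j ∈ s, f j y z) := by
    intro d s f hf
    induction s using Finset.induction_on with
    | empty => exact (BF.zero d).of_eq fun y z => by simp
    | insert a s ha ih => exact ((hf a).add ih).of_eq fun y z => by rw [Finset.sum_insert ha]
  rcases hk0.eq_or_lt with hk1 | hkpos
  · exfalso
    apply hnd
    have hα : ∀ j, α j = 0 := by
      intro j
      have h1 := (Finset.sum_eq_zero_iff_of_nonneg (fun j _ => sq_nonneg (α j))).1 hk1.symm j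
        (Finset.mem_univ j)
      exact pow_eq_zero_iff (two_ne_zero) |>.1 h1
    refine ⟨![1, 0, 0], fun e => by simpa using congrFun e 0, fun v t => ?_⟩
    rw [es, es]
    apply Finset.sum_congr rfl
    intro j _
    rw [en, en, hα]
    simp
  · set ν : ℝ → ℝ → ℝ := fun y z => (1 / k) * ∑ j, α j * n j y z with hν
    have hνB : BF 2 ν := (hsumBF _ _ fun j => (hn2 j).smul (α j)).smul (1 / k)
    set h1 : ℝ → ℝ → ℝ := fun y z => (∑ j, n j y z * n j y z) - k * (ν y z * ν y z) with hh1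
    have hh1B : BF 4 h1 := (hsumBF _ _ fun j => (hn2 j).mul (hn2 j)).sub
      ((hνB.mul hνB).smul k)
    have eF : ∀ v, F v = k * (v 0 * v 1 + ν (v 1) (v 2)) ^ 2 + h1 (v 1) (v 2) := by
      intro v
      have h2 : k * ν (v 1) (v 2) = ∑ j, α j * n j (v 1) (v 2) := by
        simp only [hν]
        field_simp
      have h3 : F v = (v 0 * v 1) ^ 2 * k + 2 * (v 0 * v 1) * (∑ j, α j * n j (v 1) (v 2)) +
          ∑ j, n j (v 1) (v 2) * n j (v 1) (v 2) := by
        rw [es, hk, Finset.mul_sum, Finset.mul_sum, ← Finset.sum_add_distrib,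
          ← Finset.sum_add_distrib]
        apply Finset.sum_congr rfl
        intro j _
        rw [en]
        ring
      rw [h3, ← h2]
      simp only [hh1]
      ring
    have hh1n : ∀ y z, 0 ≤ h1 y z := by
      apply extend_nonneg (p := 0) (q := 1) hh1B.continuous (by norm_num)
      intro y z hl
      have hy : y ≠ 0 := by simpa using hl
      have h2 := hn ![-(ν y z / y), y, z]
      rw [eF] at h2
      simp only [Matrix.cons_val_one, Matrix.cons_val, Matrix.cons_val_zero] at h2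
      have h3 : -(ν y z / y) * y + ν y z = 0 := by field_simp; ring
      rw [h3] at h2
      simpa using h2
    obtain ⟨a, b, β, eν⟩ := hνB.exists_two
    -- shear
    have hs := sub_explicit (-a) (-b) 1 0 0 1 (by ring)
    apply Claim.of_sub hn hs
    have hnd' : ¬Deg (fun v : E => F ![v 0 + -a * v 1 + -b * v 2, 1 * v 1 + 0 * v 2,
        0 * v 1 + 1 * v 2]) := fun h => hnd (h.of_sub hs)
    have eF2 : ∀ v : E, F ![v 0 + -a * v 1 + -b * v 2, 1 * v 1 + 0 * v 2,
        0 * v 1 + 1 * v 2] = k * (v 0 * v 1 + β * v 2 ^ 2) ^ 2 + h1 (v 1) (v 2) := by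
      intro v
      rw [eF, eν]
      simp only [Matrix.cons_val_one, Matrix.cons_val, Matrix.cons_val_zero, one_mul, zero_mul,
        add_zero, zero_add]
      ring
    by_cases hβ : β = 0
    · subst hβ
      exact claim_cross hkpos hh1B hh1n eF2 hnd'
    · exact claim_conic hkpos hβ hh1B hh1n eF2

/-- **Main claim.** -/
theorem claim {F : E → ℝ} (hF : TF 4 F) (hn : ∀ v, 0 ≤ F v) (hnd : ¬Deg F) : Claim F := by
  by_cases hz : ∃ v, v ≠ 0 ∧ F v = 0
  swap
  · push Not at hz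
    exact claim_pos hF fun v hv => lt_of_le_of_ne (hn v) (Ne.symm (hz v hv))
  obtain ⟨w, hw, hw0⟩ := hz
  obtain ⟨φ, ψ, hs, h1⟩ := sub_to_e1 hw
  apply Claim.of_sub hn hs
  have hnd' : ¬Deg (fun v => F (φ v)) := fun h => hnd (h.of_sub hs)
  have hF' := hF.comp hs.l
  have hn' : ∀ v, 0 ≤ (fun v => F (φ v)) v := fun v => hn _
  have h0' : (fun v => F (φ v)) ![1, 0, 0] = 0 := by simp only [h1, hw0]
  generalize (fun v => F (φ v)) = G at *
  -- the space of leading coefficients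
  set M : Submodule ℝ (ℝ × ℝ) :=
    { carrier := {p | ∃ n, BF 2 n ∧ (fun v : E => v 0 * (p.1 * v 1 + p.2 * v 2) +
        n (v 1) (v 2)) ∈ V G}
      add_mem' := by
        rintro p q ⟨n, hn, h⟩ ⟨n', hn', h'⟩
        refine ⟨_, hn.add hn', ?_⟩
        have := (V G).add_mem h h'
        convert this using 1
        funext v
        simp only [Prod.fst_add, Prod.snd_add, Pi.add_apply]
        ring
      zero_mem' := by
        refine ⟨_, BF.zero 2, ?_⟩
        convert (V G).zero_mem using 1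
        funext v
        simp
      smul_mem' := by
        rintro c p ⟨n, hn, h⟩
        refine ⟨_, hn.smul c, ?_⟩
        have := (V G).smul_mem c h
        convert this using 1
        funext v
        simp only [Prod.smul_fst, Prod.smul_snd, Pi.smul_apply, smul_eq_mul]
        ring } with hM
  by_cases hMt : M = ⊤
  · have m1 : ((1 : ℝ), (0 : ℝ)) ∈ M := by rw [hMt]; trivial
    have m2 : ((0 : ℝ), (1 : ℝ)) ∈ M := by rw [hMt]; trivial
    obtain ⟨n1, hn1, hu1⟩ := m1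
    obtain ⟨n2, hn2, hu2⟩ := m2
    refine claim_dim2 hF' hn' h0' hn1 hn2 ?_ ?_
    · convert hu1 using 1
      funext v
      ring
    · convert hu2 using 1
      funext v
      ring
  · obtain ⟨f, hf0, hfM⟩ := Submodule.exists_le_ker_of_lt_top M (lt_top_iff_ne_top.2 hMt)
    set p := f (1, 0) with hp
    set q := f (0, 1) with hq
    have hfv : ∀ a b : ℝ, f (a, b) = a * p + b * q := by
      intro a b
      have : ((a, b) : ℝ × ℝ) = a • ((1 : ℝ), (0 : ℝ)) + b • ((0 : ℝ), (1 : ℝ)) := by simp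
      rw [this, map_add, map_smul, map_smul]
      simp [hp, hq]
    have hr : p ^ 2 + q ^ 2 ≠ 0 := by
      intro e
      have h2 : p = 0 := by nlinarith [sq_nonneg p, sq_nonneg q]
      have h3 : q = 0 := by nlinarith [sq_nonneg p, sq_nonneg q]
      apply hf0
      ext
      · simpa using h2
      · simpa using h3
    set r := p ^ 2 + q ^ 2 with hrdef
    -- rotate `(p, q)` to `(0, 1)`
    have hs2 := sub_explicit 0 0 (q / r) p (-p / r) q (by
      have : q / r * q - p * (-p / r) = (p ^ 2 + q ^ 2) / r := by ring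
      rw [this, ← hrdef]
      exact div_self hr)
    apply Claim.of_sub hn' hs2
    refine claim_dim1 (hF'.comp hs2.l) (fun v => hn' _) (fun h => hnd' (h.of_sub hs2))
      fun g hg => ?_
    have hg2 := V_comp hs2 hg
    obtain ⟨α, β, n, hn2, e⟩ := V_shape h0' hg2
    have hmem : (α, β) ∈ M := by
      refine ⟨n, hn2, ?_⟩
      convert hg2 using 1
      funext v
      exact (e v).symm
    have h5 : α * p + β * q = 0 := by
      rw [← hfv]
      exact hfM hmem
    refine ⟨α * (q / r) + β * (-p / r), _, hn2.comp (q / r) p (-p / r) q, fun v => ?_⟩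
    have h6 := e ((fun v : E => ![v 0 + 0 * v 1 + 0 * v 2, q / r * v 1 + p * v 2,
      -p / r * v 1 + q * v 2]) v)
    rw [hs2.rl] at h6
    rw [h6]
    simp only [Matrix.cons_val_one, Matrix.cons_val, Matrix.cons_val_zero]
    linear_combination (v 0 * v 2) * h5

end Pool.Agent.Q192.HQ
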