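import Mathlib
import Pool.Agent.Q192.HQ.Clm2

/-!
Polynomial functions, sums of squares of polynomial functions, quadratic polynomials.
-/

namespace Pool.Agent.Q192.HQ

open Set MvPolynomial

/-- Sums of squares of polynomials. -/
def IsSOS (f : MvPolynomial (Fin 3) ℝ) : Prop :=
  ∃ (n : ℕ) (g : Fin n → MvPolynomial (Fin 3) ℝ), f = ∑ i, g i ^ 2

/-- Polynomial functions. -/
def PF (g : E → ℝ) : Prop := ∃ P : MvPolynomial (Fin 3) ℝ, ∀ v, eval v P = g v

theorem PF.of_eq {f g : E → ℝ} (hf : PF f) (h : ∀ v, g v = f v) : PF g := by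
  obtain ⟨P, hP⟩ := hf
  exact ⟨P, fun v => by rw [hP, h]⟩

theorem PF.const (c : ℝ) : PF (fun _ => c) := ⟨C c, fun v => by simp⟩

theorem PF.coord (i : Fin 3) : PF (fun v => v i) := ⟨X i, fun v => by simp⟩

theorem PF.add {f g : E → ℝ} (hf : PF f) (hg : PF g) : PF (fun v => f v + g v) := by
  obtain ⟨P, hP⟩ := hf
  obtain ⟨Q, hQ⟩ := hg
  exact ⟨P + Q, fun v => by rw [map_add, hP, hQ]⟩

theorem PF.mul {f g : E → ℝ} (hf : PF f) (hg : PF g) : PF (fun v => f v * g v) := by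
  obtain ⟨P, hP⟩ := hf
  obtain ⟨Q, hQ⟩ := hg
  exact ⟨P * Q, fun v => by rw [map_mul, hP, hQ]⟩

theorem PF.comp {f : E → ℝ} (hf : PF f) {φ : E → E} (hφ : ∀ i, PF (fun v => φ v i)) :
    PF (fun v => f (φ v)) := by
  obtain ⟨P, hP⟩ := hf
  choose Q hQ using hφ
  refine ⟨bind₁ Q P, fun v => ?_⟩
  show eval v (bind₁ Q P) = f (φ v)
  rw [← hP]
  have h1 : (eval v) (bind₁ Q P) = eval (fun i => eval v (Q i)) P := by
    rw [← aeval_eq_eval, ← aeval_eq_eval, aeval_bind₁]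
  rw [h1]
  exact congrArg (fun w => eval w P) (funext fun i => hQ i v)

/-- Forms are polynomial functions. -/
theorem TF.pf {n : ℕ} {f : E → ℝ} (h : TF n f) :
    ∃ P : MvPolynomial (Fin 3) ℝ, P.IsHomogeneous n ∧ ∀ v, eval v P = f v := by
  induction n generalizing f with
  | zero =>
    obtain ⟨c, rfl⟩ := h
    exact ⟨C c, isHomogeneous_C _ _, fun v => by simp⟩
  | succ n ih =>
    obtain ⟨g, hg, h, hh, k, hk, rfl⟩ := h
    obtain ⟨P, hP, eP⟩ := ih hg
    obtain ⟨Q, hQ, eQ⟩ := ih hh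
    obtain ⟨R, hR, eR⟩ := ih hk
    refine ⟨X 0 * P + X 1 * Q + X 2 * R, ?_, fun v => ?_⟩
    · rw [add_comm n 1]
      exact (((isHomogeneous_X _ _).mul hP).add ((isHomogeneous_X _ _).mul hQ)).add
        ((isHomogeneous_X _ _).mul hR)
    · simp only [map_add, map_mul, eval_X, eP, eQ, eR]

theorem TF.pf' {n : ℕ} {f : E → ℝ} (h : TF n f) : PF f := by
  obtain ⟨P, -, e⟩ := h.pf
  exact ⟨P, e⟩

theorem TF.pow_coord (i : Fin 3) (n : ℕ) : TF n (fun v => v i ^ n) := by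
  induction n with
  | zero => exact ⟨1, by funext v; simp⟩
  | succ n ih => exact (ih.cmul i).of_eq fun v => by rw [pow_succ]; ring

/-- Homogeneous polynomials define forms. -/
theorem tf_of_hom {n : ℕ} {P : MvPolynomial (Fin 3) ℝ} (h : P.IsHomogeneous n) :
    TF n (fun v => eval v P) := by
  have h1 : ∀ v : E, eval v P = ∑ d ∈ P.support, coeff d P * ∏ i, v i ^ d i := fun v =>
    eval_eq' v P
  refine (TF.sum P.support (f := fun d v => coeff d P * ∏ i, v i ^ d i) fun d hd => ?_).of_eq h1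
  have hdeg : d.degree = n := by
    by_contra hne
    exact (mem_support_iff.1 hd) (h.coeff_eq_zero hne)
  have h2 : d.degree = d 0 + d 1 + d 2 := by
    rw [Finsupp.degree_eq_sum, Fin.sum_univ_three]
  have h3 : TF (d 2 + (d 1 + d 0)) (fun v : E => v 0 ^ d 0 * v 1 ^ d 1 * v 2 ^ d 2) :=
    ((TF.pow_coord 0 (d 0)).mul (TF.pow_coord 1 (d 1))).mul (TF.pow_coord 2 (d 2))
  rw [show d 2 + (d 1 + d 0) = n by omega] at h3
  exact (h3.smul (coeff d P)).of_eq fun v => by rw [Fin.prod_univ_three]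

/-- Sums of squares of polynomial functions. -/
def SOSf (g : E → ℝ) : Prop :=
  ∃ (ι : Type) (_ : Fintype ι) (p : ι → E → ℝ), (∀ i, PF (p i)) ∧ ∀ v, g v = ∑ i, p i v ^ 2

theorem SOSf.isSOS {f : MvPolynomial (Fin 3) ℝ} (h : SOSf (fun v => eval v f)) : IsSOS f := by
  obtain ⟨ι, _, p, hp, e⟩ := h
  choose P hP using hp
  refine ⟨Fintype.card ι, fun i => P ((Fintype.equivFin ι).symm i), ?_⟩
  apply MvPolynomial.funext
  intro v
  rw [show eval v f = ∑ i, p i v ^ 2 from e v, map_sum]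
  rw [← (Fintype.equivFin ι).sum_comp]
  apply Finset.sum_congr rfl
  intro i _
  simp [hP]

theorem SOSf.of_eq {f g : E → ℝ} (hf : SOSf f) (h : ∀ v, g v = f v) : SOSf g := by
  have : g = f := by funext v; exact h v
  rwa [this]

theorem SOSf.add {f g : E → ℝ} (hf : SOSf f) (hg : SOSf g) : SOSf (fun v => f v + g v) := by
  obtain ⟨ι, _, p, hp, ep⟩ := hf
  obtain ⟨κ, _, q, hq, eq⟩ := hg
  refine ⟨ι ⊕ κ, inferInstance, Sum.elim p q, fun i => ?_, fun v => ?_⟩
  · rcases i with i | i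
    · exact hp i
    · exact hq i
  · show f v + g v = _
    rw [Fintype.sum_sum_type, ep, eq]
    rfl

theorem SOSf.sum {ι : Type} [Fintype ι] {p : ι → E → ℝ} (hp : ∀ i, PF (p i)) :
    SOSf (fun v => ∑ i, p i v ^ 2) := ⟨ι, inferInstance, p, hp, fun _ => rfl⟩

theorem SOSf.comp {f : E → ℝ} (hf : SOSf f) {φ : E → E} (hφ : ∀ i, PF (fun v => φ v i)) :
    SOSf (fun v => f (φ v)) := by
  obtain ⟨ι, _, p, hp, ep⟩ := hf
  exact ⟨ι, inferInstance, fun i v => p i (φ v), fun i => (hp i).comp hφ, fun v => ep _⟩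

open scoped MatrixOrder in
/-- Nonnegative quadratic polynomials are sums of squares. -/
theorem quad_sos {A B : E → ℝ} (c : ℝ) (hA : TF 2 A) (hB : TF 1 B)
    (hn : ∀ v, 0 ≤ A v + B v + c) : SOSf (fun v => A v + B v + c) := by
  obtain ⟨a, m, hm, n, hn2, eA⟩ := hA.exists_two
  obtain ⟨m1, m2, em⟩ := hm.exists_one
  obtain ⟨n1, n2, n3, en⟩ := hn2.exists_two
  obtain ⟨b0, b1, b2, eB⟩ := hB.exists_one
  -- homogenised inequality
  have hhom : ∀ (s : ℝ) (v : E), 0 ≤ A v + s * B v + s ^ 2 * c := by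
    have hpos : ∀ (s : ℝ) (v : E), s ≠ 0 → 0 ≤ A v + s * B v + s ^ 2 * c := by
      intro s v hs
      have h1 := hn (s⁻¹ • v)
      rw [hA.hom, hB.hom, pow_one] at h1
      have h2 : A v + s * B v + s ^ 2 * c = s ^ 2 * (s⁻¹ ^ 2 * A v + s⁻¹ * B v + c) := by
        field_simp
      rw [h2]
      exact mul_nonneg (by positivity) h1
    intro s v
    by_cases hs : s = 0
    · subst hs
      exact lim_nonneg (g := fun s : ℝ => A v + s * B v + s ^ 2 * c) (by fun_prop)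
        fun s hs => hpos s v hs.ne'
    · exact hpos s v hs
  set M : Matrix (Fin 4) (Fin 4) ℝ := !![c, b0 / 2, b1 / 2, b2 / 2; b0 / 2, a, m1 / 2, m2 / 2;
    b1 / 2, m1 / 2, n1, n2 / 2; b2 / 2, m2 / 2, n2 / 2, n3] with hM
  have hquad : ∀ x : Fin 4 → ℝ, x ⬝ᵥ (M.mulVec x) =
      A ![x 1, x 2, x 3] + x 0 * B ![x 1, x 2, x 3] + x 0 ^ 2 * c := by
    intro x
    rw [eA, em, en, eB, hM]
    simp [Matrix.mulVec, dotProduct, Fin.sum_univ_four]
    ring
  have hpsd : M.PosSemidef := by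
    refine Matrix.PosSemidef.of_dotProduct_mulVec_nonneg ?_ fun x => ?_
    · ext i j
      fin_cases i <;> fin_cases j <;> simp [hM, Matrix.conjTranspose]
    · rw [star_trivial, hquad]
      exact hhom _ _
  obtain ⟨S, hS⟩ := CStarAlgebra.nonneg_iff_eq_star_mul_self.mp hpsd.nonneg
  refine ⟨Fin 4, inferInstance, fun k v => S k 0 + S k 1 * v 0 + S k 2 * v 1 + S k 3 * v 2,
    fun k => ?_, fun v => ?_⟩
  · exact (((PF.const (S k 0)).add ((PF.const (S k 1)).mul (PF.coord 0))).add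
      ((PF.const (S k 2)).mul (PF.coord 1))).add ((PF.const (S k 3)).mul (PF.coord 2))
  · show A v + B v + c = ∑ k, (S k 0 + S k 1 * v 0 + S k 2 * v 1 + S k 3 * v 2) ^ 2
    obtain ⟨x, hx⟩ : ∃ x : Fin 4 → ℝ, x = ![1, v 0, v 1, v 2] := ⟨_, rfl⟩
    have e0 : x 0 = 1 := by rw [hx]; rfl
    have e1 : x 1 = v 0 := by rw [hx]; rfl
    have e2 : x 2 = v 1 := by rw [hx]; rfl
    have e3 : x 3 = v 2 := by rw [hx]; rfl
    have h1 := hquad x
    rw [e0, e1, e2, e3, v_eta] at h1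
    have h2 : x ⬝ᵥ (M.mulVec x) = (S.mulVec x) ⬝ᵥ (S.mulVec x) := by
      rw [hS, ← Matrix.mulVec_mulVec, Matrix.dotProduct_mulVec]
      congr 1
      rw [Matrix.star_eq_conjTranspose, Matrix.vecMul_conjTranspose]
      simp
    have h4 : A v + B v + c = (S.mulVec x) ⬝ᵥ (S.mulVec x) := by
      rw [← h2, h1]
      ring
    rw [h4]
    unfold dotProduct
    apply Finset.sum_congr rfl
    intro k _
    have h3 : S.mulVec x k = S k 0 + S k 1 * v 0 + S k 2 * v 1 + S k 3 * v 2 := by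
      simp only [Matrix.mulVec, dotProduct, Fin.sum_univ_four, e0, e1, e2, e3]
      ring
    rw [h3, sq]

end Pool.Agent.Q192.HQ
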