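import Mathlib
import Pool.Agent.Q192.HQ.PFn

/-!
The inequality `f₃² ≤ C |x|² f₄`, and the degenerate case: if `f₄` does not depend on all
variables, then `f` is a sum of squares.
-/

namespace Pool.Agent.Q192.HQ

open Set

/-- The homogenised inequality. -/
theorem homog {f4 f3 f2 f1 : E → ℝ} (c : ℝ) (h4 : TF 4 f4) (h3 : TF 3 f3) (h2 : TF 2 f2)
    (h1 : TF 1 f1) (hn : ∀ v, 0 ≤ f4 v + f3 v + f2 v + f1 v + c) (s : ℝ) (v : E) :
    0 ≤ f4 v + s * f3 v + s ^ 2 * f2 v + s ^ 3 * f1 v + s ^ 4 * c := by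
  have hpos : ∀ (s : ℝ) (v : E), s ≠ 0 →
      0 ≤ f4 v + s * f3 v + s ^ 2 * f2 v + s ^ 3 * f1 v + s ^ 4 * c := by
    intro s v hs
    have e1 := hn (s⁻¹ • v)
    rw [h4.hom, h3.hom, h2.hom, h1.hom, pow_one] at e1
    have e2 : f4 v + s * f3 v + s ^ 2 * f2 v + s ^ 3 * f1 v + s ^ 4 * c =
        s ^ 4 * (s⁻¹ ^ 4 * f4 v + s⁻¹ ^ 3 * f3 v + s⁻¹ ^ 2 * f2 v + s⁻¹ * f1 v + c) := by
      field_simp
    rw [e2]
    exact mul_nonneg (by positivity) e1
  by_cases hs : s = 0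
  · subst hs
    exact lim_nonneg (g := fun s : ℝ => f4 v + s * f3 v + s ^ 2 * f2 v + s ^ 3 * f1 v +
      s ^ 4 * c) (by fun_prop) fun s hs => hpos s v hs.ne'
  · exact hpos s v hs

theorem top_nonneg {f4 f3 f2 f1 : E → ℝ} (c : ℝ) (h4 : TF 4 f4) (h3 : TF 3 f3) (h2 : TF 2 f2)
    (h1 : TF 1 f1) (hn : ∀ v, 0 ≤ f4 v + f3 v + f2 v + f1 v + c) (v : E) : 0 ≤ f4 v := by
  have := homog c h4 h3 h2 h1 hn 0 v
  simpa using this

theorem star_ineq {f4 f3 f2 f1 : E → ℝ} (c : ℝ) (h4 : TF 4 f4) (h3 : TF 3 f3) (h2 : TF 2 f2)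
    (h1 : TF 1 f1) (hn : ∀ v, 0 ≤ f4 v + f3 v + f2 v + f1 v + c) : T f4 f3 := by
  obtain ⟨C3, hC3, hC3'⟩ := h3.sq_bound
  obtain ⟨C2, hC2, hC2'⟩ := h2.sq_bound
  obtain ⟨C1, hC1, hC1'⟩ := h1.sq_bound
  set M : ℝ := C3 + C2 + C1 + c ^ 2 + 1 with hM
  have hM1 : 1 ≤ M := by nlinarith [sq_nonneg c]
  have habs : ∀ x : ℝ, x ^ 2 ≤ M → |x| ≤ M := by
    intro x hx
    by_contra hcon
    push Not at hcon
    have h2 := sq_abs x
    nlinarith
  -- on the sphere
  have key : ∀ w, N w = 1 → f3 w ^ 2 ≤ 12 * M * f4 w := by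
    intro w hw
    have b3 : |f3 w| ≤ M := habs _ (by
      have := hC3' w
      rw [hw, one_pow, mul_one] at this
      nlinarith [sq_nonneg c])
    have b2 : |f2 w| ≤ M := habs _ (by
      have := hC2' w
      rw [hw, one_pow, mul_one] at this
      nlinarith [sq_nonneg c])
    have b1 : |f1 w| ≤ M := habs _ (by
      have := hC1' w
      rw [hw, one_pow, mul_one] at this
      nlinarith [sq_nonneg c])
    have b0 : |c| ≤ M := habs _ (by nlinarith)
    set β := f3 w with hβ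
    set s : ℝ := -β / (6 * M) with hs
    have hs1 : |s| ≤ 1 := by
      rw [hs, abs_div, abs_neg, abs_of_pos (by positivity : 0 < 6 * M), div_le_one (by positivity)]
      linarith
    have h5 := homog c h4 h3 h2 h1 hn s w
    have hs2 : s ^ 2 ≤ 1 := by
      rw [← sq_abs]
      nlinarith [abs_nonneg s]
    have t2 : s ^ 2 * f2 w ≤ s ^ 2 * M :=
      mul_le_mul_of_nonneg_left ((le_abs_self _).trans b2) (sq_nonneg s)
    have t1 : s ^ 3 * f1 w ≤ s ^ 2 * M := by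
      calc s ^ 3 * f1 w ≤ |s ^ 3 * f1 w| := le_abs_self _
        _ = s ^ 2 * (|s| * |f1 w|) := by
          rw [abs_mul, abs_pow, pow_succ, sq_abs]
          ring
        _ ≤ s ^ 2 * (1 * M) := by
          apply mul_le_mul_of_nonneg_left _ (sq_nonneg s)
          exact mul_le_mul hs1 b1 (abs_nonneg _) zero_le_one
        _ = _ := by ring
    have t0 : s ^ 4 * c ≤ s ^ 2 * M := by
      calc s ^ 4 * c ≤ s ^ 4 * M := mul_le_mul_of_nonneg_left ((le_abs_self _).trans b0)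
            (by positivity)
        _ = s ^ 2 * (s ^ 2 * M) := by ring
        _ ≤ s ^ 2 * (1 * M) := by
          apply mul_le_mul_of_nonneg_left _ (sq_nonneg s)
          exact mul_le_mul_of_nonneg_right hs2 (by linarith)
        _ = _ := by ring
    have h6 : 0 ≤ f4 w + s * β + 3 * (s ^ 2 * M) := by linarith
    have h7 : f4 w + s * β + 3 * (s ^ 2 * M) = f4 w - β ^ 2 / (12 * M) := by
      rw [hs]
      field_simp
      ring
    rw [h7] at h6
    have h8 : β ^ 2 / (12 * M) ≤ f4 w := by linarith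
    rw [div_le_iff₀ (by positivity)] at h8
    linarith
  refine ⟨h3, 12 * M, by positivity, fun v => ?_⟩
  by_cases hv : v = 0
  · subst hv
    have e1 := h3.hom 0 0
    rw [smul_zero] at e1
    rw [e1]
    simp [N]
  · obtain ⟨s, hs, w, hw, rfl, hs2⟩ := scale_to_sphere hv
    rw [h3.hom, N_smul, h4.hom, hw]
    have := key w hw
    have h9 : 0 ≤ s ^ 6 := by positivity
    calc (s ^ 3 * f3 w) ^ 2 = s ^ 6 * f3 w ^ 2 := by ring
      _ ≤ s ^ 6 * (12 * M * f4 w) := mul_le_mul_of_nonneg_left this h9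
      _ = _ := by ring

/-- A nonnegative polynomial of degree at most four in two variables. -/
theorem bivariate {k4 k3 k2 k1 : ℝ → ℝ → ℝ} (c : ℝ) (h4 : BF 4 k4) (h3 : BF 3 k3) (h2 : BF 2 k2)
    (h1 : BF 1 k1) (hn : ∀ y z, 0 ≤ k4 y z + k3 y z + k2 y z + k1 y z + c) :
    SOSf (fun v => k4 (v 1) (v 2) + k3 (v 1) (v 2) + k2 (v 1) (v 2) + k1 (v 1) (v 2) + c) := by
  set H : E → ℝ := fun v => k4 (v 1) (v 2) + v 0 * k3 (v 1) (v 2) + v 0 * (v 0 * k2 (v 1) (v 2)) +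
    v 0 * (v 0 * (v 0 * k1 (v 1) (v 2))) + v 0 * (v 0 * (v 0 * (v 0 * c))) with hH
  have hH4 : TF 4 H := (((h4.toTF.add (h3.toTF.cmul 0)).add ((h2.toTF.cmul 0).cmul 0)).add
    (((h1.toTF.cmul 0).cmul 0).cmul 0)).add
    (((((TF.const c).cmul 0).cmul 0).cmul 0).cmul 0)
  have hpos : ∀ (s y z : ℝ), s ≠ 0 → 0 ≤ k4 y z + s * k3 y z + s * (s * k2 y z) +
      s * (s * (s * k1 y z)) + s * (s * (s * (s * c))) := by
    intro s y z hs
    have e1 := hn (s⁻¹ * y) (s⁻¹ * z)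
    rw [h4.hom, h3.hom, h2.hom, h1.hom, pow_one] at e1
    have e2 : k4 y z + s * k3 y z + s * (s * k2 y z) +
        s * (s * (s * k1 y z)) + s * (s * (s * (s * c))) =
        s ^ 4 * (s⁻¹ ^ 4 * k4 y z + s⁻¹ ^ 3 * k3 y z + s⁻¹ ^ 2 * k2 y z + s⁻¹ * k1 y z + c) := by
      field_simp
    rw [e2]
    exact mul_nonneg (by positivity) e1
  have hHn : ∀ v, 0 ≤ H v := by
    intro v
    by_cases hs : v 0 = 0
    · have := lim_nonneg (g := fun s : ℝ => k4 (v 1) (v 2) + s * k3 (v 1) (v 2) +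
        s * (s * k2 (v 1) (v 2)) + s * (s * (s * k1 (v 1) (v 2))) + s * (s * (s * (s * c))))
        (by fun_prop) fun s hs => hpos s _ _ hs.ne'
      simp only [hH, hs]
      exact this
    · exact hpos _ _ _ hs
  obtain ⟨r, q, hq, e⟩ := hilbert hH4 hHn
  have h5 : SOSf H := (SOSf.sum (p := q) fun i => (hq i).pf').of_eq e
  have h6 := h5.comp (φ := fun v => ![1, v 1, v 2]) (fun i => by
    fin_cases i
    · exact (PF.const 1).of_eq fun v => by simp
    · exact (PF.coord 1).of_eq fun v => by simp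
    · exact (PF.coord 2).of_eq fun v => by simp)
  exact h6.of_eq fun v => by
    simp only [hH, Matrix.cons_val_zero, Matrix.cons_val_one, Matrix.cons_val, one_mul]

/-- The degenerate case in normal form. -/
theorem dgn_core {f4 f3 f2 f1 : E → ℝ} (c : ℝ) (h4 : TF 4 f4) (h3 : TF 3 f3) (h2 : TF 2 f2)
    (h1 : TF 1 f1) (hn : ∀ v, 0 ≤ f4 v + f3 v + f2 v + f1 v + c)
    (hd : ∀ (v : E) (t : ℝ), f4 (v + t • ![1, 0, 0]) = f4 v) :
    SOSf (fun v => f4 v + f3 v + f2 v + f1 v + c) := by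
  -- coefficients
  have e4 : ∀ v : E, f4 v = f4 ![0, v 1, v 2] := by
    intro v
    rw [← hd ![0, v 1, v 2] (v 0)]
    congr 1
    funext i
    fin_cases i <;> simp
  obtain ⟨a3, l, hl, m, hm, n, hn3, e3⟩ := h3.exists_three
  obtain ⟨γ, m1, hm1, n2, hn2, e2⟩ := h2.exists_two
  obtain ⟨δ, n1, n1', e1⟩ := h1.exists_one
  obtain ⟨l1, l2, el⟩ := hl.exists_one
  set h : ℝ → ℝ → ℝ := fun y z => f4 ![0, y, z] with hh
  have hhB : BF 4 h := h4.restr
  set k1 : ℝ → ℝ → ℝ := fun y z => n1 * y + n1' * z with hk1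
  have hk1B : BF 1 k1 := BF.lin _ _
  have eG : ∀ v : E, f4 v + f3 v + f2 v + f1 v + c = v 0 ^ 3 * a3 +
      v 0 ^ 2 * (l (v 1) (v 2) + γ) + v 0 * (m (v 1) (v 2) + m1 (v 1) (v 2) + δ) +
      (h (v 1) (v 2) + n (v 1) (v 2) + n2 (v 1) (v 2) + k1 (v 1) (v 2) + c) := by
    intro v
    rw [e4 v, e3 v, e2 v, e1 v]
    simp only [hk1, hh]
    ring
  have hn' : ∀ x y z : ℝ, 0 ≤ x ^ 3 * a3 + x ^ 2 * (l y z + γ) + x * (m y z + m1 y z + δ) +
      (h y z + n y z + n2 y z + k1 y z + c) := by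
    intro x y z
    have := hn ![x, y, z]
    rw [eG] at this
    simpa using this
  have ha3 : a3 = 0 := cubic_zero (fun x => hn' x 0 0)
  have hdisc : ∀ y z, 0 ≤ l y z + γ ∧ 0 ≤ h y z + n y z + n2 y z + k1 y z + c ∧
      ((m y z + m1 y z + δ) / 2) ^ 2 ≤ (l y z + γ) * (h y z + n y z + n2 y z + k1 y z + c) := by
    intro y z
    apply disc
    intro x
    have := hn' x y z
    rw [ha3] at this
    refine this.trans (le_of_eq ?_)
    ring
  have hγ : 0 ≤ γ := by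
    have := (hdisc 0 0).1
    rw [hl.at_zero] at this
    linarith
  have hl0 : ∀ y z, l y z = 0 := by
    intro y z
    by_contra hne
    have h5 := (hdisc (-((γ + 1) / l y z) * y) (-((γ + 1) / l y z) * z)).1
    rw [hl.hom, pow_one] at h5
    have h6 : -((γ + 1) / l y z) * l y z = -(γ + 1) := by field_simp
    rw [h6] at h5
    linarith
  have hB0 : γ = 0 → ∀ y z, m y z + m1 y z + δ = 0 := by
    intro hγ0 y z
    have h5 := (hdisc y z).2.2
    rw [hl0, hγ0, add_zero, zero_mul] at h5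
    nlinarith [sq_nonneg ((m y z + m1 y z + δ) / 2)]
  -- the bivariate remainder
  set κ : ℝ := 1 / (4 * γ) with hκ
  have k4 : BF 4 (fun y z => h y z - κ * (m y z * m y z)) := hhB.sub ((hm.mul hm).smul κ)
  have k3 : BF 3 (fun y z => n y z - 2 * κ * (m y z * m1 y z)) :=
    hn3.sub ((hm.mul hm1).smul (2 * κ)) |>.of_eq fun y z => rfl
  have k2 : BF 2 (fun y z => n2 y z - κ * (m1 y z * m1 y z) - 2 * κ * δ * m y z) :=
    (hn2.sub ((hm1.mul hm1).smul κ)).sub (hm.smul (2 * κ * δ))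
  have k1' : BF 1 (fun y z => k1 y z - 2 * κ * δ * m1 y z) := hk1B.sub (hm1.smul (2 * κ * δ))
  have hK : ∀ y z, (h y z - κ * (m y z * m y z)) + (n y z - 2 * κ * (m y z * m1 y z)) +
      (n2 y z - κ * (m1 y z * m1 y z) - 2 * κ * δ * m y z) + (k1 y z - 2 * κ * δ * m1 y z) +
      (c - κ * δ ^ 2) = (h y z + n y z + n2 y z + k1 y z + c) -
        κ * (m y z + m1 y z + δ) ^ 2 := by
    intro y z
    ring
  have hKn : ∀ y z, 0 ≤ (h y z - κ * (m y z * m y z)) + (n y z - 2 * κ * (m y z * m1 y z)) +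
      (n2 y z - κ * (m1 y z * m1 y z) - 2 * κ * δ * m y z) + (k1 y z - 2 * κ * δ * m1 y z) +
      (c - κ * δ ^ 2) := by
    intro y z
    rw [hK]
    rcases hγ.eq_or_lt with h5 | h5
    · have h6 := hB0 h5.symm y z
      rw [h6]
      have := (hdisc y z).2.1
      simpa using this
    · have h6 := (hdisc y z).2.2
      rw [hl0, zero_add] at h6
      have h7 : κ * (m y z + m1 y z + δ) ^ 2 = ((m y z + m1 y z + δ) / 2) ^ 2 / γ := by
        rw [hκ]
        field_simp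
        ring
      rw [h7]
      have h8 : ((m y z + m1 y z + δ) / 2) ^ 2 / γ ≤ h y z + n y z + n2 y z + k1 y z + c := by
        rw [div_le_iff₀ h5]
        linarith
      linarith
  have hSK := bivariate (c - κ * δ ^ 2) k4 k3 k2 k1' hKn
  -- the square
  have hsq : SOSf (fun v => ∑ _i : Fin 1, (√γ * (v 0 + 2 * κ *
      (m (v 1) (v 2) + m1 (v 1) (v 2) + δ))) ^ 2) := by
    apply SOSf.sum
    intro _
    exact (PF.const √γ).mul ((PF.coord 0).add ((PF.const (2 * κ)).mul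
      ((hm.toTF.pf'.add hm1.toTF.pf').add (PF.const δ))))
  refine (hsq.add hSK).of_eq fun v => ?_
  rw [eG, ha3, hl0, hK]
  simp only [Finset.univ_unique, Finset.sum_const, Finset.card_singleton, one_smul]
  rw [mul_pow, Real.sq_sqrt hγ]
  rcases hγ.eq_or_lt with h5 | h5
  · have h6 := hB0 h5.symm (v 1) (v 2)
    rw [h6, ← h5]
    ring
  · rw [hκ]
    field_simp
    ring

/-- **The degenerate case.** -/
theorem dgn {f4 f3 f2 f1 : E → ℝ} (c : ℝ) (h4 : TF 4 f4) (h3 : TF 3 f3) (h2 : TF 2 f2)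
    (h1 : TF 1 f1) (hn : ∀ v, 0 ≤ f4 v + f3 v + f2 v + f1 v + c) (hd : Deg f4) :
    SOSf (fun v => f4 v + f3 v + f2 v + f1 v + c) := by
  obtain ⟨b, hb, hb'⟩ := hd
  obtain ⟨φ, ψ, hs, e⟩ := sub_to_e1 hb
  have key := dgn_core c (h4.comp hs.l) (h3.comp hs.l) (h2.comp hs.l) (h1.comp hs.l)
    (fun v => hn _) (fun v t => by
      rw [hs.l.add, hs.l.smul, e]
      exact hb' _ _)
  refine (key.comp (φ := ψ) fun i => (hs.r i).pf').of_eq fun v => ?_
  simp only [hs.lr]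

end Pool.Agent.Q192.HQ
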