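import Mathlib
import Pool.Agent.Q192.HQ.Dgn

/-!
The heat evolution of polynomials in three variables.
-/

namespace Pool.Agent.Q192.HQ

open MvPolynomial Finset

/-- The Laplacian. -/
noncomputable def lap (f : MvPolynomial (Fin 3) ℝ) : MvPolynomial (Fin 3) ℝ :=
  ∑ i, pderiv i (pderiv i f)

/-- The heat evolution `∑ k, t ^ k / k! • Δ ^ k f` (the terms with `k > deg f` vanish). -/
noncomputable def heat (f : MvPolynomial (Fin 3) ℝ) (t : ℝ) : MvPolynomial (Fin 3) ℝ :=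
  ∑ k ∈ range (f.totalDegree + 1), C (t ^ k / k.factorial) * lap^[k] f

theorem lap_zero : lap 0 = 0 := by simp [lap]

theorem lap_add (P Q : MvPolynomial (Fin 3) ℝ) : lap (P + Q) = lap P + lap Q := by
  simp only [lap, map_add, sum_add_distrib]

theorem lap_sum {ι : Type} (s : Finset ι) (P : ι → MvPolynomial (Fin 3) ℝ) :
    lap (∑ j ∈ s, P j) = ∑ j ∈ s, lap (P j) := by
  simp only [lap, map_sum]
  rw [sum_comm]

theorem lap_C (a : ℝ) : lap (C a) = 0 := by simp [lap]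

theorem lap_mul (P Q : MvPolynomial (Fin 3) ℝ) :
    lap (P * Q) = lap P * Q + P * lap Q + 2 * ∑ i, pderiv i P * pderiv i Q := by
  simp only [lap, Fin.sum_univ_three, pderiv_mul, map_add]
  ring

theorem lap_C_mul (a : ℝ) (Q : MvPolynomial (Fin 3) ℝ) : lap (C a * Q) = C a * lap Q := by
  rw [lap_mul, lap_C]
  simp

theorem hom_zero {P : MvPolynomial (Fin 3) ℝ} (h : P.IsHomogeneous 0) : ∃ a, P = C a := by
  rw [← totalDegree_zero_iff_isHomogeneous, totalDegree_eq_zero_iff_eq_C] at h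
  exact ⟨_, h⟩

theorem lap_low {P : MvPolynomial (Fin 3) ℝ} {n : ℕ} (h : P.IsHomogeneous n) (hn : n ≤ 1) :
    lap P = 0 := by
  unfold lap
  apply sum_eq_zero
  intro i _
  have h1 := h.pderiv (i := i)
  rw [show n - 1 = 0 by omega] at h1
  obtain ⟨a, ha⟩ := hom_zero h1
  rw [ha, pderiv_C]

theorem lap_hom {P : MvPolynomial (Fin 3) ℝ} {n : ℕ} (h : P.IsHomogeneous n) :
    (lap P).IsHomogeneous (n - 2) := by
  unfold lap
  apply IsHomogeneous.sum
  intro i _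
  have := (h.pderiv (i := i)).pderiv (i := i)
  rwa [show n - 1 - 1 = n - 2 by omega] at this

theorem lap_iterate_zero (k : ℕ) : lap^[k] 0 = 0 := by
  induction k with
  | zero => rfl
  | succ k ih => rw [Function.iterate_succ_apply, lap_zero, ih]

theorem lap_iterate_sum {ι : Type} (s : Finset ι) (k : ℕ) (P : ι → MvPolynomial (Fin 3) ℝ) :
    lap^[k] (∑ j ∈ s, P j) = ∑ j ∈ s, lap^[k] (P j) := by
  induction k generalizing P with
  | zero => rfl
  | succ k ih =>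
    rw [Function.iterate_succ_apply, lap_sum, ih]
    rfl

theorem lap_iterate_hom (k : ℕ) : ∀ {n : ℕ} {P : MvPolynomial (Fin 3) ℝ}, P.IsHomogeneous n →
    n < 2 * k → lap^[k] P = 0 := by
  induction k with
  | zero => intro n P _ h; omega
  | succ k ih =>
    intro n P hP hn
    rw [Function.iterate_succ_apply]
    by_cases h1 : n ≤ 1
    · rw [lap_low hP h1, lap_iterate_zero]
    · exact ih (lap_hom hP) (by omega)

theorem lap_iterate_eq_zero {f : MvPolynomial (Fin 3) ℝ} {k : ℕ} (h : f.totalDegree < 2 * k) :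
    lap^[k] f = 0 := by
  conv_lhs => rw [← sum_homogeneousComponent f]
  rw [lap_iterate_sum]
  apply sum_eq_zero
  intro i hi
  rw [mem_range] at hi
  exact lap_iterate_hom k (homogeneousComponent_isHomogeneous i f) (by omega)

theorem heat_eq {f : MvPolynomial (Fin 3) ℝ} {N : ℕ} (h : f.totalDegree < 2 * N) (t : ℝ) :
    ∑ k ∈ range N, C (t ^ k / k.factorial) * lap^[k] f = heat f t := by
  have key : ∀ N M : ℕ, f.totalDegree < 2 * N → N ≤ M →
      ∑ k ∈ range N, C (t ^ k / k.factorial) * lap^[k] f =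
        ∑ k ∈ range M, C (t ^ k / k.factorial) * lap^[k] f := by
    intro N M hN hM
    apply sum_subset (range_subset_range.2 hM)
    intro k _ hk
    rw [mem_range, not_lt] at hk
    rw [lap_iterate_eq_zero (by omega), mul_zero]
  rw [heat, key N (max N (f.totalDegree + 1)) h (le_max_left _ _),
    key (f.totalDegree + 1) (max N (f.totalDegree + 1)) (by omega) (le_max_right _ _)]

theorem heat_four {f : MvPolynomial (Fin 3) ℝ} (h : f.totalDegree ≤ 4) (t : ℝ) :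
    heat f t = f + C t * lap f + C (t ^ 2 / 2) * lap (lap f) := by
  rw [← heat_eq (N := 3) (by omega)]
  simp only [sum_range_succ, sum_range_zero, zero_add, Function.iterate_zero, id_eq,
    Function.iterate_succ, Function.comp_apply, pow_zero, pow_one, Nat.factorial]
  norm_num

/-- Explicit quadratic forms. -/
noncomputable def q2 (a m1 m2 n1 n2 n3 : ℝ) : MvPolynomial (Fin 3) ℝ :=
  C a * (X 0 * X 0) + C m1 * (X 0 * X 1) + C m2 * (X 0 * X 2) + C n1 * (X 1 * X 1) +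
    C n2 * (X 1 * X 2) + C n3 * (X 2 * X 2)

/-- Explicit linear forms. -/
noncomputable def l1 (a b c : ℝ) : MvPolynomial (Fin 3) ℝ := C a * X 0 + C b * X 1 + C c * X 2

theorem eval_q2 (a m1 m2 n1 n2 n3 : ℝ) (v : E) : eval v (q2 a m1 m2 n1 n2 n3) =
    a * v 0 ^ 2 + m1 * (v 0 * v 1) + m2 * (v 0 * v 2) + n1 * v 1 ^ 2 + n2 * (v 1 * v 2) +
      n3 * v 2 ^ 2 := by
  simp only [q2, map_add, map_mul, eval_C, eval_X]
  ring

theorem eval_l1 (a b c : ℝ) (v : E) : eval v (l1 a b c) = a * v 0 + b * v 1 + c * v 2 := by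
  simp only [l1, map_add, map_mul, eval_C, eval_X]

theorem pderiv_l1_0 (a b c : ℝ) : pderiv 0 (l1 a b c) = C a := by
  simp [l1]

theorem pderiv_l1_1 (a b c : ℝ) : pderiv 1 (l1 a b c) = C b := by
  simp [l1]

theorem pderiv_l1_2 (a b c : ℝ) : pderiv 2 (l1 a b c) = C c := by
  simp [l1]

theorem pderiv_q2_0 (a m1 m2 n1 n2 n3 : ℝ) : pderiv 0 (q2 a m1 m2 n1 n2 n3) = l1 (2 * a) m1 m2 := by
  have h1 : pderiv (0 : Fin 3) (X 1 : MvPolynomial (Fin 3) ℝ) = 0 := pderiv_X_of_ne (by decide)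
  have h2 : pderiv (0 : Fin 3) (X 2 : MvPolynomial (Fin 3) ℝ) = 0 := pderiv_X_of_ne (by decide)
  simp only [q2, l1, map_add, pderiv_C, pderiv_mul, pderiv_X_self, h1, h2, map_mul, mul_zero,
    zero_mul, add_zero, one_mul, mul_one]
  simp only [map_ofNat]
  ring

theorem pderiv_q2_1 (a m1 m2 n1 n2 n3 : ℝ) : pderiv 1 (q2 a m1 m2 n1 n2 n3) = l1 m1 (2 * n1) n2 := by
  have h1 : pderiv (1 : Fin 3) (X 0 : MvPolynomial (Fin 3) ℝ) = 0 := pderiv_X_of_ne (by decide)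
  have h2 : pderiv (1 : Fin 3) (X 2 : MvPolynomial (Fin 3) ℝ) = 0 := pderiv_X_of_ne (by decide)
  simp only [q2, l1, map_add, pderiv_C, pderiv_mul, pderiv_X_self, h1, h2, map_mul, mul_zero,
    zero_mul, add_zero, zero_add, one_mul, mul_one]
  simp only [map_ofNat]
  ring

theorem pderiv_q2_2 (a m1 m2 n1 n2 n3 : ℝ) : pderiv 2 (q2 a m1 m2 n1 n2 n3) = l1 m2 n2 (2 * n3) := by
  have h1 : pderiv (2 : Fin 3) (X 0 : MvPolynomial (Fin 3) ℝ) = 0 := pderiv_X_of_ne (by decide)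
  have h2 : pderiv (2 : Fin 3) (X 1 : MvPolynomial (Fin 3) ℝ) = 0 := pderiv_X_of_ne (by decide)
  simp only [q2, l1, map_add, pderiv_C, pderiv_mul, pderiv_X_self, h1, h2, map_mul, mul_zero,
    zero_mul, add_zero, zero_add, one_mul, mul_one]
  simp only [map_ofNat]
  ring

theorem lap_l1 (a b c : ℝ) : lap (l1 a b c) = 0 := by
  simp only [lap, Fin.sum_univ_three, pderiv_l1_0, pderiv_l1_1, pderiv_l1_2, pderiv_C, add_zero]

theorem lap_q2 (a m1 m2 n1 n2 n3 : ℝ) :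
    lap (q2 a m1 m2 n1 n2 n3) = C (2 * a + 2 * n1 + 2 * n3) := by
  simp only [lap, Fin.sum_univ_three, pderiv_q2_0, pderiv_q2_1, pderiv_q2_2, pderiv_l1_0,
    pderiv_l1_1, pderiv_l1_2, map_add]

theorem lap_l1_mul (a b c a' b' c' : ℝ) :
    lap (l1 a b c * l1 a' b' c') = C (2 * (a * a' + b * b' + c * c')) := by
  rw [lap_mul, lap_l1, lap_l1]
  simp only [Fin.sum_univ_three, pderiv_l1_0, pderiv_l1_1, pderiv_l1_2, map_mul, map_add,
    map_ofNat]
  ring

theorem lap_q2_sq (a m1 m2 n1 n2 n3 : ℝ) :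
    lap (q2 a m1 m2 n1 n2 n3 * q2 a m1 m2 n1 n2 n3) =
      C (2 * (2 * a + 2 * n1 + 2 * n3)) * q2 a m1 m2 n1 n2 n3 +
      C 2 * (l1 (2 * a) m1 m2 * l1 (2 * a) m1 m2 + l1 m1 (2 * n1) n2 * l1 m1 (2 * n1) n2 +
        l1 m2 n2 (2 * n3) * l1 m2 n2 (2 * n3)) := by
  rw [lap_mul, lap_q2]
  simp only [Fin.sum_univ_three, pderiv_q2_0, pderiv_q2_1, pderiv_q2_2]
  rw [C_mul, map_ofNat]
  ring

theorem lap_lap_q2_sq (a m1 m2 n1 n2 n3 : ℝ) :
    lap (lap (q2 a m1 m2 n1 n2 n3 * q2 a m1 m2 n1 n2 n3)) =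
      C (2 * (2 * a + 2 * n1 + 2 * n3) ^ 2 + 4 * ((2 * a) ^ 2 + m1 ^ 2 + m2 ^ 2 +
        (m1 ^ 2 + (2 * n1) ^ 2 + n2 ^ 2) + (m2 ^ 2 + n2 ^ 2 + (2 * n3) ^ 2))) := by
  rw [lap_q2_sq]
  simp only [lap_add, lap_C_mul, lap_q2, lap_l1_mul]
  simp only [← C_mul, ← C_add]
  congr 1
  ring

theorem lap_q2_l1 (a m1 m2 n1 n2 n3 a' b' c' : ℝ) :
    lap (q2 a m1 m2 n1 n2 n3 * l1 a' b' c') =
      C (2 * a + 2 * n1 + 2 * n3) * l1 a' b' c' +
      C 2 * (C a' * l1 (2 * a) m1 m2 + C b' * l1 m1 (2 * n1) n2 + C c' * l1 m2 n2 (2 * n3)) := by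
  rw [lap_mul, lap_q2, lap_l1]
  simp only [Fin.sum_univ_three, pderiv_q2_0, pderiv_q2_1, pderiv_q2_2, pderiv_l1_0, pderiv_l1_1,
    pderiv_l1_2]
  rw [map_ofNat C 2]
  ring

theorem lap_lap_q2_l1 (a m1 m2 n1 n2 n3 a' b' c' : ℝ) :
    lap (lap (q2 a m1 m2 n1 n2 n3 * l1 a' b' c')) = 0 := by
  rw [lap_q2_l1]
  simp only [lap_add, lap_C_mul, lap_l1, mul_zero, add_zero]

end Pool.Agent.Q192.HQ
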