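import Mathlib
import Pool.Agent.Q192.HQ.Heat

/-!
The heat evolution of a nonnegative quartic becomes a sum of squares.
-/

namespace Pool.Agent.Q192.HQ

open MvPolynomial Finset

theorem TF.q2 {q : E → ℝ} (h : TF 2 q) :
    ∃ a m1 m2 n1 n2 n3, ∀ v, q v = eval v (q2 a m1 m2 n1 n2 n3) := by
  obtain ⟨a, m, hm, n, hn, e⟩ := h.exists_two
  obtain ⟨m1, m2, em⟩ := hm.exists_one
  obtain ⟨n1, n2, n3, en⟩ := hn.exists_two
  exact ⟨a, m1, m2, n1, n2, n3, fun v => by rw [e, em, en, eval_q2]; ring⟩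

theorem TF.l1 {q : E → ℝ} (h : TF 1 q) : ∃ a b c, ∀ v, q v = eval v (l1 a b c) := by
  obtain ⟨a, b, c, e⟩ := h.exists_one
  exact ⟨a, b, c, fun v => by rw [e, eval_l1]⟩

theorem tf_l1 (a b c : ℝ) : TF 1 (fun v => eval v (HQ.l1 a b c)) :=
  (TF.lin a b c).of_eq fun v => by rw [eval_l1]

theorem tf_q2 (a m1 m2 n1 n2 n3 : ℝ) : TF 2 (fun v => eval v (HQ.q2 a m1 m2 n1 n2 n3)) :=
  ((((((((TF.coord 0).cmul 0).smul a).add (((TF.coord 1).cmul 0).smul m1)).add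
    (((TF.coord 2).cmul 0).smul m2)).add (((TF.coord 1).cmul 1).smul n1)).add
    (((TF.coord 2).cmul 1).smul n2)).add (((TF.coord 2).cmul 2).smul n3)).of_eq fun v => by
      rw [eval_q2]; ring

theorem pos_bound {F2 S f1 D : E → ℝ} (hF2 : TF 2 F2) (hS : TF 2 S) (hf1 : TF 1 f1) (hD : TF 1 D)
    (hSpos : ∀ v, v ≠ 0 → 0 < S v) {σ : ℝ} (hσ : 0 < σ) (κ c : ℝ) :
    ∃ T > 0, ∀ t ≥ T, ∀ v, 0 ≤ (F2 v + 2 * t * S v) + (f1 v + 2 * t * D v) +
      (c + t * κ + 2 * t ^ 2 * σ) := by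
  obtain ⟨s0, hs0, hlow⟩ := TF.pos_lower (n := 1) hS hSpos
  obtain ⟨a, ha, hF⟩ := TF.bound (n := 1) hF2
  obtain ⟨b1, hb1, hf⟩ := hf1.sq_bound
  obtain ⟨b2, hb2, hDb⟩ := hD.sq_bound
  simp only [pow_one] at hlow hF hf hDb
  set W : ℝ := |κ| + b2 / s0 + b1 / 4 + |c| with hW
  have hW0 : 0 ≤ W := by positivity
  refine ⟨(a + 1) / s0 + W / (2 * σ) + 1, by positivity, fun t ht v => ?_⟩
  have e1 : 0 ≤ (a + 1) / s0 := by positivity
  have e2 : 0 ≤ W / (2 * σ) := by positivity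
  have t1 : 1 ≤ t := by linarith
  have t2 : a + 1 ≤ t * s0 := by
    have : (a + 1) / s0 ≤ t := by linarith
    rwa [div_le_iff₀ hs0] at this
  have t3 : W ≤ t * (2 * σ) := by
    have : W / (2 * σ) ≤ t := by linarith
    rwa [div_le_iff₀ (by positivity)] at this
  have hN := N_nonneg v
  have g1 : -(N v + b1 / 4) ≤ f1 v := by
    have : f1 v ^ 2 ≤ (N v + b1 / 4) ^ 2 := by nlinarith [hf v, sq_nonneg (N v - b1 / 4)]
    exact (abs_le_of_sq_le_sq' this (by positivity)).1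
  have g2 : -(s0 / 2 * N v + b2 / (2 * s0)) ≤ D v := by
    have h3 : (s0 / 2 * N v + b2 / (2 * s0)) ^ 2 =
        (s0 / 2 * N v - b2 / (2 * s0)) ^ 2 + b2 * N v := by
      field_simp
      ring
    have : D v ^ 2 ≤ (s0 / 2 * N v + b2 / (2 * s0)) ^ 2 := by
      rw [h3]
      nlinarith [hDb v, sq_nonneg (s0 / 2 * N v - b2 / (2 * s0))]
    exact (abs_le_of_sq_le_sq' this (by positivity)).1
  have g3 : -(a * N v) ≤ F2 v := (abs_le.1 (hF v)).1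
  have g4 := hlow v
  have h5 : 2 * t * (s0 * N v) ≤ 2 * t * S v := mul_le_mul_of_nonneg_left g4 (by linarith)
  have h6 : 2 * t * -(s0 / 2 * N v + b2 / (2 * s0)) ≤ 2 * t * D v :=
    mul_le_mul_of_nonneg_left g2 (by linarith)
  have h7 : 2 * t * -(s0 / 2 * N v + b2 / (2 * s0)) = -(t * s0 * N v) - t * (b2 / s0) := by
    field_simp
    ring
  have h8 : (a + 1) * N v ≤ t * s0 * N v := mul_le_mul_of_nonneg_right t2 hN
  have h9 : t * W ≤ 2 * t ^ 2 * σ := by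
    calc t * W ≤ t * (t * (2 * σ)) := mul_le_mul_of_nonneg_left t3 (by linarith)
      _ = _ := by ring
  have h10 : t * W = t * |κ| + t * (b2 / s0) + t * (b1 / 4) + t * |c| := by rw [hW]; ring
  have h11 : b1 / 4 ≤ t * (b1 / 4) := le_mul_of_one_le_left (by positivity) t1
  have h12 : |c| ≤ t * |c| := le_mul_of_one_le_left (abs_nonneg c) t1
  have h13 : -(t * |κ|) ≤ t * κ := by
    have := neg_abs_le κ
    nlinarith
  have h14 := neg_abs_le c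
  nlinarith

theorem sum_identity {ι : Type} [Fintype ι] (q L g δ d σ : ι → ℝ) (t f2 f1 c κ : ℝ) :
    (∑ j, q j * q j + ∑ j, q j * L j + f2 + f1 + c) +
      t * (∑ j, (2 * δ j * q j + 2 * g j) + ∑ j, (δ j * L j + 2 * d j) + κ) +
      t ^ 2 / 2 * ∑ j, (2 * δ j ^ 2 + 4 * σ j) =
    ∑ j, (q j + t * δ j + 1 / 2 * L j) ^ 2 + ((f2 - ∑ j, 1 / 4 * (L j * L j) + 2 * t * ∑ j, g j) +
      (f1 + 2 * t * ∑ j, d j) + (c + t * κ + 2 * t ^ 2 * ∑ j, σ j)) := by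
  have h : ∀ j, (q j + t * δ j + 1 / 2 * L j) ^ 2 = q j * q j + q j * L j +
      t * (2 * δ j * q j) + t * (δ j * L j) + t ^ 2 * (δ j ^ 2) + 1 / 4 * (L j * L j) := by
    intro j
    ring
  rw [sum_congr rfl (fun j _ => h j)]
  simp only [sum_add_distrib, ← mul_sum]
  ring

theorem core {ι : Type} [Fintype ι] (a m1 m2 n1 n2 n3 b0 b1 b2 : ι → ℝ)
    (A M1 M2 N1 N2 N3 B0 B1 B2 c : ℝ) {f : MvPolynomial (Fin 3) ℝ}
    (hf : f = ∑ j, HQ.q2 (a j) (m1 j) (m2 j) (n1 j) (n2 j) (n3 j) *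
        HQ.q2 (a j) (m1 j) (m2 j) (n1 j) (n2 j) (n3 j) +
      ∑ j, HQ.q2 (a j) (m1 j) (m2 j) (n1 j) (n2 j) (n3 j) * HQ.l1 (b0 j) (b1 j) (b2 j) +
      HQ.q2 A M1 M2 N1 N2 N3 + HQ.l1 B0 B1 B2 + C c) (hdeg : f.totalDegree ≤ 4)
    (hS : ∀ v : E, v ≠ 0 → 0 < ∑ j, (eval v (HQ.l1 (2 * a j) (m1 j) (m2 j)) ^ 2 +
      eval v (HQ.l1 (m1 j) (2 * n1 j) (n2 j)) ^ 2 + eval v (HQ.l1 (m2 j) (n2 j) (2 * n3 j)) ^ 2)) :
    ∃ T > 0, ∀ t ≥ T, IsSOS (heat f t) := by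
  set S : E → ℝ := fun v => ∑ j, (eval v (HQ.l1 (2 * a j) (m1 j) (m2 j)) ^ 2 +
      eval v (HQ.l1 (m1 j) (2 * n1 j) (n2 j)) ^ 2 + eval v (HQ.l1 (m2 j) (n2 j) (2 * n3 j)) ^ 2)
    with hSdef
  have hSTF : TF 2 S := TF.sum _ fun j _ => by
    refine ((((tf_l1 (2 * a j) (m1 j) (m2 j)).mul (tf_l1 (2 * a j) (m1 j) (m2 j))).add
      ((tf_l1 (m1 j) (2 * n1 j) (n2 j)).mul (tf_l1 (m1 j) (2 * n1 j) (n2 j)))).add
      ((tf_l1 (m2 j) (n2 j) (2 * n3 j)).mul (tf_l1 (m2 j) (n2 j) (2 * n3 j)))).of_eq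
      fun v => by ring
  set D : E → ℝ := fun v => ∑ j, (b0 j * eval v (HQ.l1 (2 * a j) (m1 j) (m2 j)) +
      b1 j * eval v (HQ.l1 (m1 j) (2 * n1 j) (n2 j)) +
      b2 j * eval v (HQ.l1 (m2 j) (n2 j) (2 * n3 j))) with hDdef
  have hDTF : TF 1 D := TF.sum _ fun j _ =>
    (((tf_l1 _ _ _).smul (b0 j)).add ((tf_l1 _ _ _).smul (b1 j))).add
      ((tf_l1 _ _ _).smul (b2 j))
  set F2 : E → ℝ := fun v => eval v (HQ.q2 A M1 M2 N1 N2 N3) -
    ∑ j, (1 / 4 : ℝ) * (eval v (HQ.l1 (b0 j) (b1 j) (b2 j)) *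
      eval v (HQ.l1 (b0 j) (b1 j) (b2 j))) with hF2
  have hF2TF : TF 2 F2 := (tf_q2 _ _ _ _ _ _).sub (TF.sum _ fun j _ =>
    ((tf_l1 _ _ _).mul (tf_l1 _ _ _)).smul _)
  set σ : ℝ := ∑ j, ((2 * a j) ^ 2 + m1 j ^ 2 + m2 j ^ 2 +
        (m1 j ^ 2 + (2 * n1 j) ^ 2 + n2 j ^ 2) + (m2 j ^ 2 + n2 j ^ 2 + (2 * n3 j) ^ 2)) with hσdef
  have hσ : 0 < σ := by
    have h1 := hS ![1, 0, 0] (fun e => by simpa using congrFun e 0)
    refine lt_of_lt_of_le h1 (sum_le_sum fun j _ => ?_)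
    rw [eval_l1, eval_l1, eval_l1]
    simp only [Matrix.cons_val_one, Matrix.cons_val, Matrix.cons_val_zero]
    nlinarith [sq_nonneg (m1 j), sq_nonneg (m2 j), sq_nonneg (n1 j), sq_nonneg (n2 j),
      sq_nonneg (n3 j)]
  set κ : ℝ := 2 * A + 2 * N1 + 2 * N3 with hκ
  obtain ⟨T, hT, hpos⟩ := pos_bound hF2TF hSTF (tf_l1 B0 B1 B2) hDTF hS hσ κ c
  refine ⟨T, hT, fun t ht => SOSf.isSOS ?_⟩
  have hR := quad_sos (c + t * κ + 2 * t ^ 2 * σ) (hF2TF.add (hSTF.smul (2 * t)))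
    ((tf_l1 B0 B1 B2).add (hDTF.smul (2 * t))) (hpos t ht)
  have hQ : SOSf (fun v : E => ∑ j, (eval v (HQ.q2 (a j) (m1 j) (m2 j) (n1 j) (n2 j) (n3 j)) +
      t * (2 * a j + 2 * n1 j + 2 * n3 j) +
      (1 / 2) * eval v (HQ.l1 (b0 j) (b1 j) (b2 j))) ^ 2) := by
    apply SOSf.sum
    intro j
    exact ((tf_q2 _ _ _ _ _ _).pf'.add (PF.const _)).add ((PF.const (1 / 2)).mul
      (tf_l1 _ _ _).pf')
  refine (hQ.add hR).of_eq fun v => ?_
  rw [heat_four hdeg]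
  have l1' : lap f = ∑ j, lap (HQ.q2 (a j) (m1 j) (m2 j) (n1 j) (n2 j) (n3 j) *
        HQ.q2 (a j) (m1 j) (m2 j) (n1 j) (n2 j) (n3 j)) +
      ∑ j, lap (HQ.q2 (a j) (m1 j) (m2 j) (n1 j) (n2 j) (n3 j) * HQ.l1 (b0 j) (b1 j) (b2 j)) +
      C κ := by
    rw [hf, hκ]
    simp only [lap_add, lap_sum, lap_q2, lap_l1, lap_C, add_zero]
  have l2' : lap (lap f) = ∑ j, lap (lap (HQ.q2 (a j) (m1 j) (m2 j) (n1 j) (n2 j) (n3 j) *
        HQ.q2 (a j) (m1 j) (m2 j) (n1 j) (n2 j) (n3 j))) := by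
    rw [l1']
    simp only [lap_add, lap_sum, lap_C, add_zero, lap_lap_q2_l1, sum_const_zero]
  have key := sum_identity (fun j => eval v (HQ.q2 (a j) (m1 j) (m2 j) (n1 j) (n2 j) (n3 j)))
    (fun j => eval v (HQ.l1 (b0 j) (b1 j) (b2 j)))
    (fun j => eval v (HQ.l1 (2 * a j) (m1 j) (m2 j)) ^ 2 +
      eval v (HQ.l1 (m1 j) (2 * n1 j) (n2 j)) ^ 2 + eval v (HQ.l1 (m2 j) (n2 j) (2 * n3 j)) ^ 2)
    (fun j => 2 * a j + 2 * n1 j + 2 * n3 j)
    (fun j => b0 j * eval v (HQ.l1 (2 * a j) (m1 j) (m2 j)) +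
      b1 j * eval v (HQ.l1 (m1 j) (2 * n1 j) (n2 j)) +
      b2 j * eval v (HQ.l1 (m2 j) (n2 j) (2 * n3 j)))
    (fun j => (2 * a j) ^ 2 + m1 j ^ 2 + m2 j ^ 2 +
        (m1 j ^ 2 + (2 * n1 j) ^ 2 + n2 j ^ 2) + (m2 j ^ 2 + n2 j ^ 2 + (2 * n3 j) ^ 2))
    t (eval v (HQ.q2 A M1 M2 N1 N2 N3)) (eval v (HQ.l1 B0 B1 B2)) c κ
  have s1 : ∀ j, eval v (lap (HQ.q2 (a j) (m1 j) (m2 j) (n1 j) (n2 j) (n3 j) *
      HQ.q2 (a j) (m1 j) (m2 j) (n1 j) (n2 j) (n3 j))) =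
      2 * (2 * a j + 2 * n1 j + 2 * n3 j) *
        eval v (HQ.q2 (a j) (m1 j) (m2 j) (n1 j) (n2 j) (n3 j)) +
      2 * (eval v (HQ.l1 (2 * a j) (m1 j) (m2 j)) ^ 2 +
      eval v (HQ.l1 (m1 j) (2 * n1 j) (n2 j)) ^ 2 +
        eval v (HQ.l1 (m2 j) (n2 j) (2 * n3 j)) ^ 2) := by
    intro j
    rw [lap_q2_sq]
    simp only [map_add, map_mul, eval_C]
    ring
  have s2 : ∀ j, eval v (lap (HQ.q2 (a j) (m1 j) (m2 j) (n1 j) (n2 j) (n3 j) *
      HQ.l1 (b0 j) (b1 j) (b2 j))) =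
      (2 * a j + 2 * n1 j + 2 * n3 j) * eval v (HQ.l1 (b0 j) (b1 j) (b2 j)) +
      2 * (b0 j * eval v (HQ.l1 (2 * a j) (m1 j) (m2 j)) +
      b1 j * eval v (HQ.l1 (m1 j) (2 * n1 j) (n2 j)) +
      b2 j * eval v (HQ.l1 (m2 j) (n2 j) (2 * n3 j))) := by
    intro j
    rw [lap_q2_l1]
    simp only [map_add, map_mul, eval_C]
  have s3 : ∀ j, eval v (lap (lap (HQ.q2 (a j) (m1 j) (m2 j) (n1 j) (n2 j) (n3 j) *
      HQ.q2 (a j) (m1 j) (m2 j) (n1 j) (n2 j) (n3 j)))) =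
      2 * (2 * a j + 2 * n1 j + 2 * n3 j) ^ 2 + 4 * ((2 * a j) ^ 2 + m1 j ^ 2 + m2 j ^ 2 +
        (m1 j ^ 2 + (2 * n1 j) ^ 2 + n2 j ^ 2) + (m2 j ^ 2 + n2 j ^ 2 + (2 * n3 j) ^ 2)) := by
    intro j
    rw [lap_lap_q2_sq, eval_C]
  refine Eq.trans ?_ key
  rw [l2', l1', hf]
  rw [map_add, map_add, map_mul, map_mul, eval_C, eval_C, map_add (eval v), map_add (eval v),
    map_add (eval v), map_add (eval v), map_add (eval v), map_add (eval v), map_sum, map_sum,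
    map_sum, map_sum, map_sum, eval_C, eval_C]
  simp only [s1, s2, s3, map_mul]

theorem VR_coord {F c : E → ℝ} (hc : c ∈ VR F) :
    ∃ u : Fin 3 → E → ℝ, (∀ i, u i ∈ V F) ∧ ∀ v, c v = ∑ i, v i * u i v := by
  refine Submodule.span_induction (p := fun c _ => ∃ u : Fin 3 → E → ℝ, (∀ i, u i ∈ V F) ∧
    ∀ v, c v = ∑ i, v i * u i v) ?_ ?_ ?_ ?_ hc
  · rintro _ ⟨q, hq, l, hl, rfl⟩
    obtain ⟨a, b, c, e⟩ := hl.exists_one
    refine ⟨fun i => (![a, b, c] : Fin 3 → ℝ) i • q, fun i => (V F).smul_mem _ hq, fun v => ?_⟩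
    show q v * l v = _
    rw [e, Fin.sum_univ_three]
    simp only [Pi.smul_apply, smul_eq_mul, Matrix.cons_val_zero, Matrix.cons_val_one,
      Matrix.cons_val]
    ring
  · exact ⟨fun _ => 0, fun _ => (V F).zero_mem, fun v => by simp⟩
  · rintro x y _ _ ⟨u, hu, eu⟩ ⟨w, hw, ew⟩
    refine ⟨fun i => u i + w i, fun i => (V F).add_mem (hu i) (hw i), fun v => ?_⟩
    simp only [Pi.add_apply, eu, ew, mul_add, sum_add_distrib]
  · rintro a x _ ⟨u, hu, eu⟩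
    refine ⟨fun i => a • u i, fun i => (V F).smul_mem a (hu i), fun v => ?_⟩
    simp only [Pi.smul_apply, smul_eq_mul, eu, mul_sum]
    apply sum_congr rfl
    intro i _
    ring

theorem four_components {f : MvPolynomial (Fin 3) ℝ} (hdeg : f.totalDegree ≤ 4) :
    f = homogeneousComponent 4 f + homogeneousComponent 3 f + homogeneousComponent 2 f +
      homogeneousComponent 1 f + C (coeff 0 f) := by
  have h1 : ∑ i ∈ range 5, homogeneousComponent i f = f := by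
    conv_rhs => rw [← sum_homogeneousComponent f]
    symm
    apply sum_subset (range_subset_range.2 (by omega))
    intro i _ hi
    rw [Finset.mem_range, not_lt] at hi
    exact homogeneousComponent_eq_zero i f (by omega)
  conv_lhs => rw [← h1]
  simp only [sum_range_succ, sum_range_zero, zero_add, homogeneousComponent_zero]
  ring

theorem main {f : MvPolynomial (Fin 3) ℝ} (hdeg : f.totalDegree ≤ 4) (hn : ∀ x, 0 ≤ eval x f)
    (hns : ¬IsSOS f) : ∃ T > 0, ∀ t ≥ T, IsSOS (heat f t) := by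
  have hf := four_components hdeg
  set c := coeff 0 f with hc
  set f4 : E → ℝ := fun v => eval v (homogeneousComponent 4 f) with hf4
  set f3 : E → ℝ := fun v => eval v (homogeneousComponent 3 f) with hf3
  set f2 : E → ℝ := fun v => eval v (homogeneousComponent 2 f) with hf2
  set f1 : E → ℝ := fun v => eval v (homogeneousComponent 1 f) with hf1
  have t4 : TF 4 f4 := tf_of_hom (homogeneousComponent_isHomogeneous 4 f)
  have t3 : TF 3 f3 := tf_of_hom (homogeneousComponent_isHomogeneous 3 f)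
  have t2 : TF 2 f2 := tf_of_hom (homogeneousComponent_isHomogeneous 2 f)
  have t1 : TF 1 f1 := tf_of_hom (homogeneousComponent_isHomogeneous 1 f)
  have hev : ∀ v, eval v f = f4 v + f3 v + f2 v + f1 v + c := by
    intro v
    conv_lhs => rw [hf]
    simp only [map_add, eval_C, hf4, hf3, hf2, hf1]
  have hn' : ∀ v, 0 ≤ f4 v + f3 v + f2 v + f1 v + c := fun v => by
    rw [← hev]
    exact hn v
  by_cases hd : Deg f4
  · exact absurd (SOSf.isSOS ((dgn c t4 t3 t2 t1 hn' hd).of_eq hev)) hns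
  have hT := star_ineq c t4 t3 t2 t1 hn'
  have h4n := top_nonneg c t4 t3 t2 t1 hn'
  obtain ⟨u, hu, eu⟩ := VR_coord (claim t4 h4n hd f3 hT)
  choose K hK0 hK using fun i => (hu i).2
  set W : ℝ := K 0 + K 1 + K 2 + 1 with hW
  have hW0 : 0 < W := by
    have h0 := hK0 0
    have h1 := hK0 1
    have h2 := hK0 2
    positivity
  set ε : ℝ := 1 / W with hε
  have hε0 : 0 < ε := by positivity
  set G : E → ℝ := fun v => f4 v - ε * ∑ i, u i v * u i v with hG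
  have hGT : TF 4 G := t4.sub ((TF.sum _ fun i _ => ((hu i).1.mul (hu i).1)).smul ε)
  have hGn : ∀ v, 0 ≤ G v := by
    intro v
    have h0 := hK 0 v
    have h1 := hK 1 v
    have h2 := hK 2 v
    have h3 := h4n v
    have h5 : ∑ i, u i v * u i v ≤ W * f4 v := by
      rw [Fin.sum_univ_three, hW]
      nlinarith
    have h6 : ε * ∑ i, u i v * u i v ≤ f4 v := by
      rw [hε, div_mul_eq_mul_div, one_mul, div_le_iff₀ hW0]
      linarith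
    simp only [hG]
    linarith
  obtain ⟨r, q, hq, eq⟩ := hilbert hGT hGn
  -- all squares
  set Q : Fin 3 ⊕ Fin r → E → ℝ := Sum.elim (fun i v => √ε * u i v) q with hQ
  set L : Fin 3 ⊕ Fin r → E → ℝ := Sum.elim (fun i v => (1 / √ε) * v i) (fun _ _ => 0) with hL
  have hQT : ∀ j, TF 2 (Q j) := by
    rintro (i | j)
    · exact (hu i).1.smul √ε
    · exact hq j
  have hLT : ∀ j, TF 1 (L j) := by
    rintro (i | j)
    · exact (TF.coord i).smul (1 / √ε)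
    · exact TF.zero 1
  have hsε : 0 < √ε := Real.sqrt_pos.2 hε0
  have hsε2 : √ε * √ε = ε := Real.mul_self_sqrt hε0.le
  have e4 : ∀ v, f4 v = ∑ j, Q j v * Q j v := by
    intro v
    rw [Fintype.sum_sum_type]
    simp only [hQ, Sum.elim_inl, Sum.elim_inr]
    have h5 := eq v
    simp only [hG] at h5
    have h6 : ∑ i, √ε * u i v * (√ε * u i v) = ε * ∑ i, u i v * u i v := by
      rw [mul_sum]
      apply sum_congr rfl
      intro i _
      calc √ε * u i v * (√ε * u i v) = (√ε * √ε) * (u i v * u i v) := by ring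
        _ = _ := by rw [hsε2]
    have h7 : ∑ j, q j v * q j v = ∑ j, q j v ^ 2 := sum_congr rfl fun j _ => by ring
    rw [h6, h7, ← h5]
    ring
  have e3 : ∀ v, f3 v = ∑ j, Q j v * L j v := by
    intro v
    rw [Fintype.sum_sum_type]
    simp only [hQ, hL, Sum.elim_inl, Sum.elim_inr, mul_zero, sum_const_zero, add_zero]
    rw [show f3 v = _ from eu v]
    apply sum_congr rfl
    intro i _
    field_simp
  choose a m1 m2 n1 n2 n3 eQ using fun j => (hQT j).q2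
  choose b0 b1 b2 eL using fun j => (hLT j).l1
  obtain ⟨A, M1, M2, N1, N2, N3, e2⟩ := t2.q2
  obtain ⟨B0, B1, B2, e1⟩ := t1.l1
  have hf' : f = ∑ j, HQ.q2 (a j) (m1 j) (m2 j) (n1 j) (n2 j) (n3 j) *
        HQ.q2 (a j) (m1 j) (m2 j) (n1 j) (n2 j) (n3 j) +
      ∑ j, HQ.q2 (a j) (m1 j) (m2 j) (n1 j) (n2 j) (n3 j) * HQ.l1 (b0 j) (b1 j) (b2 j) +
      HQ.q2 A M1 M2 N1 N2 N3 + HQ.l1 B0 B1 B2 + C c := by
    apply MvPolynomial.funext
    intro v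
    rw [hev, e4, e3, e2, e1]
    simp only [map_add, map_sum, map_mul, eval_C, eQ, eL]
  refine core a m1 m2 n1 n2 n3 b0 b1 b2 A M1 M2 N1 N2 N3 B0 B1 B2 c hf' hdeg fun v hv => ?_
  by_contra hcon
  have hterm : ∀ j, 0 ≤ eval v (HQ.l1 (2 * a j) (m1 j) (m2 j)) ^ 2 +
      eval v (HQ.l1 (m1 j) (2 * n1 j) (n2 j)) ^ 2 +
      eval v (HQ.l1 (m2 j) (n2 j) (2 * n3 j)) ^ 2 := fun j => by positivity
  have hzero : ∑ j, (eval v (HQ.l1 (2 * a j) (m1 j) (m2 j)) ^ 2 +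
      eval v (HQ.l1 (m1 j) (2 * n1 j) (n2 j)) ^ 2 +
      eval v (HQ.l1 (m2 j) (n2 j) (2 * n3 j)) ^ 2) = 0 :=
    le_antisymm (not_lt.1 hcon) (sum_nonneg fun j _ => hterm j)
  rw [sum_eq_zero_iff_of_nonneg (fun j _ => hterm j)] at hzero
  apply hd
  refine ⟨v, hv, fun w t => ?_⟩
  rw [e4, e4]
  have hinv : ∀ j, Q j (w + t • v) = Q j w := by
    intro j
    have h5 := hzero j (mem_univ j)
    have g0 : eval v (HQ.l1 (2 * a j) (m1 j) (m2 j)) = 0 := by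
      nlinarith [sq_nonneg (eval v (HQ.l1 (2 * a j) (m1 j) (m2 j))),
        sq_nonneg (eval v (HQ.l1 (m1 j) (2 * n1 j) (n2 j))),
        sq_nonneg (eval v (HQ.l1 (m2 j) (n2 j) (2 * n3 j)))]
    have g1 : eval v (HQ.l1 (m1 j) (2 * n1 j) (n2 j)) = 0 := by
      nlinarith [sq_nonneg (eval v (HQ.l1 (2 * a j) (m1 j) (m2 j))),
        sq_nonneg (eval v (HQ.l1 (m1 j) (2 * n1 j) (n2 j))),
        sq_nonneg (eval v (HQ.l1 (m2 j) (n2 j) (2 * n3 j)))]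
    have g2 : eval v (HQ.l1 (m2 j) (n2 j) (2 * n3 j)) = 0 := by
      nlinarith [sq_nonneg (eval v (HQ.l1 (2 * a j) (m1 j) (m2 j))),
        sq_nonneg (eval v (HQ.l1 (m1 j) (2 * n1 j) (n2 j))),
        sq_nonneg (eval v (HQ.l1 (m2 j) (n2 j) (2 * n3 j)))]
    rw [eval_l1] at g0 g1 g2
    rw [eQ, eQ, eval_q2, eval_q2]
    simp only [Pi.add_apply, Pi.smul_apply, smul_eq_mul]
    linear_combination (t * w 0 + t ^ 2 / 2 * v 0) * g0 + (t * w 1 + t ^ 2 / 2 * v 1) * g1 +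
      (t * w 2 + t ^ 2 / 2 * v 2) * g2
  exact sum_congr rfl fun j _ => by rw [hinv]

end Pool.Agent.Q192.HQ
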